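import Pool.Agent.P.MP_7895ba_al.Constr

/-! The adjoint representation and the Lie bracket. -/

open Topology Filter Set

namespace Pool.Agent.P.MP_7895ba_al

theorem hasDerivAt_exp_smul_zero {A : Type} [NormedRing A] [NormedAlgebra ℝ A] [CompleteSpace A]
    (a : A) : HasDerivAt (fun t : ℝ => NormedSpace.exp (t • a)) a 0 := by
  simpa using hasDerivAt_exp_smul_const (𝕂 := ℝ) a 0

theorem hasDerivAt_exp_smul_apply {V : Type} [NormedAddCommGroup V] [NormedSpace ℝ V]
    [CompleteSpace V] (a : V →L[ℝ] V) (v : V) :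
    HasDerivAt (fun t : ℝ => NormedSpace.exp (t • a) v) (a v) 0 := by
  simpa using (hasDerivAt_exp_smul_zero a).clm_apply (hasDerivAt_const (0 : ℝ) v)

/-- If a curve through `exp (t a) v - v` stays in a closed subspace, so does `a v`. -/
theorem apply_mem_of_exp_smul_sub_mem {V : Type} [NormedAddCommGroup V] [NormedSpace ℝ V]
    [FiniteDimensional ℝ V] (a : V →L[ℝ] V) (v : V) (U : Submodule ℝ V)
    (h : ∀ t : ℝ, NormedSpace.exp (t • a) v - v ∈ U) : a v ∈ U := by
  have hd := (hasDerivAt_exp_smul_apply a v).tendsto_slope_zero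
  refine U.closed_of_finiteDimensional.mem_of_tendsto hd (Eventually.of_forall fun t => ?_)
  refine U.smul_mem _ ?_
  simpa using h t

/-- The exponential of an operator mapping `N` into `U ≤ N` acts trivially on `N / U`. -/
theorem exp_apply_sub_mem {V : Type} [NormedAddCommGroup V] [NormedSpace ℝ V]
    [FiniteDimensional ℝ V] (a : V →L[ℝ] V) (U : Submodule ℝ V) (hU : ∀ u ∈ U, a u ∈ U)
    (v : V) (hv : a v ∈ U) : NormedSpace.exp a v - v ∈ U := by
  have hs := (NormedSpace.exp_series_hasSum_exp' (𝕂 := ℝ) a).mapL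
    (ContinuousLinearMap.apply ℝ V v)
  have hs' := (hasSum_nat_add_iff' 1).mpr hs
  simp only [Finset.range_one, Finset.sum_singleton, Nat.factorial_zero, Nat.cast_one, inv_one,
    pow_zero, one_smul, ContinuousLinearMap.apply_apply, one_apply_eq_self] at hs'
  refine U.closed_of_finiteDimensional.mem_of_tendsto hs'.tendsto_sum_nat
    (Eventually.of_forall fun n => U.sum_mem fun i _ => ?_)
  rw [smul_apply]
  refine U.smul_mem _ ?_
  induction i with
  | zero => simpa using hv
  | succ i _ =>
    have : ∀ j : ℕ, (a ^ (j + 1)) v ∈ U := by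
      intro j
      induction j with
      | zero => simpa using hv
      | succ j ih =>
        rw [pow_succ', mul_apply_eq_comp]
        exact hU _ ih
    exact this _

theorem exp_apply_mem {V : Type} [NormedAddCommGroup V] [NormedSpace ℝ V]
    [FiniteDimensional ℝ V] (a : V →L[ℝ] V) (U : Submodule ℝ V) (hU : ∀ u ∈ U, a u ∈ U)
    (v : V) (hv : v ∈ U) : NormedSpace.exp a v ∈ U := by
  have := U.add_mem (exp_apply_sub_mem a U hU v (hU v hv)) hv
  simpa using this

namespace ExpData

variable {E H : Type} [NormedAddCommGroup E] [NormedSpace ℝ E] [FiniteDimensional ℝ E]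
  [Group H] [TopologicalSpace H] [IsTopologicalGroup H] (D : ExpData E H)

theorem exists_Ad (g : H) : ∃ L : E →L[ℝ] E, ∀ X, g * D.exp X * g⁻¹ = D.exp (L X) :=
  D.exists_deriv D (MulAut.conj g).toMonoidHom (by
    change Continuous fun x => g * x * g⁻¹
    fun_prop)

/-- The adjoint representation. -/
noncomputable def Ad : H →* (E →L[ℝ] E) where
  toFun g := (D.exists_Ad g).choose
  map_one' := by
    ext X
    apply D.eq_of_forall_exp_smul
    intro t
    rw [← map_smul, ← (D.exists_Ad 1).choose_spec]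
    simp
  map_mul' g h := by
    ext X
    apply D.eq_of_forall_exp_smul
    intro t
    rw [← map_smul, ← map_smul, ← (D.exists_Ad (g * h)).choose_spec,
      mul_apply_eq_comp, ← (D.exists_Ad g).choose_spec, ← (D.exists_Ad h).choose_spec]
    group

theorem exp_Ad (g : H) (X : E) : D.exp (D.Ad g X) = g * D.exp X * g⁻¹ :=
  ((D.exists_Ad g).choose_spec X).symm

theorem continuous_Ad_apply (X : E) : Continuous fun g => D.Ad g X := by
  have := D.t2Space
  obtain ⟨r, hr, hinj⟩ := D.exists_injOn
  have hr2 : 0 < r / 2 := by positivity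
  -- continuity at a point `g`
  rw [continuous_iff_continuousAt]
  intro g
  -- `exp` restricted to the closed ball of radius `r / 2` is a closed embedding
  have hsub : Metric.closedBall (0 : E) (r / 2) ⊆ Metric.ball 0 r :=
    Metric.closedBall_subset_ball (by linarith)
  let B := Metric.closedBall (0 : E) (r / 2)
  have : CompactSpace B := isCompact_iff_compactSpace.mp (isCompact_closedBall _ _)
  have hemb : IsClosedEmbedding (B.domRestrict D.exp) :=
    (D.continuous_exp.comp continuous_subtype_val).isClosedEmbedding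
      (injOn_iff_injective.mp (hinj.mono hsub))
  -- a small time
  set S := interior (D.exp '' Metric.ball 0 (r / 2)) with hS
  have hS1 : (1 : H) ∈ S := mem_interior_iff_mem_nhds.mpr (D.image_ball_mem_nhds hr2)
  have hc : Continuous fun p : H × ℝ => p.1 * D.exp (p.2 • X) * p.1⁻¹ := by
    have := D.continuous_exp
    fun_prop
  have h1 : (fun p : H × ℝ => p.1 * D.exp (p.2 • X) * p.1⁻¹) ⁻¹' S ∈ 𝓝 (g, (0 : ℝ)) := by
    refine hc.continuousAt.preimage_mem_nhds (isOpen_interior.mem_nhds ?_)
    simpa [D.exp_zero] using hS1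
  rw [nhds_prod_eq, mem_prod_iff] at h1
  obtain ⟨U, hU, T, hT, hUT⟩ := h1
  obtain ⟨τ, hτ, hT⟩ := Metric.mem_nhds_iff.mp hT
  have hτ2 : 0 < τ / 2 := by positivity
  have key : ∀ h ∈ U, (τ / 2) • D.Ad h X ∈ B := by
    intro h hh
    by_contra hcon
    simp only [B, mem_closedBall_zero_iff, not_le] at hcon
    set Y := D.Ad h X
    have hY : 0 < ‖(τ / 2) • Y‖ := hr2.trans hcon
    set s := (r / 2) / ‖(τ / 2) • Y‖ with hs
    have hs0 : 0 < s := by positivity
    have hs1 : s < 1 := (div_lt_one hY).mpr hcon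
    have hn : ‖(s * (τ / 2)) • Y‖ = r / 2 := by
      rw [← smul_smul, norm_smul, Real.norm_of_nonneg hs0.le, hs, div_mul_cancel₀ _ hY.ne']
    have hmem : (h, s * (τ / 2)) ∈ U ×ˢ T := ⟨hh, hT (by
      rw [mem_ball_zero_iff, Real.norm_of_nonneg (by positivity)]
      nlinarith)⟩
    obtain ⟨Z, hZ, hZe⟩ := interior_subset (hUT hmem)
    simp only at hZe
    rw [← D.exp_Ad, map_smul] at hZe
    have := hinj (Metric.ball_subset_ball (by linarith) hZ)
      (mem_ball_zero_iff.mpr (by rw [hn]; linarith)) hZe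
    rw [this, mem_ball_zero_iff, hn] at hZ
    exact lt_irrefl _ hZ
  have hg : g ∈ U := mem_of_mem_nhds hU
  have h2 : ContinuousWithinAt (fun h => (τ / 2) • D.Ad h X) U g := by
    rw [continuousWithinAt_iff_continuousAt_domRestrict _ hg]
    have h3 : Continuous fun h : U => (⟨(τ / 2) • D.Ad h X, key h h.2⟩ : B) := by
      rw [hemb.isEmbedding.continuous_iff]
      have : (B.domRestrict D.exp ∘ fun h : U => (⟨(τ / 2) • D.Ad h X, key h h.2⟩ : B)) =
          fun h : U => (h : H) * D.exp ((τ / 2) • X) * (h : H)⁻¹ := by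
        funext h
        change D.exp ((τ / 2) • D.Ad h X) = _
        rw [← map_smul, D.exp_Ad]
      rw [this]
      fun_prop
    exact (continuous_subtype_val.comp h3).continuousAt
  have h4 := (h2.continuousAt hU).const_smul (τ / 2)⁻¹
  refine h4.congr (Eventually.of_forall fun h => ?_)
  simp only [Pi.smul_apply]
  rw [smul_smul, inv_mul_cancel₀ hτ2.ne', one_smul]

theorem continuous_Ad : Continuous D.Ad :=
  continuous_clm_apply.mpr D.continuous_Ad_apply

/-- The adjoint representation of the Lie algebra. -/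
noncomputable def ad : E →L[ℝ] E →L[ℝ] E :=
  (D.exists_deriv_alg D.Ad D.continuous_Ad).choose

theorem Ad_exp (X : E) : D.Ad (D.exp X) = NormedSpace.exp (D.ad X) :=
  (D.exists_deriv_alg D.Ad D.continuous_Ad).choose_spec X

theorem ad_self (X : E) : D.ad X X = 0 := by
  have h : ∀ t : ℝ, NormedSpace.exp (t • D.ad X) X - X ∈ (⊥ : Submodule ℝ E) := by
    intro t
    rw [Submodule.mem_bot, sub_eq_zero, ← map_smul, ← D.Ad_exp]
    apply D.eq_of_forall_exp_smul
    intro s
    rw [← map_smul, D.exp_Ad, ← D.exp_add_smul, add_comm, D.exp_add_smul, mul_inv_cancel_right]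
  simpa using apply_mem_of_exp_smul_sub_mem _ _ _ h

section rep

variable {A : Type} [NormedRing A] [NormedAlgebra ℝ A] [CompleteSpace A]
  (f : H →* A) (L : E →L[ℝ] A) (hL : ∀ X, f (D.exp X) = NormedSpace.exp (L X))

include hL in
theorem deriv_Ad (g : H) (X : E) : L (D.Ad g X) = f g * L X * f g⁻¹ := by
  let : NormedAlgebra ℚ A := NormedAlgebra.restrictScalars ℚ ℝ A
  apply eq_of_forall_exp_smul_alg
  intro t
  have h1 := NormedSpace.exp_units_conj (f.toHomUnits g) (t • L X)
  have h2 : t • (f g * L X * f g⁻¹) =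
      (f.toHomUnits g : A) * (t • L X) * ((f.toHomUnits g)⁻¹ : Aˣ) := by
    rw [mul_smul_comm, smul_mul_assoc]
    rfl
  rw [h2, h1, ← map_smul, ← map_smul, ← hL, D.exp_Ad, ← map_smul, ← hL, map_mul, map_mul]
  rfl

include hL in
theorem deriv_ad (X Y : E) : L (D.ad X Y) = L X * L Y - L Y * L X := by
  have h1 : HasDerivAt (fun t : ℝ => L (NormedSpace.exp (t • D.ad X) Y)) (L (D.ad X Y)) 0 :=
    L.hasFDerivAt.comp_hasDerivAt (0 : ℝ) (hasDerivAt_exp_smul_apply _ _)
  have h2 : HasDerivAt (fun t : ℝ => NormedSpace.exp (t • L X) * L Y * NormedSpace.exp (t • -L X))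
      (L X * L Y - L Y * L X) 0 := by
    have := ((hasDerivAt_exp_smul_zero (L X)).mul_const (L Y)).mul
      (hasDerivAt_exp_smul_zero (-L X))
    refine HasDerivAt.congr_deriv this ?_
    simp [sub_eq_add_neg]
  refine h1.unique (h2.congr_of_eventuallyEq (Eventually.of_forall fun t => ?_))
  simp only
  rw [← map_smul, ← D.Ad_exp, D.deriv_Ad f L hL, ← D.exp_neg, hL, hL]
  simp

end rep

theorem ad_ad (X Y : E) : D.ad (D.ad X Y) = D.ad X * D.ad Y - D.ad Y * D.ad X :=
  D.deriv_ad D.Ad D.ad D.Ad_exp X Y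

theorem ad_Ad (g : H) (X : E) : D.ad (D.Ad g X) = D.Ad g * D.ad X * D.Ad g⁻¹ :=
  D.deriv_Ad D.Ad D.ad D.Ad_exp g X

theorem Ad_ad (g : H) (X Y : E) : D.Ad g (D.ad X Y) = D.ad (D.Ad g X) (D.Ad g Y) := by
  rw [D.ad_Ad]
  simp only [mul_apply_eq_comp]
  rw [← mul_apply_eq_comp (D.Ad g⁻¹), ← map_mul]
  simp

theorem ad_comm (X Y : E) : D.ad X Y = -D.ad Y X := by
  have h := D.ad_self (X + Y)
  simp only [map_add, add_apply, D.ad_self, zero_add, add_zero] at h
  exact eq_neg_of_add_eq_zero_right h

/-- An `ad`-invariant subspace is `Ad`-invariant, for a connected group. -/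
theorem Ad_mem [PreconnectedSpace H] (U : Submodule ℝ E) (hU : ∀ X, ∀ u ∈ U, D.ad X u ∈ U)
    (g : H) : ∀ u ∈ U, D.Ad g u ∈ U := by
  induction g using D.induction_on with
  | hexp X =>
    rw [D.Ad_exp]
    exact exp_apply_mem _ U (hU X)
  | hmul x y hx hy =>
    intro u hu
    rw [map_mul]
    exact hx _ (hy u hu)

theorem ad_leibniz (x y z : E) : D.ad x (D.ad y z) = D.ad (D.ad x y) z + D.ad y (D.ad x z) := by
  rw [D.ad_ad]
  simp

theorem ad_add (x y z : E) : D.ad (x + y) z = D.ad x z + D.ad y z := by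
  simp

/-- The Lie algebra as a type. -/
def Lie (_D : ExpData E H) : Type := E

instance : AddCommGroup D.Lie := inferInstanceAs (AddCommGroup E)
instance : Module ℝ D.Lie := inferInstanceAs (Module ℝ E)
instance : Module.Finite ℝ D.Lie := inferInstanceAs (Module.Finite ℝ E)

noncomputable instance : LieRing D.Lie where
  bracket x y := D.ad x y
  add_lie x y z := D.ad_add x y z
  lie_add x y z := map_add (D.ad x) y z
  lie_self x := D.ad_self x
  leibniz_lie x y z := D.ad_leibniz x y z

noncomputable instance : LieAlgebra ℝ D.Lie where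
  lie_smul t x y := map_smul (D.ad x) t y

theorem lie_def (x y : D.Lie) : ⁅x, y⁆ = D.ad x y := rfl

end ExpData

end Pool.Agent.P.MP_7895ba_al
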