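import Pool.Agent.P.MP_7895ba_al.LieExpAux

/-! The exponential map of a Lie group. -/

open Topology Filter Metric

namespace Pool.Agent.P.MP_7895ba_al

namespace LocData

variable {E H : Type} [NormedAddCommGroup E] [NormedSpace ℝ E] [Group H] [TopologicalSpace H]
  (D : LocData E H)

/-- The global exponential map. -/
noncomputable def gexp (X : E) : H :=
  D.c (D.e (((⌈2 * ‖X‖ / D.R⌉₊ + 1 : ℕ) : ℝ)⁻¹ • X)) ^ (⌈2 * ‖X‖ / D.R⌉₊ + 1)

variable [CompleteSpace E] [IsTopologicalGroup H] [T2Space H]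

theorem pow_indep (X : E) {n m : ℕ} (hn : 0 < n) (hm : 0 < m) (h : 2 * ‖X‖ ≤ n * D.R) :
    D.c (D.e ((n : ℝ)⁻¹ • X)) ^ n = D.c (D.e (((m * n : ℕ) : ℝ)⁻¹ • X)) ^ (m * n) := by
  have hn' : (0 : ℝ) < n := Nat.cast_pos.2 hn
  have hm' : (0 : ℝ) < m := Nat.cast_pos.2 hm
  rw [pow_mul, ← D.c_e_nsmul _ m hm, smul_smul]
  · congr 4
    push_cast
    field_simp
  · rw [norm_smul, Real.norm_of_nonneg (by positivity)]
    push_cast
    field_simp
    linarith

theorem gexp_eq (X : E) {n : ℕ} (hn : 0 < n) (h : 2 * ‖X‖ ≤ n * D.R) :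
    D.gexp X = D.c (D.e ((n : ℝ)⁻¹ • X)) ^ n := by
  have hR := D.R_pos
  have h1 : 2 * ‖X‖ ≤ ((⌈2 * ‖X‖ / D.R⌉₊ + 1 : ℕ) : ℝ) * D.R := by
    have := Nat.le_ceil (2 * ‖X‖ / D.R)
    rw [div_le_iff₀ hR] at this
    push_cast
    linarith
  rw [gexp, D.pow_indep X (Nat.succ_pos _) hn h1, D.pow_indep X hn (Nat.succ_pos _) h, mul_comm]

theorem gexp_small (X : E) (h : 2 * ‖X‖ ≤ D.R) : D.gexp X = D.c (D.e X) := by
  rw [D.gexp_eq X one_pos (by simpa using h)]
  simp

theorem exists_nat_bound (X : E) : ∃ n : ℕ, 0 < n ∧ 2 * ‖X‖ < n * D.R := by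
  obtain ⟨n, hn⟩ := exists_nat_gt (2 * ‖X‖ / D.R)
  rw [div_lt_iff₀ D.R_pos] at hn
  refine ⟨n + 1, n.succ_pos, ?_⟩
  push_cast
  linarith [D.R_pos]

theorem continuous_gexp : Continuous D.gexp := by
  rw [continuous_iff_continuousAt]
  intro X
  have hR := D.R_pos
  obtain ⟨n, hn, h⟩ := D.exists_nat_bound X
  have hn' : (0 : ℝ) < n := Nat.cast_pos.2 hn
  have hev : ∀ᶠ Y in 𝓝 X, 2 * ‖Y‖ < n * D.R :=
    (isOpen_lt (by fun_prop) continuous_const).mem_nhds h
  have hsm : 2 * ‖(n : ℝ)⁻¹ • X‖ < D.R := by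
    rw [norm_smul, Real.norm_of_nonneg (by positivity)]
    field_simp
    linarith
  have he : ContinuousAt D.e ((n : ℝ)⁻¹ • X) := by
    have hlip : LipschitzOnWith 2 D.e {Z | 2 * ‖Z‖ < D.R} :=
      LipschitzOnWith.of_dist_le_mul fun Z hZ Z' hZ' => by
        rw [dist_eq_norm, dist_eq_norm]
        exact D.e_lip Z Z' (le_of_lt hZ) (le_of_lt hZ')
    exact hlip.continuousOn.continuousAt
      ((isOpen_lt (by fun_prop) continuous_const).mem_nhds hsm)
  have hc : ContinuousAt D.c (D.e ((n : ℝ)⁻¹ • X)) :=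
    D.cont_c _ (by linarith [D.norm_e_le _ hsm.le])
  have h1 : ContinuousAt (fun Y : E => D.c (D.e ((n : ℝ)⁻¹ • Y)) ^ n) X :=
    ((hc.comp he).comp (f := fun Y : E => (n : ℝ)⁻¹ • Y) (by fun_prop)).pow n
  refine h1.congr ?_
  filter_upwards [hev] with Y hY
  exact (D.gexp_eq Y hn hY.le).symm

theorem gexp_zero : D.gexp 0 = 1 := by
  rw [D.gexp_small 0 (by simp; linarith [D.R_pos]), D.e_zero, D.c_zero]

theorem gexp_nsmul (X : E) (a : ℕ) : D.gexp ((a : ℝ) • X) = D.gexp X ^ a := by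
  rcases Nat.eq_zero_or_pos a with rfl | ha
  · simp [D.gexp_zero]
  have ha' : (0 : ℝ) < a := Nat.cast_pos.2 ha
  obtain ⟨n, hn, h⟩ := D.exists_nat_bound X
  have hn' : (0 : ℝ) < n := Nat.cast_pos.2 hn
  rw [D.gexp_eq X hn h.le, D.gexp_eq ((a : ℝ) • X) (Nat.mul_pos hn ha), ← pow_mul, smul_smul]
  · congr 4
    push_cast
    field_simp
  · rw [norm_smul, Real.norm_of_nonneg ha'.le]
    push_cast
    nlinarith

theorem gexp_neg (X : E) : D.gexp (-X) = (D.gexp X)⁻¹ := by
  obtain ⟨n, hn, h⟩ := D.exists_nat_bound X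
  have hn' : (0 : ℝ) < n := Nat.cast_pos.2 hn
  have hsm : 2 * ‖(n : ℝ)⁻¹ • X‖ ≤ D.R := by
    rw [norm_smul, Real.norm_of_nonneg (by positivity)]
    field_simp
    linarith
  rw [D.gexp_eq X hn h.le, D.gexp_eq (-X) hn (by rw [norm_neg]; exact h.le), smul_neg,
    eq_inv_of_mul_eq_one_left (D.c_e_neg _ hsm), inv_pow]

theorem gexp_zsmul (X : E) (a : ℤ) : D.gexp ((a : ℝ) • X) = D.gexp X ^ a := by
  obtain ⟨n, rfl | rfl⟩ := a.eq_nat_or_neg
  · simpa using D.gexp_nsmul X n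
  · simp [D.gexp_neg, D.gexp_nsmul]

theorem gexp_add_smul (X : E) (s t : ℝ) :
    D.gexp ((s + t) • X) = D.gexp (s • X) * D.gexp (t • X) := by
  have hc := D.continuous_gexp
  refine Rat.denseRange_cast.induction_on₂ (p := fun s t : ℝ =>
    D.gexp ((s + t) • X) = D.gexp (s • X) * D.gexp (t • X)) ?_ ?_ s t
  · exact isClosed_eq (by fun_prop) (by fun_prop)
  · intro a b
    have ha : (0 : ℝ) < a.den := Nat.cast_pos.2 a.den_pos
    have hb : (0 : ℝ) < b.den := Nat.cast_pos.2 b.den_pos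
    set Y : E := ((a.den : ℝ) * b.den)⁻¹ • X with hY
    have e1 : (a : ℝ) • X = ((a.num * b.den : ℤ) : ℝ) • Y := by
      rw [hY, smul_smul, Rat.cast_def]
      congr 1
      push_cast
      field_simp
    have e2 : (b : ℝ) • X = ((b.num * a.den : ℤ) : ℝ) • Y := by
      rw [hY, smul_smul, Rat.cast_def]
      congr 1
      push_cast
      field_simp
    rw [add_smul, e1, e2, ← add_smul, ← Int.cast_add, D.gexp_zsmul, D.gexp_zsmul, D.gexp_zsmul,
      zpow_add]

omit [IsTopologicalGroup H] [T2Space H] in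
theorem map_e_nhds : map D.e (𝓝 0) = 𝓝 0 := by
  have h : HasStrictFDerivAt D.e
      ((ContinuousLinearEquiv.refl ℝ E : E ≃L[ℝ] E) : E →L[ℝ] E) 0 := by
    rw [hasStrictFDerivAt_iff_isLittleO, Asymptotics.isLittleO_iff]
    intro ε hε
    have hK := D.K_pos
    have hR := D.R_pos
    have hρ : 0 < min (D.R / 2) (ε / (2 * D.K)) := by positivity
    have h1 : ∀ᶠ X : E in 𝓝 0, ‖X‖ < min (D.R / 2) (ε / (2 * D.K)) :=
      (isOpen_lt continuous_norm continuous_const).mem_nhds (by simpa using hρ)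
    filter_upwards [prod_mem_nhds h1 h1] with z hz
    have h2 := D.e_sub z.1 z.2 _ hz.1.le hz.2.le (by linarith [min_le_left (D.R / 2) (ε / (2 * D.K))])
    have h3 : 2 * D.K * min (D.R / 2) (ε / (2 * D.K)) ≤ ε := by
      have := min_le_right (D.R / 2) (ε / (2 * D.K))
      rw [le_div_iff₀ (by positivity)] at this
      linarith
    refine (le_of_eq ?_).trans (h2.trans ?_)
    · simp
    · gcongr
  have := h.map_nhds_eq_of_equiv
  rwa [D.e_zero] at this

/-- The exponential data attached to local data. -/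
noncomputable def toExpData : ExpData E H where
  exp := D.gexp
  continuous_exp := D.continuous_gexp
  exp_add_smul := D.gexp_add_smul
  eq_zero_of_exp := by
    have hR := D.R_pos
    have hK := D.K_pos
    have hKR := D.KR
    refine ⟨D.R / 2, by positivity, fun W hW h => ?_⟩
    have h1 : 2 * ‖W‖ ≤ D.R := by linarith
    rw [D.gexp_small W h1] at h
    have h2 := D.l_c (D.e W) (by linarith [D.norm_e_le W h1])
    rw [h, D.l_one] at h2
    have h3 := D.e_sub_self W h1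
    rw [← h2, zero_sub, norm_neg] at h3
    have h4 := norm_nonneg W
    have h5 : 2 * D.K * ‖W‖ ≤ 1 / 2 := by nlinarith
    exact norm_eq_zero.1 (by nlinarith)
  nhds_le := by
    have h1 : D.gexp =ᶠ[𝓝 0] D.c ∘ D.e := by
      have : ∀ᶠ X : E in 𝓝 0, 2 * ‖X‖ < D.R :=
        (isOpen_lt (by fun_prop) continuous_const).mem_nhds (by simpa using D.R_pos)
      filter_upwards [this] with X hX using D.gexp_small X hX.le
    rw [map_congr h1, ← map_map, D.map_e_nhds]
    exact D.nhds_le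
  strict := by
    intro ε hε
    have hR := D.R_pos
    have hK := D.K_pos
    have hKR := D.KR
    set η := min (D.R / 2) (ε / (14 * D.K)) with hη
    have hη0 : 0 < η := by positivity
    have hη1 : η ≤ D.R / 2 := min_le_left _ _
    have hη2 : 14 * D.K * η ≤ ε := by
      have := min_le_right (D.R / 2) (ε / (14 * D.K))
      rw [le_div_iff₀ (by positivity)] at this
      linarith
    have h1 : D.e '' ball 0 η ∈ 𝓝 (0 : E) := by
      rw [← D.map_e_nhds]
      exact image_mem_map (ball_mem_nhds _ hη0)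
    obtain ⟨θ, hθ, hθ'⟩ := Metric.mem_nhds_iff.1 h1
    refine ⟨min η (θ / 4), by positivity, fun X Y hX hY => ?_⟩
    obtain ⟨hX1, hX2⟩ := lt_min_iff.1 hX
    obtain ⟨hY1, hY2⟩ := lt_min_iff.1 hY
    have hX3 : 2 * ‖X‖ ≤ D.R := by linarith
    have hX4 : 2 * ‖-X‖ ≤ D.R := by rwa [norm_neg]
    have hY3 : 2 * ‖Y‖ ≤ D.R := by linarith
    have a1 := D.norm_e_le X hX3
    have a2 := D.norm_e_le (-X) hX4
    have a3 := D.norm_e_le Y hY3
    rw [norm_neg] at a2
    set z := D.l (D.c (D.e (-X)) * D.c (D.e Y)) with hz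
    have b1 := D.est_right (D.e (-X)) (D.e Y) (D.e X) (by linarith) (by linarith) (by linarith)
    rw [D.c_e_neg X hX3, D.l_one, sub_zero, ← hz] at b1
    have b2 := D.e_lip Y X hY3 hX3
    have b3 := D.e_sub Y X η hY1.le hX1.le (by linarith)
    have hd := norm_nonneg (Y - X)
    have b4 : ‖z - (Y - X)‖ ≤ 6 * D.K * η * ‖Y - X‖ := by
      have c1 := norm_add_le (z - (D.e Y - D.e X)) (D.e Y - D.e X - (Y - X))
      rw [sub_add_sub_cancel] at c1
      have c2 : D.K * ‖D.e (-X)‖ * ‖D.e Y - D.e X‖ ≤ D.K * (2 * η) * (2 * ‖Y - X‖) := by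
        gcongr; linarith
      nlinarith
    have b5 : ‖z‖ ≤ 2 * ‖Y - X‖ := by
      have c1 := norm_add_le (z - (Y - X)) (Y - X)
      rw [sub_add_cancel] at c1
      have c2 : 6 * D.K * η ≤ 1 := by nlinarith
      nlinarith
    have b6 : ‖z‖ < θ := by
      have := norm_sub_le Y X
      linarith
    obtain ⟨W, hW, hWz⟩ := hθ' (mem_ball_zero_iff.2 b6)
    rw [mem_ball_zero_iff] at hW
    have hW1 : 2 * ‖W‖ ≤ D.R := by linarith
    refine ⟨W, ?_, ?_⟩
    · rw [D.gexp_small W hW1, hWz, hz, D.c_l _ _ (by linarith) (by linarith), ← D.gexp_neg,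
        D.gexp_small _ hX4, D.gexp_small _ hY3]
    · have c1 := D.e_sub_self W hW1
      rw [hWz, norm_sub_rev] at c1
      have c0 := norm_nonneg W
      have c2 : 2 * D.K * ‖W‖ ≤ 2 * D.K * η := by gcongr
      have c3 : 2 * D.K * η ≤ 1 / 2 := by nlinarith
      have c4 : ‖W‖ ≤ 4 * ‖Y - X‖ := by
        have := norm_add_le (W - z) z
        rw [sub_add_cancel] at this
        nlinarith
      have c5 : ‖W - z‖ ≤ 2 * D.K * η * (4 * ‖Y - X‖) := c1.trans (by gcongr)
      have c6 := norm_add_le (W - z) (z - (Y - X))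
      rw [sub_add_sub_cancel] at c6
      nlinarith

end LocData

theorem estimates_of_contDiffAt {E : Type} [NormedAddCommGroup E] [NormedSpace ℝ E]
    {M : E × E → E} (hM : ContDiffAt ℝ 2 M (0, 0))
    (h1 : ∀ᶠ x in 𝓝 (0 : E), M (x, 0) = x) (h2 : ∀ᶠ y in 𝓝 (0 : E), M (0, y) = y) :
    ∃ r K : ℝ, 0 < r ∧ 0 < K ∧
      (∀ x y y', ‖x‖ ≤ r → ‖y‖ ≤ r → ‖y'‖ ≤ r →
        ‖M (x, y) - M (x, y') - (y - y')‖ ≤ K * ‖x‖ * ‖y - y'‖) ∧
      (∀ x x' y, ‖x‖ ≤ r → ‖x'‖ ≤ r → ‖y‖ ≤ r →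
        ‖M (x, y) - M (x', y) - (x - x')‖ ≤ K * ‖y‖ * ‖x - x'‖) := by
  obtain ⟨K, t, ht, hK⟩ :=
    (hM.fderiv_right (m := 1) (by norm_num)).exists_lipschitzOnWith
  have hd : ∀ᶠ z in 𝓝 ((0, 0) : E × E), DifferentiableAt ℝ M z :=
    (hM.eventually (by simp)).mono fun z hz => hz.differentiableAt (by norm_num)
  obtain ⟨r1, hr1, hr1'⟩ := Metric.nhds_basis_closedBall.eventually_iff.1 (hd.and ht)
  obtain ⟨r2, hr2, hr2'⟩ := Metric.nhds_basis_closedBall.eventually_iff.1 (h1.and h2)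
  have hmem : ∀ x y : E, ‖x‖ ≤ min r1 r2 → ‖y‖ ≤ min r1 r2 →
      (x, y) ∈ closedBall ((0, 0) : E × E) r1 := by
    intro x y hx hy
    rw [← closedBall_prod_same]
    exact ⟨mem_closedBall_zero_iff.2 (hx.trans (min_le_left _ _)),
      mem_closedBall_zero_iff.2 (hy.trans (min_le_left _ _))⟩
  have h0 : ‖(0 : E)‖ ≤ min r1 r2 := by simp [hr1.le, hr2.le]
  refine ⟨min r1 r2, K + 1, by positivity, by positivity, ?_, ?_⟩
  · intro x y y' hx hy hy'
    have key := (convex_closedBall (0 : E) (min r1 r2)).norm_image_sub_le_of_norm_hasFDerivWithin_le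
      (f := fun y => M (x, y) - M (0, y))
      (f' := fun y => (fderiv ℝ M (x, y) - fderiv ℝ M (0, y)).comp (ContinuousLinearMap.inr ℝ E E))
      (C := (K + 1) * ‖x‖) (𝕜 := ℝ) ?_ ?_ (mem_closedBall_zero_iff.2 hy')
      (mem_closedBall_zero_iff.2 hy)
    · rw [(hr2' (mem_closedBall_zero_iff.2 (hy.trans (min_le_right _ _)))).2,
        (hr2' (mem_closedBall_zero_iff.2 (hy'.trans (min_le_right _ _)))).2] at key
      refine (le_of_eq ?_).trans key
      congr 1; abel
    · intro w hw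
      rw [mem_closedBall_zero_iff] at hw
      have a1 := (hr1' (hmem x w hx hw)).1.hasFDerivAt.comp w (hasFDerivAt_prodMk_right x w)
      have a2 := (hr1' (hmem 0 w h0 hw)).1.hasFDerivAt.comp w (hasFDerivAt_prodMk_right 0 w)
      rw [ContinuousLinearMap.sub_comp]
      exact (a1.sub a2).hasFDerivWithinAt
    · intro w hw
      rw [mem_closedBall_zero_iff] at hw
      have a1 := hK.norm_sub_le (hr1' (hmem x w hx hw)).2 (hr1' (hmem 0 w h0 hw)).2
      have a2 : ‖((x, w) : E × E) - (0, w)‖ = ‖x‖ := by simp [Prod.norm_def]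
      rw [a2] at a1
      refine (ContinuousLinearMap.opNorm_comp_le _ _).trans ?_
      have a3 := ContinuousLinearMap.norm_inr_le_one ℝ E E
      have a4 := norm_nonneg x
      calc _ ≤ K * ‖x‖ * 1 := by gcongr
        _ ≤ (K + 1) * ‖x‖ := by nlinarith
  · intro x x' y hx hx' hy
    have key := (convex_closedBall (0 : E) (min r1 r2)).norm_image_sub_le_of_norm_hasFDerivWithin_le
      (f := fun x => M (x, y) - M (x, 0))
      (f' := fun x => (fderiv ℝ M (x, y) - fderiv ℝ M (x, 0)).comp (ContinuousLinearMap.inl ℝ E E))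
      (C := (K + 1) * ‖y‖) (𝕜 := ℝ) ?_ ?_ (mem_closedBall_zero_iff.2 hx')
      (mem_closedBall_zero_iff.2 hx)
    · rw [(hr2' (mem_closedBall_zero_iff.2 (hx.trans (min_le_right _ _)))).1,
        (hr2' (mem_closedBall_zero_iff.2 (hx'.trans (min_le_right _ _)))).1] at key
      refine (le_of_eq ?_).trans key
      congr 1; abel
    · intro w hw
      rw [mem_closedBall_zero_iff] at hw
      have a1 := HasFDerivAt.comp (f := fun e : E => (e, y)) w
        (hr1' (hmem w y hw hy)).1.hasFDerivAt (hasFDerivAt_prodMk_left (𝕜 := ℝ) w y)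
      have a2 := HasFDerivAt.comp (f := fun e : E => (e, (0 : E))) w
        (hr1' (hmem w 0 hw h0)).1.hasFDerivAt (hasFDerivAt_prodMk_left (𝕜 := ℝ) w 0)
      rw [ContinuousLinearMap.sub_comp]
      exact (a1.sub a2).hasFDerivWithinAt
    · intro w hw
      rw [mem_closedBall_zero_iff] at hw
      have a1 := hK.norm_sub_le (hr1' (hmem w y hw hy)).2 (hr1' (hmem w 0 hw h0)).2
      have a2 : ‖((w, y) : E × E) - (w, 0)‖ = ‖y‖ := by simp [Prod.norm_def]
      rw [a2] at a1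
      refine (ContinuousLinearMap.opNorm_comp_le _ _).trans ?_
      have a3 := ContinuousLinearMap.norm_inl_le_one ℝ E E
      have a4 := norm_nonneg y
      calc _ ≤ K * ‖y‖ * 1 := by gcongr
        _ ≤ (K + 1) * ‖y‖ := by nlinarith

theorem nonempty_locData_of_lieGroup (E H : Type) [NormedAddCommGroup E] [NormedSpace ℝ E]
    [TopologicalSpace H] [ChartedSpace E H] [Group H]
    [LieGroup (modelWithCornersSelf ℝ E) ((⊤ : ℕ∞) : WithTop ℕ∞) H] [IsTopologicalGroup H] :
    Nonempty (LocData E H) := by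
  let φ := chartAt E (1 : H)
  let x₀ : E := φ 1
  let c : E → H := fun x => φ.symm (x₀ + x)
  let l : H → E := fun h => φ h - x₀
  have hsrc : (1 : H) ∈ φ.source := mem_chart_source E 1
  have htgt : x₀ ∈ φ.target := φ.map_source hsrc
  have c0 : c 0 = 1 := by simp only [c, add_zero]; exact φ.left_inv hsrc
  have hev : ∀ᶠ x in 𝓝 (0 : E), x₀ + x ∈ φ.target :=
    (continuous_const.add continuous_id).continuousAt.eventually
      (φ.open_target.mem_nhds (by simpa using htgt))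
  have hlc : ∀ x, x₀ + x ∈ φ.target → l (c x) = x := fun x hx => by
    simp only [l, c, φ.right_inv hx, add_sub_cancel_left]
  have hcl : ∀ h, h ∈ φ.source → c (l h) = h := fun h hh => by
    simp only [l, c, add_sub_cancel, φ.left_inv hh]
  have hcc : ∀ x, x₀ + x ∈ φ.target → ContinuousAt c x := fun x hx =>
    (φ.continuousAt_symm hx).comp (f := fun x => x₀ + x) (by fun_prop)
  have hc0 : ContinuousAt c 0 := hcc 0 (by simpa using htgt)
  have hmul : ∀ᶠ z in 𝓝 ((0, 0) : E × E), c z.1 * c z.2 ∈ φ.source := by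
    have : ContinuousAt (fun z : E × E => c z.1 * c z.2) (0, 0) :=
      (hc0.comp_of_eq continuousAt_fst rfl).mul (hc0.comp_of_eq continuousAt_snd rfl)
    exact this.eventually (φ.open_source.mem_nhds (by simpa [c0] using hsrc))
  have hcs : ContMDiffAt (modelWithCornersSelf ℝ E) (modelWithCornersSelf ℝ E)
      ((⊤ : ℕ∞) : WithTop ℕ∞) c 0 := by
    have a1 : ContMDiffAt (modelWithCornersSelf ℝ E) (modelWithCornersSelf ℝ E)
        ((⊤ : ℕ∞) : WithTop ℕ∞) φ.symm x₀ :=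
      (contMDiffOn_chart_symm (x := (1 : H))).contMDiffAt (φ.open_target.mem_nhds htgt)
    have a2 : ContMDiffAt (modelWithCornersSelf ℝ E) (modelWithCornersSelf ℝ E)
        ((⊤ : ℕ∞) : WithTop ℕ∞) (fun x : E => x₀ + x) 0 :=
      (contDiff_const.add contDiff_id).contMDiff.contMDiffAt
    exact a1.comp_of_eq a2 (by simp)
  have hM : ContDiffAt ℝ 2 (fun z : E × E => l (c z.1 * c z.2)) (0, 0) := by
    have a1 : ContMDiffAt (modelWithCornersSelf ℝ (E × E)) (modelWithCornersSelf ℝ E)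
        ((⊤ : ℕ∞) : WithTop ℕ∞) (fun z : E × E => c z.1 * c z.2) (0, 0) :=
      (hcs.comp_of_eq contDiff_fst.contMDiff.contMDiffAt rfl).mul
        (hcs.comp_of_eq contDiff_snd.contMDiff.contMDiffAt rfl)
    have a2 : ContMDiffAt (modelWithCornersSelf ℝ E) (modelWithCornersSelf ℝ E)
        ((⊤ : ℕ∞) : WithTop ℕ∞) φ 1 :=
      (contMDiffOn_chart (x := (1 : H))).contMDiffAt (φ.open_source.mem_nhds hsrc)
    have a3 := (a2.comp_of_eq a1 (by simp [c0])).contDiffAt
    exact (a3.of_le (by norm_cast)).sub contDiffAt_const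
  obtain ⟨r, K, hr, hK, e1, e2⟩ := estimates_of_contDiffAt hM
    (hev.mono fun x hx => by simp only [c0, mul_one]; exact hlc x hx)
    (hev.mono fun x hx => by simp only [c0, one_mul]; exact hlc x hx)
  obtain ⟨r1, hr1, hr1'⟩ := Metric.nhds_basis_closedBall.eventually_iff.1 hev
  obtain ⟨r2, hr2, hr2'⟩ := Metric.nhds_basis_closedBall.eventually_iff.1 hmul
  set R := min (min (r / 8) (1 / (4 * K))) (min (r1 / 8) (r2 / 8)) with hR
  have hR1 : 8 * R ≤ r := by
    have : R ≤ r / 8 := (min_le_left _ _).trans (min_le_left _ _)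
    linarith
  have hR2 : K * R ≤ 1 / 4 := by
    have : R ≤ 1 / (4 * K) := (min_le_left _ _).trans (min_le_right _ _)
    rw [le_div_iff₀ (by positivity)] at this
    linarith
  have hR3 : 8 * R ≤ r1 := by
    have : R ≤ r1 / 8 := (min_le_right _ _).trans (min_le_left _ _)
    linarith
  have hR4 : 8 * R ≤ r2 := by
    have : R ≤ r2 / 8 := (min_le_right _ _).trans (min_le_right _ _)
    linarith
  refine ⟨⟨c, l, R, K, by positivity, hK, hR2, c0, ?_, ?_, ?_, ?_, ?_, ?_⟩⟩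
  · exact fun x hx => hlc x (hr1' (mem_closedBall_zero_iff.2 (hx.trans hR3)))
  · exact fun x hx => hcc x (hr1' (mem_closedBall_zero_iff.2 (hx.trans hR3)))
  · have a1 : map φ.symm (𝓝 x₀) = 𝓝 1 := φ.symm_map_nhds_eq hsrc
    have a2 : map (fun x : E => x₀ + x) (𝓝 0) = 𝓝 x₀ := by
      simpa using map_add_left_nhds x₀ 0
    rw [← a1, ← a2, map_map]
    exact le_rfl
  · intro x y hx hy
    refine hcl _ (hr2' (x := (x, y)) ?_)
    rw [← closedBall_prod_same]
    exact ⟨mem_closedBall_zero_iff.2 (hx.trans hR4), mem_closedBall_zero_iff.2 (hy.trans hR4)⟩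
  · exact fun x y y' hx hy hy' => e1 x y y' (hx.trans hR1) (hy.trans hR1) (hy'.trans hR1)
  · exact fun x x' y hx hx' hy => e2 x x' y (hx.trans hR1) (hx'.trans hR1) (hy.trans hR1)

theorem nonempty_expData_of_lieGroup (E H : Type) [NormedAddCommGroup E] [NormedSpace ℝ E]
    [FiniteDimensional ℝ E] [TopologicalSpace H] [ChartedSpace E H] [Group H]
    [LieGroup (modelWithCornersSelf ℝ E) ((⊤ : ℕ∞) : WithTop ℕ∞) H] [IsTopologicalGroup H] :
    Nonempty (ExpData E H) := by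
  obtain ⟨D⟩ := nonempty_locData_of_lieGroup E H
  haveI : CompleteSpace E := FiniteDimensional.complete ℝ E
  haveI : T1Space H := ChartedSpace.t1Space E H
  exact ⟨D.toExpData⟩

end Pool.Agent.P.MP_7895ba_al
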