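import Pool.Agent.P.MP_7895ba_al.Defs

/-! Basic theory of groups with an exponential map: the closed subgroup theorem. -/

open Topology Filter Set

namespace Pool.Agent.P.MP_7895ba_al

namespace ExpData

variable {E H : Type} [NormedAddCommGroup E] [NormedSpace ℝ E]
  [Group H] [TopologicalSpace H] (D : ExpData E H)

theorem exp_zero : D.exp 0 = 1 := by
  have h := D.exp_add_smul 0 0 0
  simpa using h

theorem exp_neg (X : E) : D.exp (-X) = (D.exp X)⁻¹ := by
  have h := D.exp_add_smul X 1 (-1)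
  simp only [add_neg_cancel, zero_smul, one_smul, neg_smul, D.exp_zero] at h
  exact (inv_eq_of_mul_eq_one_right h.symm).symm

theorem exp_nsmul (X : E) (n : ℕ) : D.exp ((n : ℝ) • X) = D.exp X ^ n := by
  induction n with
  | zero => simp [D.exp_zero]
  | succ n ih => rw [Nat.cast_succ, D.exp_add_smul, ih, one_smul, pow_succ]

theorem exp_zsmul (X : E) (n : ℤ) : D.exp ((n : ℝ) • X) = D.exp X ^ n := by
  obtain ⟨m, rfl | rfl⟩ := n.eq_nat_or_neg
  · simpa using D.exp_nsmul X m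
  · rw [Int.cast_neg, neg_smul, D.exp_neg, zpow_neg]
    simpa using D.exp_nsmul X m

theorem exists_injOn : ∃ r > (0 : ℝ), InjOn D.exp (Metric.ball 0 r) := by
  obtain ⟨r, hr, h⟩ := D.eq_zero_of_exp
  obtain ⟨δ, hδ, hs⟩ := D.strict (1 / 2) (by norm_num)
  refine ⟨min δ (r / 4), by positivity, fun X hX Y hY hXY => ?_⟩
  rw [mem_ball_zero_iff, lt_min_iff] at hX hY
  obtain ⟨W, hW, hW'⟩ := hs X Y hX.1 hY.1
  rw [hXY, inv_mul_cancel] at hW
  have h1 : ‖Y - X‖ < r / 2 := by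
    have := norm_sub_le Y X
    linarith [hX.2, hY.2]
  have h2 : ‖W‖ < r := by
    have := norm_add_le (W - (Y - X)) (Y - X)
    rw [sub_add_cancel] at this
    linarith [norm_nonneg (Y - X)]
  have h3 := h W h2 hW
  rw [h3, zero_sub, norm_neg] at hW'
  have : ‖Y - X‖ = 0 := by linarith [norm_nonneg (Y - X)]
  exact (sub_eq_zero.mp (norm_eq_zero.mp this)).symm

theorem image_ball_mem_nhds {r : ℝ} (hr : 0 < r) : D.exp '' Metric.ball 0 r ∈ 𝓝 (1 : H) :=
  D.nhds_le (image_mem_map (Metric.ball_mem_nhds 0 hr))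

theorem tendsto_exp_zero : Tendsto D.exp (𝓝 0) (𝓝 1) := by
  have := D.continuous_exp.tendsto 0
  rwa [D.exp_zero] at this

/-- One-parameter subgroups determine their generator. -/
theorem eq_of_forall_exp_smul {X Y : E} (h : ∀ t : ℝ, D.exp (t • X) = D.exp (t • Y)) : X = Y := by
  obtain ⟨r, hr, hinj⟩ := D.exists_injOn
  have hpos : 0 < ‖X‖ + ‖Y‖ + 1 := by positivity
  set t := r / (‖X‖ + ‖Y‖ + 1) with ht
  have htpos : 0 < t := by positivity
  have key : ∀ Z : E, ‖Z‖ < ‖X‖ + ‖Y‖ + 1 → t • Z ∈ Metric.ball (0 : E) r := by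
    intro Z hZ
    rw [mem_ball_zero_iff, norm_smul, Real.norm_of_nonneg htpos.le, ht, div_mul_eq_mul_div,
      div_lt_iff₀ hpos]
    exact mul_lt_mul_of_pos_left hZ hr
  have := hinj (key X (by linarith [norm_nonneg Y])) (key Y (by linarith [norm_nonneg X])) (h t)
  exact smul_right_injective E htpos.ne' this

include D in
theorem t2Space [IsTopologicalGroup H] : T2Space H := by
  rw [IsTopologicalGroup.t2Space_iff_one_closed]
  obtain ⟨r, hr, hinj⟩ := D.exists_injOn
  rw [← closure_subset_iff_isClosed]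
  intro h hh
  have h1 : ∀ U ∈ 𝓝 (1 : H), h ∈ U := by
    intro U hU
    have hc : ContinuousAt (fun x : H => x⁻¹ * h) h := by fun_prop
    have hU' : (fun x : H => x⁻¹ * h) ⁻¹' U ∈ 𝓝 h := by
      apply hc
      simpa using hU
    obtain ⟨x, hx, hx1⟩ := mem_closure_iff_nhds.mp hh _ hU'
    rw [mem_singleton_iff] at hx1
    simpa [hx1] using hx
  obtain ⟨X, hX, rfl⟩ := h1 _ (D.image_ball_mem_nhds hr)
  have hX0 : X = 0 := by
    by_contra hne
    have hpos : 0 < ‖X‖ := norm_pos_iff.mpr hne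
    obtain ⟨Y, hY, hYX⟩ := h1 _ (D.image_ball_mem_nhds hpos)
    have hYr : Y ∈ Metric.ball (0 : E) r := by
      rw [mem_ball_zero_iff] at *
      linarith
    have := hinj hYr hX hYX
    rw [this, mem_ball_zero_iff] at hY
    exact lt_irrefl _ hY
  rw [hX0, D.exp_zero]
  rfl

include D in
theorem locallyCompactSpace [IsTopologicalGroup H] [FiniteDimensional ℝ E] :
    LocallyCompactSpace H := by
  have hc : IsCompact (D.exp '' Metric.closedBall 0 1) :=
    (isCompact_closedBall (0 : E) 1).image D.continuous_exp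
  refine hc.locallyCompactSpace_of_mem_nhds_of_group (x := 1) ?_
  exact mem_of_superset (D.image_ball_mem_nhds one_pos) (image_mono Metric.ball_subset_closedBall)

/-- Limits of rescaled logarithms of elements of a closed subgroup generate one-parameter
subgroups of it. -/
theorem exp_smul_mem_of_tendsto {K : Subgroup H} (hK : IsClosed (K : Set H))
    {W : ℕ → E} {s : ℕ → ℝ} {X : E} (hs : ∀ n, 0 < s n) (hs0 : Tendsto s atTop (𝓝 0))
    (hW : ∀ n, D.exp (W n) ∈ K) (hX : Tendsto (fun n => (s n)⁻¹ • W n) atTop (𝓝 X)) (t : ℝ) :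
    D.exp (t • X) ∈ K := by
  have h1 : Tendsto (fun n => (⌊t / s n⌋ : ℝ) * s n) atTop (𝓝 t) := by
    have hl : Tendsto (fun n => t - s n) atTop (𝓝 t) := by
      simpa using tendsto_const_nhds.sub hs0
    refine tendsto_of_tendsto_of_tendsto_of_le_of_le hl tendsto_const_nhds (fun n => ?_)
      (fun n => ?_)
    · have := Int.lt_floor_add_one (t / s n)
      rw [div_lt_iff₀ (hs n)] at this
      simp only
      nlinarith
    · have := Int.floor_le (t / s n)
      rwa [le_div_iff₀ (hs n)] at this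
  have h2 : Tendsto (fun n => (⌊t / s n⌋ : ℝ) • W n) atTop (𝓝 (t • X)) := by
    refine (h1.smul hX).congr fun n => ?_
    rw [smul_smul, mul_assoc, mul_inv_cancel₀ (hs n).ne', mul_one]
  refine hK.mem_of_tendsto ((D.continuous_exp.tendsto _).comp h2) (Eventually.of_forall fun n => ?_)
  simp only [Function.comp, D.exp_zsmul]
  exact K.zpow_mem (hW n) _

/-- The Lie algebra of a closed subgroup, as a subspace. -/
def lie (K : Subgroup H) (hK : IsClosed (K : Set H)) : Submodule ℝ E where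
  carrier := {X | ∀ t : ℝ, D.exp (t • X) ∈ K}
  zero_mem' := fun t => by simp [D.exp_zero]
  smul_mem' := fun c X hX t => by
    rw [smul_smul]
    exact hX _
  add_mem' := by
    intro X Y hX hY
    have key : ∀ n : ℕ, ∃ s : ℝ, ∃ W : E, 0 < s ∧ s ≤ 1 / ((n : ℝ) + 1) ∧ D.exp W ∈ K ∧
        ‖s⁻¹ • W - (X + Y)‖ ≤ 1 / ((n : ℝ) + 1) * ‖X + Y‖ := by
      intro n
      obtain ⟨δ, hδ, hs⟩ := D.strict (1 / ((n : ℝ) + 1)) (by positivity)
      have hpos : 0 < ‖X‖ + ‖Y‖ + 1 := by positivity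
      set s := min (1 / ((n : ℝ) + 1)) (δ / (‖X‖ + ‖Y‖ + 1)) with hsdef
      have hspos : 0 < s := by positivity
      have hsm : ∀ Z : E, ‖Z‖ < ‖X‖ + ‖Y‖ + 1 → ‖s • Z‖ < δ := by
        intro Z hZ
        rw [norm_smul, Real.norm_of_nonneg hspos.le]
        have h1 : s ≤ δ / (‖X‖ + ‖Y‖ + 1) := min_le_right _ _
        rw [le_div_iff₀ hpos] at h1
        nlinarith
      obtain ⟨W, hW, hW'⟩ := hs (s • (-X)) (s • Y)
        (hsm _ (by rw [norm_neg]; linarith [norm_nonneg Y])) (hsm _ (by linarith [norm_nonneg X]))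
      refine ⟨s, W, hspos, min_le_left _ _, ?_, ?_⟩
      · rw [hW]
        refine K.mul_mem (K.inv_mem ?_) (hY s)
        have := hX (-s)
        rwa [neg_smul, ← smul_neg] at this
      · have e1 : s • Y - s • (-X) = s • (X + Y) := by module
        rw [e1, norm_smul, Real.norm_of_nonneg hspos.le] at hW'
        have e2 : s⁻¹ • W - (X + Y) = s⁻¹ • (W - s • (X + Y)) := by
          rw [smul_sub, smul_smul, inv_mul_cancel₀ hspos.ne', one_smul]
        rw [e2, norm_smul, Real.norm_of_nonneg (inv_pos.mpr hspos).le, inv_mul_le_iff₀ hspos]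
        linarith
    choose s W hs hs' hW hW' using key
    have h0 : Tendsto (fun n : ℕ => 1 / ((n : ℝ) + 1)) atTop (𝓝 0) :=
      tendsto_one_div_add_atTop_nhds_zero_nat
    refine D.exp_smul_mem_of_tendsto hK hs
      (squeeze_zero (fun n => (hs n).le) hs' h0) hW ?_
    rw [tendsto_iff_norm_sub_tendsto_zero]
    refine squeeze_zero (fun n => norm_nonneg _) hW' ?_
    simpa using h0.mul_const ‖X + Y‖

theorem mem_lie {K : Subgroup H} {hK : IsClosed (K : Set H)} {X : E} :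
    X ∈ D.lie K hK ↔ ∀ t : ℝ, D.exp (t • X) ∈ K := Iff.rfl

theorem exp_mem_of_mem_lie {K : Subgroup H} {hK : IsClosed (K : Set H)} {X : E}
    (hX : X ∈ D.lie K hK) : D.exp X ∈ K := by
  simpa using hX 1

/-- The closed subgroup theorem. -/
theorem exists_mem_lie_of_exp_mem [FiniteDimensional ℝ E] (K : Subgroup H)
    (hK : IsClosed (K : Set H)) :
    ∃ r > (0 : ℝ), ∀ Z : E, ‖Z‖ < r → D.exp Z ∈ K → Z ∈ D.lie K hK := by
  by_contra hcon
  push Not at hcon
  obtain ⟨M, hM⟩ := (D.lie K hK).exists_isCompl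
  let p : E →L[ℝ] E :=
    ((D.lie K hK).subtype ∘ₗ Submodule.projectionOnto _ _ hM).toContinuousLinearMap
  have hp1 : ∀ Z, p Z ∈ D.lie K hK := fun Z => (Submodule.projectionOnto _ _ hM Z).2
  have hp2 : ∀ Z ∈ D.lie K hK, p Z = Z := fun Z hZ => by
    have := Submodule.projectionOnto_apply_left hM ⟨Z, hZ⟩
    exact congrArg Subtype.val this
  have key : ∀ n : ℕ, ∃ Y W : E, Y ≠ 0 ∧ p Y = 0 ∧ ‖Y‖ ≤ 1 / ((n : ℝ) + 1) ∧ D.exp W ∈ K ∧
      ‖W - Y‖ ≤ 1 / ((n : ℝ) + 1) * ‖Y‖ := by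
    intro n
    obtain ⟨δ, hδ, hs⟩ := D.strict (1 / ((n : ℝ) + 1)) (by positivity)
    have hpos : 0 < ‖p‖ + 1 := by positivity
    obtain ⟨Z, hZ, hZK, hZn⟩ := hcon (min δ (1 / ((n : ℝ) + 1)) / (‖p‖ + 1)) (by positivity)
    rw [lt_div_iff₀ hpos, lt_min_iff] at hZ
    have hpZ : ‖p Z‖ ≤ ‖p‖ * ‖Z‖ := p.le_opNorm Z
    have h0 := norm_nonneg Z
    have h1 := norm_nonneg p
    obtain ⟨W, hW, hW'⟩ := hs (p Z) Z (by nlinarith [hZ.1]) (by nlinarith [hZ.1])
    refine ⟨Z - p Z, W, ?_, ?_, ?_, ?_, hW'⟩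
    · intro h
      rw [sub_eq_zero] at h
      exact hZn (h ▸ hp1 Z)
    · rw [map_sub, hp2 _ (hp1 Z), sub_self]
    · have := norm_sub_le Z (p Z)
      nlinarith [hZ.2]
    · rw [hW]
      exact K.mul_mem (K.inv_mem (D.exp_mem_of_mem_lie (hp1 Z))) hZK
  choose Y W hY hpY hYn hW hW' using key
  have hu : ∀ n, ‖Y n‖⁻¹ • Y n ∈ Metric.sphere (0 : E) 1 := fun n => by
    rw [mem_sphere_zero_iff_norm, norm_smul, norm_inv, norm_norm,
      inv_mul_cancel₀ (norm_ne_zero_iff.mpr (hY n))]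
  obtain ⟨u, hu1, φ, hφ, hlim⟩ := (isCompact_sphere (0 : E) 1).tendsto_subseq hu
  have h0 : Tendsto (fun n : ℕ => 1 / ((n : ℝ) + 1)) atTop (𝓝 0) :=
    tendsto_one_div_add_atTop_nhds_zero_nat
  have hdiff : Tendsto (fun n => ‖Y n‖⁻¹ • W n - ‖Y n‖⁻¹ • Y n) atTop (𝓝 0) := by
    rw [tendsto_zero_iff_norm_tendsto_zero]
    refine squeeze_zero (fun n => norm_nonneg _) (fun n => ?_) h0
    rw [← smul_sub, norm_smul, norm_inv, norm_norm,
      inv_mul_le_iff₀ (norm_pos_iff.mpr (hY n))]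
    linarith [hW' n]
  have hlim' : Tendsto (fun n => ‖Y (φ n)‖⁻¹ • W (φ n)) atTop (𝓝 u) := by
    have := (hdiff.comp hφ.tendsto_atTop).add hlim
    simpa using this
  have huK : u ∈ D.lie K hK :=
    D.exp_smul_mem_of_tendsto hK (W := fun n => W (φ n)) (s := fun n => ‖Y (φ n)‖)
      (fun n => norm_pos_iff.mpr (hY _))
      ((squeeze_zero (fun n => norm_nonneg _) hYn h0).comp hφ.tendsto_atTop)
      (fun n => hW _) hlim'
  have hpu : p u = 0 := by
    have h1 := (p.continuous.tendsto u).comp hlim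
    have h2 : (p ∘ ((fun n => ‖Y n‖⁻¹ • Y n) ∘ φ)) = fun _ => 0 := by
      funext n
      simp [hpY]
    rw [h2] at h1
    exact tendsto_nhds_unique h1 tendsto_const_nhds
  rw [hp2 u huK] at hpu
  rw [hpu] at hu1
  simp at hu1

end ExpData

end Pool.Agent.P.MP_7895ba_al
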