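import Pool.Agent.P.MP_7895ba_al.CartanMin

set_option autoImplicit false

open Matrix Filter Topology
open scoped Matrix.Norms.Elementwise

namespace Pool.Agent.P.MP_7895ba_al.Cartan

variable {n : Type} [Fintype n] [DecidableEq n]

/-- the derivation algebra as a subspace -/
def der (m : W n) : Submodule ℝ (Matrix n n ℝ) := LinearMap.ker (rhoL.flip m)

lemma mem_der {m : W n} {D : Matrix n n ℝ} : D ∈ der m ↔ rho D m = 0 := Iff.rfl

lemma slice {m : W n} (ht : ∀ D, rho D m = 0 → rho Dᵀ m = 0) :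
    ∀ᶠ η in 𝓝 (0 : W n), (∀ A, ip (rho A m) η = 0) → ∀ D, rho D (m + η) = 0 → rho D m = 0 := by
  obtain ⟨c, hc⟩ := (der m).exists_isCompl
  have hK : IsCompact (Metric.sphere (0 : Matrix n n ℝ) 1 ∩ (c : Set (Matrix n n ℝ))) :=
    (isCompact_sphere _ _).inter_right c.closed_of_finiteDimensional
  have hev : ∀ᶠ η in 𝓝 (0 : W n),
      ∀ D ∈ Metric.sphere (0 : Matrix n n ℝ) 1 ∩ (c : Set (Matrix n n ℝ)),
        0 < ip (rho D m) (rho D (m + η)) := by
    refine hK.eventually_forall_of_forall_eventually (P := fun η D =>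
      0 < ip (rho D m) (rho D (m + η))) fun D hD => ?_
    have hcont : Continuous fun z : W n × Matrix n n ℝ =>
        ip (rho z.2 m) (rho z.2 (m + z.1)) :=
      continuous_ip (continuous_rho continuous_snd continuous_const)
        (continuous_rho continuous_snd (continuous_const.add continuous_fst))
    refine (hcont.tendsto (0, D)).eventually (lt_mem_nhds ?_)
    simp only [add_zero]
    refine lt_of_le_of_ne (ip_self_nonneg _) fun h0 => ?_
    have h1 : D ∈ der m := eq_zero_of_ip_self h0.symm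
    have h2 : D = 0 := (Submodule.disjoint_def.1 hc.disjoint) D h1 hD.2
    have h3 := hD.1
    rw [h2] at h3
    simp at h3
  filter_upwards [hev] with η hη hperp D hD
  obtain ⟨D1, hD1, D2, hD2, rfl⟩ := Submodule.mem_sup.1
    (show D ∈ der m ⊔ c by rw [hc.sup_eq_top]; trivial)
  have hD1' : rho D1 m = 0 := hD1
  have hq : ip (rho D2 m) (rho D2 (m + η)) = 0 := by
    have e1 : rho D2 (m + η) = - rho D1 η := by
      rw [rho_add_left, rho_add_right D1, hD1', zero_add] at hD
      exact eq_neg_of_add_eq_zero_right hD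
    have e2 : ip (rho D2 m) (rho D1 η) = 0 := by
      rw [ip_comm, ip_rho, ip_comm]
      have := rho_comm D1ᵀ D2 m
      rw [ht D1 hD1', rho_zero_right, sub_zero] at this
      rw [← this]
      exact hperp _
    rw [e1, ← neg_one_smul ℝ (rho D1 η), ip_smul_right, e2, mul_zero]
  by_cases h0 : D2 = 0
  · rw [h0, add_zero]; exact hD1'
  exfalso
  have hn : ‖D2‖ ≠ 0 := norm_ne_zero_iff.2 h0
  have := hη (‖D2‖⁻¹ • D2) ⟨by simp [norm_smul, hn], c.smul_mem _ hD2⟩
  rw [rho_smul_left, rho_smul_left, ip_smul_left, ip_smul_right, hq] at this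
  simp at this

section smooth

variable {X : Type} [NormedAddCommGroup X] [NormedSpace ℝ X]

omit [DecidableEq n] in
lemma contDiff_entry {g : X → Matrix n n ℝ} (hg : ContDiff ℝ 1 g) (i j : n) :
    ContDiff ℝ 1 fun x => g x i j :=
  contDiff_pi.1 (contDiff_pi.1 hg i) j

omit [DecidableEq n] in
lemma contDiff_mmul {g h : X → Matrix n n ℝ} (hg : ContDiff ℝ 1 g) (hh : ContDiff ℝ 1 h) :
    ContDiff ℝ 1 fun x => g x * h x := by
  refine contDiff_pi.2 fun i => contDiff_pi.2 fun j => ?_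
  simp only [mul_apply]
  exact ContDiff.sum fun l _ => (contDiff_entry hg i l).mul (contDiff_entry hh l j)

omit [DecidableEq n] in
lemma contDiff_tri {g h k : X → Matrix n n ℝ} {a : X → W n} (hg : ContDiff ℝ 1 g)
    (hh : ContDiff ℝ 1 h) (hk : ContDiff ℝ 1 k) (ha : ContDiff ℝ 1 a) :
    ContDiff ℝ 1 fun x => tri (g x) (h x) (k x) (a x) := by
  refine contDiff_pi.2 fun i => ?_
  unfold tri adv
  refine contDiff_mmul (contDiff_mmul hg ?_) hh
  exact ContDiff.sum fun l _ => (contDiff_entry hk l i).smul (contDiff_pi.1 ha l)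

end smooth

lemma hasDerivAt_poly {F : Type} [NormedAddCommGroup F] [NormedSpace ℝ F] (c0 c1 : F)
    {q : ℝ → F} (hq : Continuous q) :
    HasDerivAt (fun t : ℝ => c0 + t • c1 + t ^ 2 • q t) c1 0 := by
  have h1 : HasDerivAt (fun t : ℝ => c0 + t • c1) c1 0 := by
    have := ((hasDerivAt_id (0 : ℝ)).smul_const c1).const_add c0
    rwa [one_smul] at this
  have h2 : HasDerivAt (fun t : ℝ => t ^ 2 • q t) 0 0 := by
    rw [hasDerivAt_iff_tendsto_slope_zero]
    have : Tendsto (fun t : ℝ => t • q t) (𝓝 0) (𝓝 0) := by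
      have h0 : Continuous fun t : ℝ => t • q t := continuous_id.smul hq
      have := h0.tendsto 0
      simpa using this
    refine (this.mono_left nhdsWithin_le_nhds).congr' ?_
    filter_upwards [self_mem_nhdsWithin] with t ht
    have ht' : t ≠ 0 := ht
    simp only [zero_add, ne_eq, OfNat.ofNat_ne_zero, not_false_eq_true, zero_pow, zero_smul,
      sub_zero, smul_smul]
    congr 1
    field_simp
  have h3 := h1.fun_add h2
  rwa [add_zero] at h3

lemma local_surj (m : W n) {U : Set (W n)} (hU : U ∈ 𝓝 (0 : W n)) :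
    ∀ᶠ ν in 𝓝 m, ∃ G H : Matrix n n ℝ, ∃ η ∈ U, (∀ A, ip (rho A m) η = 0) ∧ G * H = 1 ∧
      ν = tri G H H (m + η) := by
  let T : Submodule ℝ (W n) := LinearMap.range (rhoL.flip m)
  let N : Submodule ℝ (W n) := ipL.orthogonal T
  have hrefl : (ipL : LinearMap.BilinForm ℝ (W n)).IsRefl := by
    intro a b h
    rw [ipL_apply] at h ⊢
    rwa [ip_comm]
  have hcompl : IsCompl T N := by
    rw [LinearMap.BilinForm.isCompl_orthogonal_iff_disjoint hrefl, Submodule.disjoint_def]
    intro a ha hb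
    exact eq_zero_of_ip_self (hb a ha)
  let Ψ : Matrix n n ℝ × Matrix n n ℝ × N → W n × Matrix n n ℝ := fun p =>
    (tri (1 + p.1) (1 + p.2.1) (1 + p.2.1) (m + (p.2.2 : W n)), (1 + p.1) * (1 + p.2.1))
  have hΨ : ContDiff ℝ 1 Ψ := by
    have h1 : ContDiff ℝ 1 fun p : Matrix n n ℝ × Matrix n n ℝ × N => 1 + p.1 :=
      contDiff_const.add contDiff_fst
    have h2 : ContDiff ℝ 1 fun p : Matrix n n ℝ × Matrix n n ℝ × N => 1 + p.2.1 :=
      contDiff_const.add (contDiff_fst.comp contDiff_snd)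
    have h3 : ContDiff ℝ 1 fun p : Matrix n n ℝ × Matrix n n ℝ × N => m + (p.2.2 : W n) :=
      contDiff_const.add (N.subtypeL.contDiff.comp (contDiff_snd.comp contDiff_snd))
    exact (contDiff_tri h1 h2 h2 h3).prodMk (contDiff_mmul h1 h2)
  have hs : HasStrictFDerivAt Ψ (fderiv ℝ Ψ 0) 0 := hΨ.contDiffAt.hasStrictFDerivAt one_ne_zero
  have hline : ∀ (A B : Matrix n n ℝ) (η : N), fderiv ℝ Ψ 0 (A, B, η)
      = (tri A 1 1 m + tri 1 B 1 m + tri 1 1 B m + η, A + B) := by
    intro A B η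
    have l1 : HasDerivAt (fun t : ℝ => t • ((A, B, η) : Matrix n n ℝ × Matrix n n ℝ × N))
        (A, B, η) 0 := by
      have := (hasDerivAt_id (0 : ℝ)).smul_const ((A, B, η) : Matrix n n ℝ × Matrix n n ℝ × N)
      rwa [one_smul] at this
    have l2 : HasDerivAt (fun t : ℝ => Ψ (t • (A, B, η))) (fderiv ℝ Ψ 0 (A, B, η)) 0 := by
      have hf : HasFDerivAt Ψ (fderiv ℝ Ψ 0) ((0 : ℝ) • ((A, B, η) :
          Matrix n n ℝ × Matrix n n ℝ × N)) := by
        rw [zero_smul]; exact hs.hasFDerivAt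
      exact hf.comp_hasDerivAt (0 : ℝ) l1
    let q : ℝ → W n × Matrix n n ℝ := fun t =>
      ((tri A B 1 m + tri A 1 B m + tri 1 B B m + t • tri A B B m)
        + (tri A 1 1 η + tri 1 B 1 η + tri 1 1 B η)
        + t • (tri A B 1 η + tri A 1 B η + tri 1 B B η + t • tri A B B η), A * B)
    have hq : Continuous q := by
      unfold q
      fun_prop
    have l3 := hasDerivAt_poly ((m, 1) : W n × Matrix n n ℝ)
      (tri A 1 1 m + tri 1 B 1 m + tri 1 1 B m + η, A + B) hq
    have e : (fun t : ℝ => Ψ (t • (A, B, η))) = fun t : ℝ => ((m, 1) : W n × Matrix n n ℝ)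
        + t • (tri A 1 1 m + tri 1 B 1 m + tri 1 1 B m + η, A + B) + t ^ 2 • q t := by
      funext t
      refine Prod.ext ?_ ?_
      · change tri (1 + t • A) (1 + t • B) (1 + t • B) (m + t • (η : W n)) = _
        rw [tri_add, tri_smul, tri_expand, tri_expand]
        simp only [q, Prod.fst_add, Prod.smul_fst]
        module
      · change (1 + t • A) * (1 + t • B) = _
        simp only [q, Prod.snd_add, Prod.smul_snd, add_mul, mul_add, Matrix.one_mul,
          Matrix.mul_one, Matrix.smul_mul, Matrix.mul_smul]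
        module
    rw [e] at l2
    exact l2.unique l3
  have hrange : (fderiv ℝ Ψ 0).range = ⊤ := by
    rw [eq_top_iff]
    rintro ⟨w, C⟩ -
    obtain ⟨x, ⟨A, rfl⟩, η, hη, hsum⟩ := Submodule.mem_sup.1
      (show w - tri 1 C 1 m - tri 1 1 C m ∈ T ⊔ N by rw [hcompl.sup_eq_top]; trivial)
    refine ⟨(A, C - A, ⟨η, hη⟩), ?_⟩
    change fderiv ℝ Ψ 0 (A, C - A, ⟨η, hη⟩) = _
    rw [hline]
    refine Prod.ext ?_ (by simp)
    have hsum' : rho A m + η = w - tri 1 C 1 m - tri 1 1 C m := hsum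
    simp only [sub_eq_add_neg C A, tri_add2, tri_add3, tri_neg2, tri_neg3]
    rw [rho] at hsum'
    have : w = tri A 1 1 m - tri 1 A 1 m - tri 1 1 A m + η + tri 1 C 1 m + tri 1 1 C m := by
      rw [hsum']; abel
    rw [this]
    abel
  have hmap := hs.map_nhds_eq_of_surj hrange
  have hΨ0 : Ψ 0 = (m, 1) := by
    simp [Ψ, tri_one]
  have hS : {p : Matrix n n ℝ × Matrix n n ℝ × N | (p.2.2 : W n) ∈ U} ∈ 𝓝 0 := by
    have hc : Continuous fun p : Matrix n n ℝ × Matrix n n ℝ × N => (p.2.2 : W n) := by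
      fun_prop
    exact hc.continuousAt.preimage_mem_nhds (by simpa using hU)
  have himg : Ψ '' {p : Matrix n n ℝ × Matrix n n ℝ × N | (p.2.2 : W n) ∈ U}
      ∈ 𝓝 ((m, 1) : W n × Matrix n n ℝ) := by
    have := image_mem_map (m := Ψ) hS
    rw [← hΨ0]
    exact hmap.ge this
  have hc : Continuous fun ν : W n => ((ν, 1) : W n × Matrix n n ℝ) := by fun_prop
  filter_upwards [hc.continuousAt.preimage_mem_nhds himg] with ν hν
  obtain ⟨⟨A, B, η⟩, hp, he⟩ := hν
  refine ⟨1 + A, 1 + B, η, hp, fun C => η.2 _ ⟨C, rfl⟩, congrArg Prod.snd he,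
    (congrArg Prod.fst he).symm⟩

lemma finrank_der_le {m : W n} (hm : Jac m) (hk : (kil m).det ≠ 0) :
    Module.finrank ℝ (der m) ≤ Fintype.card n := by
  let f : Matrix n n ℝ →ₗ[ℝ] (n → ℝ) :=
    { toFun := fun D i => trace (D * m i)
      map_add' := fun D E => by funext i; simp [add_mul]
      map_smul' := fun t D => by funext i; simp }
  have hinj : Function.Injective (f.comp (der m).subtype) := by
    rw [injective_iff_map_eq_zero]
    rintro ⟨D, hD⟩ h
    exact Subtype.ext (der_eq_zero hm hk hD fun i => congrFun h i)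
  simpa using LinearMap.finrank_le_finrank_of_injective hinj

theorem exists_good (μ : W n) (hμ : Jac μ) (hk : (kil μ).det ≠ 0) :
    ∃ g h : Matrix n n ℝ, g * h = 1 ∧
      ∀ x, ∃ y, (adv (tri g h h μ) x)ᵀ = adv (tri g h h μ) y := by
  obtain ⟨m, hm, hmin⟩ := exists_min μ
  obtain ⟨hmJ, hmk⟩ := closure_orb_prop hμ hm
  have ht : ∀ D, rho D m = 0 → rho Dᵀ m = 0 := fun D hD => transpose_closed hm hmin hD
  have hev := local_surj m (slice ht)
  obtain ⟨ν, ⟨G, H, η, hη, hperp, hGH, hν⟩, g, h, hgh, hd, hν'⟩ :=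
    mem_closure_iff_nhds.1 hm _ hev
  have hHG : H * G = 1 := mul_eq_one_comm.1 hGH
  have e : m + η = tri (H * g) (h * G) (h * G) μ := by
    rw [← tri_tri, ← hν', hν, tri_tri, hHG, tri_one]
  have hprod : H * g * (h * G) = 1 := by
    rw [Matrix.mul_assoc, ← Matrix.mul_assoc g, hgh, Matrix.one_mul, hHG]
  refine ⟨H * g, h * G, hprod, ?_⟩
  have hJ : Jac (m + η) := e ▸ hμ.tri hprod
  have hK : (kil (m + η)).det ≠ 0 := by
    rw [e, kil_tri hprod, det_mul, det_mul, det_transpose]
    have : (h * G).det ≠ 0 := by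
      intro h0
      have := congrArg det hprod
      rw [det_mul, h0] at this
      simp at this
    positivity
  rw [← e]
  let f : (n → ℝ) →ₗ[ℝ] Matrix n n ℝ :=
    { toFun := adv (m + η)
      map_add' := adv_add_right _
      map_smul' := fun t x => adv_smul_right t _ x }
  have hf : Function.Injective f := by
    rw [injective_iff_map_eq_zero]
    intro x hx
    exact adv_injective hK hx
  have hle : LinearMap.range f ≤ der m := by
    rintro _ ⟨x, rfl⟩
    exact hη hperp _ (hJ.adv x)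
  have heq : LinearMap.range f = der m := by
    refine Submodule.eq_of_le_of_finrank_le hle ?_
    rw [LinearMap.finrank_range_of_inj hf]
    simpa using finrank_der_le hmJ (hmk ▸ hk)
  intro x
  have h1 : (adv (m + η) x)ᵀ ∈ der m := ht _ (hle ⟨x, rfl⟩)
  rw [← heq] at h1
  obtain ⟨y, hy⟩ := h1
  exact ⟨y, hy.symm⟩

end Pool.Agent.P.MP_7895ba_al.Cartan

namespace Pool.Agent.P.MP_7895ba_al

open Cartan

theorem exists_inner_ad_selfAdjoint (L : Type) [LieRing L] [LieAlgebra ℝ L] [Module.Finite ℝ L]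
    [LieAlgebra.IsKilling ℝ L] :
    ∃ B : LinearMap.BilinForm ℝ L, (∀ u v, B u v = B v u) ∧ (∀ u, u ≠ 0 → 0 < B u u) ∧
      ∀ x : L, ∃ y : L, ∀ u v : L, B ⁅x, u⁆ v = B u ⁅y, v⁆ := by
  let b := Module.finBasis ℝ L
  let μ : W (Fin (Module.finrank ℝ L)) := fun i => LinearMap.toMatrix b b (LieAlgebra.ad ℝ L (b i))
  have hadv : ∀ x : L, adv μ (b.equivFun x) = LinearMap.toMatrix b b (LieAlgebra.ad ℝ L x) := by
    intro x
    have e : LieAlgebra.ad ℝ L x = ∑ l, b.repr x l • LieAlgebra.ad ℝ L (b l) := by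
      ext u
      have h1 : ⁅∑ l, b.repr x l • b l, u⁆ = ∑ l, b.repr x l • ⁅b l, u⁆ := by
        rw [sum_lie]
        simp only [smul_lie]
      rw [b.sum_repr x] at h1
      simpa using h1
    rw [e, map_sum]
    simp [adv, μ]
  have hmv : ∀ x u : L, adv μ (b.equivFun x) *ᵥ b.equivFun u = b.equivFun ⁅x, u⁆ := by
    intro x u
    rw [hadv]
    exact LinearMap.toMatrix_mulVec_repr b b (LieAlgebra.ad ℝ L x) u
  have hμi : ∀ i, μ i = adv μ (b.equivFun (b i)) := fun i => (hadv (b i)).symm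
  have hJ : Jac μ := by
    intro i
    apply ext_adv
    intro z
    obtain ⟨u, rfl⟩ := b.equivFun.surjective z
    have e : LieAlgebra.ad ℝ L ⁅b i, u⁆ = LieAlgebra.ad ℝ L (b i) * LieAlgebra.ad ℝ L u
        - LieAlgebra.ad ℝ L u * LieAlgebra.ad ℝ L (b i) := by
      ext v
      simp
    rw [adv_rho, hμi, hmv, hadv, hadv, hadv, e,
      map_sub, LinearMap.toMatrix_mul, LinearMap.toMatrix_mul, sub_self]
    simp [adv]
  have hk : (kil μ).det ≠ 0 := by
    have h1 := (LinearMap.BilinForm.nondegenerate_iff_det_ne_zero b).1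
      (LieAlgebra.IsKilling.killingForm_nondegenerate ℝ L)
    have h2 : kil μ = LinearMap.BilinForm.toMatrix b (killingForm ℝ L) := by
      ext i j
      rw [LinearMap.BilinForm.toMatrix_apply, killingForm_apply_apply,
        LinearMap.trace_eq_matrix_trace ℝ b, LinearMap.toMatrix_comp b b b]
      rfl
    rwa [h2]
  obtain ⟨g, h, hgh, hgood⟩ := exists_good μ hJ hk
  have hhg : h * g = 1 := mul_eq_one_comm.1 hgh
  let φ : L →ₗ[ℝ] (Fin (Module.finrank ℝ L) → ℝ) := (Matrix.mulVecLin g).comp b.equivFun.toLinearMap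
  have hφ : ∀ u, φ u = g *ᵥ b.equivFun u := fun u => rfl
  let B : LinearMap.BilinForm ℝ L := LinearMap.mk₂ ℝ (fun u v => φ u ⬝ᵥ φ v)
    (fun a b c => by simp only [map_add, add_dotProduct])
    (fun t a b => by simp only [map_smul, smul_dotProduct])
    (fun a b c => by simp only [map_add, dotProduct_add])
    (fun t a b => by simp only [map_smul, dotProduct_smul])
  have hB : ∀ u v, B u v = φ u ⬝ᵥ φ v := fun u v => rfl
  have hint : ∀ x u : L, φ ⁅x, u⁆ = adv (tri g h h μ) (φ x) *ᵥ φ u := by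
    intro x u
    rw [adv_tri, hφ, hφ, hφ, mulVec_mulVec _ h g, hhg, one_mulVec, mulVec_mulVec,
      Matrix.mul_assoc, hhg, Matrix.mul_one, ← mulVec_mulVec, hmv]
  refine ⟨B, fun u v => by rw [hB, hB, dotProduct_comm], fun u hu => ?_, fun x => ?_⟩
  · rw [hB]
    refine lt_of_le_of_ne (Finset.sum_nonneg fun i _ => mul_self_nonneg _) fun h0 => hu ?_
    have h1 : φ u = 0 := dotProduct_self_eq_zero.1 h0.symm
    have h2 : b.equivFun u = 0 := by
      have := congrArg (h *ᵥ ·) h1
      simpa [hφ, mulVec_mulVec, hhg] using this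
    exact b.equivFun.map_eq_zero_iff.1 h2
  · obtain ⟨y, hy⟩ := hgood (φ x)
    refine ⟨b.equivFun.symm (h *ᵥ y), fun u v => ?_⟩
    have hy' : φ (b.equivFun.symm (h *ᵥ y)) = y := by
      rw [hφ, LinearEquiv.apply_symm_apply, mulVec_mulVec, hgh, one_mulVec]
    rw [hB, hB, hint, hint, hy', ← hy, dotProduct_mulVec, vecMul_transpose]

end Pool.Agent.P.MP_7895ba_al
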