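import Mathlib

set_option autoImplicit false

open Matrix

namespace Pool.Agent.P.MP_7895ba_al.Cartan

variable {n : Type} [Fintype n] [DecidableEq n]

/-- structure constants: one matrix for each basis vector -/
abbrev W (n : Type) := n → Matrix n n ℝ

/-- the matrix attached to a vector -/
def adv (a : W n) (x : n → ℝ) : Matrix n n ℝ := ∑ l, x l • a l

/-- the basic multilinear operator -/
def tri (g h k : Matrix n n ℝ) (a : W n) : W n := fun i => g * adv a (fun l => k l i) * h

/-- infinitesimal action -/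
def rho (A : Matrix n n ℝ) (a : W n) : W n := tri A 1 1 a - tri 1 A 1 a - tri 1 1 A a

/-- the Euclidean inner product -/
def ip (a b : W n) : ℝ := ∑ i, trace ((a i)ᵀ * b i)

/-- Gram matrix of the trace form -/
def kil (a : W n) : Matrix n n ℝ := Matrix.of fun i j => trace (a i * a j)

omit [DecidableEq n] in
lemma adv_add_left (a b : W n) (x : n → ℝ) : adv (a + b) x = adv a x + adv b x := by
  simp [adv, Finset.sum_add_distrib]

omit [DecidableEq n] in
lemma adv_smul_left (t : ℝ) (a : W n) (x : n → ℝ) : adv (t • a) x = t • adv a x := by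
  simp [adv, Finset.smul_sum, smul_smul, mul_comm]

omit [DecidableEq n] in
lemma adv_add_right (a : W n) (x y : n → ℝ) : adv a (x + y) = adv a x + adv a y := by
  simp [adv, Finset.sum_add_distrib, add_smul]

omit [DecidableEq n] in
lemma adv_smul_right (t : ℝ) (a : W n) (x : n → ℝ) : adv a (t • x) = t • adv a x := by
  simp [adv, Finset.smul_sum, smul_smul]

lemma adv_single (a : W n) (i : n) : adv a (Pi.single i 1) = a i := by
  simp [adv, Pi.single_apply]

omit [DecidableEq n] in
lemma adv_tri (g h k : Matrix n n ℝ) (a : W n) (x : n → ℝ) :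
    adv (tri g h k a) x = g * adv a (k *ᵥ x) * h := by
  simp only [adv, tri, mulVec, dotProduct, Finset.sum_smul, Finset.mul_sum, Finset.sum_mul,
    Finset.smul_sum]
  rw [Finset.sum_comm]
  refine Finset.sum_congr rfl fun l _ => Finset.sum_congr rfl fun i _ => ?_
  simp [smul_smul, mul_comm]

lemma ext_adv {a b : W n} (h : ∀ x, adv a x = adv b x) : a = b := by
  funext i
  rw [← adv_single a i, ← adv_single b i, h]

lemma tri_tri (g h k g' h' k' : Matrix n n ℝ) (a : W n) :
    tri g h k (tri g' h' k' a) = tri (g * g') (h' * h) (k' * k) a := by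
  apply ext_adv
  intro x
  simp [adv_tri, Matrix.mul_assoc]

lemma tri_one (a : W n) : tri 1 1 1 a = a := by
  apply ext_adv
  intro x
  simp [adv_tri]

lemma tri_add (g h k : Matrix n n ℝ) (a b : W n) :
    tri g h k (a + b) = tri g h k a + tri g h k b := by
  apply ext_adv
  intro x
  simp [adv_tri, adv_add_left, mul_add, add_mul]

lemma tri_smul (g h k : Matrix n n ℝ) (t : ℝ) (a : W n) :
    tri g h k (t • a) = t • tri g h k a := by
  apply ext_adv
  intro x
  simp [adv_tri, adv_smul_left]

lemma tri_add1 (g g' h k : Matrix n n ℝ) (a : W n) :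
    tri (g + g') h k a = tri g h k a + tri g' h k a := by
  apply ext_adv
  intro x
  simp [adv_tri, adv_add_left, add_mul]

lemma tri_add2 (g h h' k : Matrix n n ℝ) (a : W n) :
    tri g (h + h') k a = tri g h k a + tri g h' k a := by
  apply ext_adv
  intro x
  simp [adv_tri, adv_add_left, mul_add]

lemma tri_add3 (g h k k' : Matrix n n ℝ) (a : W n) :
    tri g h (k + k') a = tri g h k a + tri g h k' a := by
  apply ext_adv
  intro x
  simp [adv_tri, adv_add_left, add_mulVec, adv_add_right, mul_add, add_mul]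

lemma tri_smul1 (t : ℝ) (g h k : Matrix n n ℝ) (a : W n) :
    tri (t • g) h k a = t • tri g h k a := by
  apply ext_adv
  intro x
  simp [adv_tri, adv_smul_left]

lemma tri_smul2 (t : ℝ) (g h k : Matrix n n ℝ) (a : W n) :
    tri g (t • h) k a = t • tri g h k a := by
  apply ext_adv
  intro x
  simp [adv_tri, adv_smul_left]

lemma tri_smul3 (t : ℝ) (g h k : Matrix n n ℝ) (a : W n) :
    tri g h (t • k) a = t • tri g h k a := by
  apply ext_adv
  intro x
  simp [adv_tri, adv_smul_left, smul_mulVec, adv_smul_right]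

/-- `tri` as a linear map in the last variable -/
def triL (g h k : Matrix n n ℝ) : W n →ₗ[ℝ] W n where
  toFun := tri g h k
  map_add' := tri_add g h k
  map_smul' := tri_smul g h k

lemma tri_sub (g h k : Matrix n n ℝ) (a b : W n) :
    tri g h k (a - b) = tri g h k a - tri g h k b := (triL g h k).map_sub a b

lemma tri_zero (g h k : Matrix n n ℝ) : tri g h k (0 : W n) = 0 := (triL g h k).map_zero

lemma tri_neg1 (g h k : Matrix n n ℝ) (a : W n) : tri (-g) h k a = - tri g h k a := by
  rw [← neg_one_smul ℝ g, tri_smul1, neg_one_smul]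

lemma tri_neg2 (g h k : Matrix n n ℝ) (a : W n) : tri g (-h) k a = - tri g h k a := by
  rw [← neg_one_smul ℝ h, tri_smul2, neg_one_smul]

lemma tri_neg3 (g h k : Matrix n n ℝ) (a : W n) : tri g h (-k) a = - tri g h k a := by
  rw [← neg_one_smul ℝ k, tri_smul3, neg_one_smul]

/-- `rho` as a bilinear map -/
def rhoL : Matrix n n ℝ →ₗ[ℝ] W n →ₗ[ℝ] W n :=
  LinearMap.mk₂ ℝ rho
    (fun A B a => by simp only [rho, tri_add1, tri_add2, tri_add3]; abel)
    (fun t A a => by simp only [rho, tri_smul1, tri_smul2, tri_smul3, smul_sub])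
    (fun A a b => by simp only [rho, tri_add]; abel)
    (fun t A a => by simp only [rho, tri_smul, smul_sub])

lemma rhoL_apply (A : Matrix n n ℝ) (a : W n) : rhoL A a = rho A a := rfl

lemma rho_add_left (A B : Matrix n n ℝ) (a : W n) : rho (A + B) a = rho A a + rho B a := by
  simp only [← rhoL_apply, map_add, LinearMap.add_apply]

lemma rho_sub_left (A B : Matrix n n ℝ) (a : W n) : rho (A - B) a = rho A a - rho B a := by
  simp only [← rhoL_apply, map_sub, LinearMap.sub_apply]

lemma rho_smul_left (t : ℝ) (A : Matrix n n ℝ) (a : W n) : rho (t • A) a = t • rho A a := by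
  simp only [← rhoL_apply, map_smul, LinearMap.smul_apply]

lemma rho_add_right (A : Matrix n n ℝ) (a b : W n) : rho A (a + b) = rho A a + rho A b := by
  simp only [← rhoL_apply, map_add]

lemma rho_zero_right (A : Matrix n n ℝ) : rho A (0 : W n) = 0 := by
  simp only [← rhoL_apply, map_zero]

lemma rho_comm (A B : Matrix n n ℝ) (a : W n) :
    rho (A * B - B * A) a = rho A (rho B a) - rho B (rho A a) := by
  rw [rho_sub_left]
  simp only [rho, tri_sub, tri_tri, Matrix.mul_one, Matrix.one_mul]
  abel

omit [DecidableEq n] in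
lemma ip_eq (a b : W n) : ip a b = ∑ i, ∑ j, ∑ k, a i j k * b i j k := by
  unfold ip
  refine Finset.sum_congr rfl fun i _ => ?_
  simp only [trace, diag, mul_apply, transpose_apply]
  rw [Finset.sum_comm]

omit [DecidableEq n] in
lemma ip_comm (a b : W n) : ip a b = ip b a := by
  simp only [ip_eq, mul_comm]

/-- `ip` as a bilinear form -/
def ipL : LinearMap.BilinForm ℝ (W n) :=
  LinearMap.mk₂ ℝ ip
    (fun a b c => by simp [ip, add_mul, Finset.sum_add_distrib])
    (fun t a b => by simp [ip, Finset.mul_sum])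
    (fun a b c => by simp [ip, mul_add, Finset.sum_add_distrib])
    (fun t a b => by simp [ip, Finset.mul_sum])

lemma ipL_apply (a b : W n) : ipL a b = ip a b := rfl

lemma ip_sub_left (a b c : W n) : ip (a - b) c = ip a c - ip b c := by
  simp only [← ipL_apply, map_sub, LinearMap.sub_apply]

lemma ip_sub_right (a b c : W n) : ip a (b - c) = ip a b - ip a c := by
  simp only [← ipL_apply, map_sub]

lemma ip_add_left (a b c : W n) : ip (a + b) c = ip a c + ip b c := by
  simp only [← ipL_apply, map_add, LinearMap.add_apply]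

lemma ip_add_right (a b c : W n) : ip a (b + c) = ip a b + ip a c := by
  simp only [← ipL_apply, map_add]

lemma ip_smul_left (t : ℝ) (a b : W n) : ip (t • a) b = t * ip a b := by
  simp only [← ipL_apply, map_smul, LinearMap.smul_apply, smul_eq_mul]

lemma ip_smul_right (t : ℝ) (a b : W n) : ip a (t • b) = t * ip a b := by
  simp only [← ipL_apply, map_smul, smul_eq_mul]

lemma ip_zero_right (a : W n) : ip a 0 = 0 := by
  simp only [← ipL_apply, map_zero]

lemma ip_zero_left (a : W n) : ip 0 a = 0 := by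
  rw [ip_comm, ip_zero_right]

omit [DecidableEq n] in
lemma sq_le_ip (a : W n) (i j k : n) : a i j k * a i j k ≤ ip a a := by
  rw [ip_eq]
  calc a i j k * a i j k ≤ ∑ k, a i j k * a i j k :=
        Finset.single_le_sum (f := fun k => a i j k * a i j k)
          (fun _ _ => mul_self_nonneg _) (Finset.mem_univ k)
    _ ≤ ∑ j, ∑ k, a i j k * a i j k :=
        Finset.single_le_sum (f := fun j => ∑ k, a i j k * a i j k)
          (fun _ _ => Finset.sum_nonneg fun _ _ => mul_self_nonneg _) (Finset.mem_univ j)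
    _ ≤ ∑ i, ∑ j, ∑ k, a i j k * a i j k :=
        Finset.single_le_sum (f := fun i => ∑ j, ∑ k, a i j k * a i j k)
          (fun _ _ => Finset.sum_nonneg fun _ _ => Finset.sum_nonneg fun _ _ => mul_self_nonneg _)
          (Finset.mem_univ i)

omit [DecidableEq n] in
lemma ip_self_nonneg (a : W n) : 0 ≤ ip a a := by
  rw [ip_eq]
  exact Finset.sum_nonneg fun _ _ => Finset.sum_nonneg fun _ _ =>
    Finset.sum_nonneg fun _ _ => mul_self_nonneg _

omit [DecidableEq n] in
lemma eq_zero_of_ip_self {a : W n} (h : ip a a = 0) : a = 0 := by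
  funext i
  ext j k
  have h1 := sq_le_ip a i j k
  rw [h] at h1
  have h2 : a i j k * a i j k = 0 := le_antisymm h1 (mul_self_nonneg _)
  simpa using h2

omit [DecidableEq n] in
lemma ip_tri (g h k : Matrix n n ℝ) (a b : W n) :
    ip (tri g h k a) b = ip a (tri gᵀ hᵀ kᵀ b) := by
  unfold ip
  have e1 : ∀ i, trace ((tri g h k a i)ᵀ * b i)
      = ∑ l, k l i * trace ((a l)ᵀ * (gᵀ * b i * hᵀ)) := by
    intro i
    simp only [tri, adv, transpose_mul, transpose_sum, transpose_smul, Finset.mul_sum,
      Finset.sum_mul, trace_sum]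
    refine Finset.sum_congr rfl fun l _ => ?_
    simp only [Matrix.mul_smul, Matrix.smul_mul, trace_smul, smul_eq_mul]
    congr 1
    rw [Matrix.mul_assoc, trace_mul_comm hᵀ]
    simp only [Matrix.mul_assoc]
  have e2 : ∀ l, trace ((a l)ᵀ * tri gᵀ hᵀ kᵀ b l)
      = ∑ i, k l i * trace ((a l)ᵀ * (gᵀ * b i * hᵀ)) := by
    intro l
    simp only [tri, adv, Finset.mul_sum, Finset.sum_mul, trace_sum, transpose_apply]
    refine Finset.sum_congr rfl fun i _ => ?_
    simp only [Matrix.mul_smul, Matrix.smul_mul, trace_smul, smul_eq_mul]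
  simp only [e1, e2]
  rw [Finset.sum_comm]

lemma ip_rho (A : Matrix n n ℝ) (a b : W n) : ip (rho A a) b = ip a (rho Aᵀ b) := by
  simp only [rho, ip_sub_left, ip_sub_right, ip_tri, transpose_one]

lemma adv_rho (A : Matrix n n ℝ) (a : W n) (x : n → ℝ) :
    adv (rho A a) x = A * adv a x - adv a x * A - adv a (A *ᵥ x) := by
  have hs : ∀ b c : W n, adv (b - c) x = adv b x - adv c x := by
    intro b c
    simp [adv, smul_sub, Finset.sum_sub_distrib]
  simp [rho, hs, adv_tri]

/-- the Jacobi identity in Leibniz form -/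
def Jac (a : W n) : Prop := ∀ i, rho (a i) a = 0

lemma Jac.adv {a : W n} (h : Jac a) (x : n → ℝ) : rho (adv a x) a = 0 := by
  have : rho (Cartan.adv a x) a = ∑ l, x l • rho (a l) a := by
    simp only [← rhoL_apply, Cartan.adv, map_sum, map_smul, LinearMap.sum_apply,
      LinearMap.smul_apply]
  rw [this]
  exact Finset.sum_eq_zero fun l _ => by rw [h l, smul_zero]

lemma rho_conj {g h : Matrix n n ℝ} (hgh : g * h = 1) (A : Matrix n n ℝ) (a : W n) :
    rho (g * A * h) (tri g h h a) = tri g h h (rho A a) := by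
  have hhg : h * g = 1 := mul_eq_one_comm.1 hgh
  simp only [rho, tri_sub, tri_tri, Matrix.mul_one, Matrix.one_mul]
  have e1 : g * A * h * g = g * A := by rw [Matrix.mul_assoc, hhg, Matrix.mul_one]
  have e2 : h * (g * A * h) = A * h := by
    rw [← Matrix.mul_assoc, ← Matrix.mul_assoc, hhg, Matrix.one_mul]
  rw [e1, e2]

lemma Jac.tri {a : W n} (ha : Jac a) {g h : Matrix n n ℝ} (hgh : g * h = 1) :
    Jac (tri g h h a) := by
  intro i
  have : Cartan.tri g h h a i = g * Cartan.adv a (fun l => h l i) * h := rfl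
  rw [this, rho_conj hgh, ha.adv, tri_zero]

omit [DecidableEq n] in
lemma trace_adv_adv (a : W n) (x y : n → ℝ) :
    trace (adv a x * adv a y) = x ⬝ᵥ (kil a *ᵥ y) := by
  simp only [adv, kil, Finset.sum_mul, Finset.mul_sum, trace_sum, dotProduct, mulVec, of_apply]
  rw [Finset.sum_comm]
  refine Finset.sum_congr rfl fun l _ => Finset.sum_congr rfl fun m _ => ?_
  simp only [Matrix.mul_smul, Matrix.smul_mul, trace_smul, smul_eq_mul]
  ring

lemma kil_tri {g h : Matrix n n ℝ} (hgh : g * h = 1) (a : W n) :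
    kil (tri g h h a) = hᵀ * kil a * h := by
  have hhg : h * g = 1 := mul_eq_one_comm.1 hgh
  ext i j
  have e : kil (tri g h h a) i j
      = trace (adv a (fun l => h l i) * adv a (fun l => h l j)) := by
    simp only [kil, of_apply, tri]
    rw [Matrix.mul_assoc, Matrix.mul_assoc, trace_mul_comm g]
    have : h * (g * adv a (fun l => h l j) * h) = adv a (fun l => h l j) * h := by
      rw [← Matrix.mul_assoc, ← Matrix.mul_assoc, hhg, Matrix.one_mul]
    rw [this, Matrix.mul_assoc, Matrix.mul_assoc, hhg, Matrix.mul_one]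
  rw [e, trace_adv_adv]
  simp only [dotProduct, mulVec, mul_apply, transpose_apply, Finset.mul_sum, Finset.sum_mul]
  rw [Finset.sum_comm]
  refine Finset.sum_congr rfl fun l _ => Finset.sum_congr rfl fun m _ => ?_
  ring

/-- a derivation that is trace-orthogonal to all `a i` vanishes -/
lemma der_eq_zero {a : W n} (ha : Jac a) (hk : (kil a).det ≠ 0) {D : Matrix n n ℝ}
    (hD : rho D a = 0) (ht : ∀ i, trace (D * a i) = 0) : D = 0 := by
  have ht' : ∀ z, trace (D * adv a z) = 0 := by
    intro z
    simp only [adv, Finset.mul_sum, trace_sum, Matrix.mul_smul, trace_smul, ht, smul_zero,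
      Finset.sum_const_zero]
  have h0 : ∀ x, adv (0 : W n) x = 0 := by intro x; simp [adv]
  have key : ∀ x y, (D *ᵥ x) ⬝ᵥ (kil a *ᵥ y) = 0 := by
    intro x y
    have e1 := adv_rho D a x
    rw [hD, h0] at e1
    have e2 := adv_rho (adv a x) a y
    rw [ha.adv, h0] at e2
    have e1' : adv a (D *ᵥ x) = D * adv a x - adv a x * D := (sub_eq_zero.1 e1.symm).symm
    have e2' : adv a (adv a x *ᵥ y) = adv a x * adv a y - adv a y * adv a x :=
      (sub_eq_zero.1 e2.symm).symm
    rw [← trace_adv_adv, e1', ← ht' (adv a x *ᵥ y), e2', sub_mul, mul_sub, trace_sub, trace_sub]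
    congr 1
    · rw [Matrix.mul_assoc]
    · rw [Matrix.mul_assoc, trace_mul_comm, Matrix.mul_assoc]
  have hu : IsUnit (kil a).det := isUnit_iff_ne_zero.2 hk
  have key2 : ∀ x, D *ᵥ x = 0 := by
    intro x
    have := key x ((kil a)⁻¹ *ᵥ (D *ᵥ x))
    rw [mulVec_mulVec, mul_nonsing_inv _ hu, one_mulVec] at this
    exact dotProduct_self_eq_zero.1 this
  ext i j
  have := congrFun (key2 (Pi.single j 1)) i
  simpa using this

lemma adv_injective {a : W n} (hk : (kil a).det ≠ 0) {x : n → ℝ} (hx : adv a x = 0) : x = 0 := by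
  have hu : IsUnit (kil a).det := isUnit_iff_ne_zero.2 hk
  have := trace_adv_adv a x ((kil a)⁻¹ *ᵥ x)
  rw [hx, Matrix.zero_mul, trace_zero, mulVec_mulVec, mul_nonsing_inv _ hu, one_mulVec] at this
  exact dotProduct_self_eq_zero.1 this.symm

end Pool.Agent.P.MP_7895ba_al.Cartan
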