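import Pool.Agent.P.MP_7895ba_al.CartanAlg

set_option autoImplicit false

open Matrix Filter Topology

namespace Pool.Agent.P.MP_7895ba_al.Cartan

variable {n : Type} [Fintype n] [DecidableEq n]

omit [DecidableEq n] in
lemma continuous_tri {X : Type} [TopologicalSpace X] {g h k : X → Matrix n n ℝ} {a : X → W n}
    (hg : Continuous g) (hh : Continuous h) (hk : Continuous k) (ha : Continuous a) :
    Continuous fun x => tri (g x) (h x) (k x) (a x) := by
  refine continuous_pi fun i => ?_
  unfold tri adv
  refine (hg.matrix_mul ?_).matrix_mul hh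
  refine continuous_finsetSum _ fun l _ => ?_
  exact (hk.matrix_elem l i).smul ((continuous_apply l).comp ha)

lemma continuous_rho {X : Type} [TopologicalSpace X] {A : X → Matrix n n ℝ} {a : X → W n}
    (hA : Continuous A) (ha : Continuous a) : Continuous fun x => rho (A x) (a x) := by
  unfold rho
  exact ((continuous_tri hA continuous_const continuous_const ha).sub
    (continuous_tri continuous_const hA continuous_const ha)).sub
    (continuous_tri continuous_const continuous_const hA ha)

omit [DecidableEq n] in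
lemma continuous_ip {X : Type} [TopologicalSpace X] {a b : X → W n}
    (ha : Continuous a) (hb : Continuous b) : Continuous fun x => ip (a x) (b x) := by
  unfold ip
  refine continuous_finsetSum _ fun i _ => ?_
  exact (((continuous_apply i).comp ha).matrix_transpose.matrix_mul
    ((continuous_apply i).comp hb)).matrix_trace

omit [DecidableEq n] in
lemma continuous_kil : Continuous (kil : W n → Matrix n n ℝ) := by
  refine continuous_matrix fun i j => ?_
  simp only [kil, of_apply]
  exact ((continuous_apply i).matrix_mul (continuous_apply j)).matrix_trace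

/-- the orbit under the special linear group -/
def orb (μ : W n) : Set (W n) :=
  {b | ∃ g h : Matrix n n ℝ, g * h = 1 ∧ h.det = 1 ∧ b = tri g h h μ}

lemma self_mem_orb (μ : W n) : μ ∈ orb μ := ⟨1, 1, by simp, by simp, (tri_one μ).symm⟩

lemma tri_mem_orb {μ b : W n} (hb : b ∈ orb μ) {g h : Matrix n n ℝ} (hgh : g * h = 1)
    (hd : h.det = 1) : tri g h h b ∈ orb μ := by
  obtain ⟨g', h', hgh', hd', rfl⟩ := hb
  refine ⟨g * g', h' * h, ?_, ?_, tri_tri _ _ _ _ _ _ _⟩
  · rw [Matrix.mul_assoc, ← Matrix.mul_assoc g', hgh', Matrix.one_mul, hgh]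
  · rw [det_mul, hd, hd', one_mul]

lemma tri_mem_closure {μ b : W n} (hb : b ∈ closure (orb μ)) {g h : Matrix n n ℝ}
    (hgh : g * h = 1) (hd : h.det = 1) : tri g h h b ∈ closure (orb μ) :=
  map_mem_closure (f := tri g h h)
    (continuous_tri continuous_const continuous_const continuous_const continuous_id) hb
    fun _ hx => tri_mem_orb hx hgh hd

lemma closure_orb_prop {μ b : W n} (hμ : Jac μ) (hb : b ∈ closure (orb μ)) :
    Jac b ∧ (kil b).det = (kil μ).det := by
  have hc : IsClosed {b : W n | Jac b ∧ (kil b).det = (kil μ).det} := by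
    refine IsClosed.inter ?_ (isClosed_eq continuous_kil.matrix_det continuous_const)
    have : {b : W n | Jac b} = ⋂ i, {b : W n | rho (b i) b = 0} := by
      ext b; simp [Jac]
    change IsClosed {b : W n | Jac b}
    rw [this]
    exact isClosed_iInter fun i =>
      isClosed_eq (continuous_rho (continuous_apply i) continuous_id) continuous_const
  refine closure_minimal (s := orb μ) ?_ hc hb
  rintro b ⟨g, h, hgh, hd, rfl⟩
  refine ⟨hμ.tri hgh, ?_⟩
  rw [kil_tri hgh, det_mul, det_mul, det_transpose, hd, one_mul, mul_one]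

omit [DecidableEq n] in
lemma isCompact_ip_le (R : ℝ) : IsCompact {a : W n | ip a a ≤ R} := by
  have hK : IsCompact (Set.pi Set.univ fun _ : n => Set.pi Set.univ fun _ : n =>
      Set.pi Set.univ fun _ : n => Set.Icc (-(R + 1)) (R + 1)) :=
    isCompact_univ_pi fun _ => isCompact_univ_pi fun _ => isCompact_univ_pi fun _ => isCompact_Icc
  refine IsCompact.of_isClosed_subset (s := (Set.pi Set.univ fun _ : n => Set.pi Set.univ
    fun _ : n => Set.pi Set.univ fun _ : n => Set.Icc (-(R + 1)) (R + 1) : Set (W n))) hK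
    (isClosed_le (continuous_ip continuous_id continuous_id) continuous_const) ?_
  intro a ha i _ j _ k _
  have h1 := (sq_le_ip a i j k).trans ha
  constructor <;> nlinarith [mul_self_nonneg (a i j k + 1), mul_self_nonneg (a i j k - 1)]

lemma exists_min (μ : W n) :
    ∃ m ∈ closure (orb μ), ∀ b ∈ closure (orb μ), ip m m ≤ ip b b := by
  have hK : IsCompact (closure (orb μ) ∩ {a : W n | ip a a ≤ ip μ μ}) :=
    (isCompact_ip_le _).inter_left isClosed_closure
  have hne : (closure (orb μ) ∩ {a : W n | ip a a ≤ ip μ μ}).Nonempty :=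
    ⟨μ, subset_closure (self_mem_orb μ), le_refl (ip μ μ)⟩
  obtain ⟨m, hm, hmin⟩ := hK.exists_isMinOn hne
    (continuous_ip continuous_id continuous_id).continuousOn
  refine ⟨m, hm.1, fun b hb => ?_⟩
  by_cases hbμ : ip b b ≤ ip μ μ
  · exact hmin ⟨hb, hbμ⟩
  · exact hm.2.trans (le_of_not_ge hbμ)

lemma lin_coeff_zero {c1 : ℝ} {q : ℝ → ℝ} (hq : Continuous q)
    (h : ∀ t : ℝ, 0 ≤ t * c1 + t ^ 2 * q t) : c1 = 0 := by
  have hd : HasDerivAt (fun t : ℝ => t * c1 + t ^ 2 * q t) c1 0 := by
    have h1 : HasDerivAt (fun t : ℝ => t * c1) c1 0 := by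
      simpa using (hasDerivAt_id (0 : ℝ)).mul_const c1
    have h2 : HasDerivAt (fun t : ℝ => t ^ 2 * q t) 0 0 := by
      rw [hasDerivAt_iff_tendsto_slope_zero]
      have : Tendsto (fun t : ℝ => t * q t) (𝓝 0) (𝓝 0) := by
        have h0 : Continuous fun t : ℝ => t * q t := continuous_id.mul hq
        have := h0.tendsto 0
        simpa using this
      refine (this.mono_left nhdsWithin_le_nhds).congr' ?_
      filter_upwards [self_mem_nhdsWithin] with t ht
      have ht' : t ≠ 0 := ht
      simp only [zero_add, smul_eq_mul]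
      field_simp
      ring
    have h3 := h1.fun_add h2
    rwa [add_zero] at h3
  have hm : IsLocalMin (fun t : ℝ => t * c1 + t ^ 2 * q t) 0 :=
    Filter.Eventually.of_forall fun t => by simpa using h t
  exact hm.hasDerivAt_eq_zero hd

lemma tri_expand (A B : Matrix n n ℝ) (t : ℝ) (a : W n) :
    tri (1 + t • A) (1 + t • B) (1 + t • B) a
      = a + t • (tri A 1 1 a + tri 1 B 1 a + tri 1 1 B a)
        + t ^ 2 • (tri A B 1 a + tri A 1 B a + tri 1 B B a + t • tri A B B a) := by
  simp only [tri_add1, tri_add2, tri_add3, tri_smul1, tri_smul2, tri_smul3, tri_one]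
  module

lemma first_order_sq {μ m : W n} (hm : m ∈ closure (orb μ))
    (hmin : ∀ b ∈ closure (orb μ), ip m m ≤ ip b b) (u v : n → ℝ) (huv : v ⬝ᵥ u = 0) :
    ip (rho (vecMulVec u v) m) m = 0 := by
  set N := vecMulVec u v with hN
  have hNN : N * N = 0 := by
    rw [hN, vecMulVec_mul_vecMulVec, huv]
    simp
  have key : ∀ t : ℝ, ip m m ≤ ip (tri (1 + t • N) (1 + t • (-N)) (1 + t • (-N)) m)
      (tri (1 + t • N) (1 + t • (-N)) (1 + t • (-N)) m) := by
    intro t
    refine hmin _ (tri_mem_closure hm ?_ ?_)
    · simp [add_mul, mul_add, hNN]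
    · have : t • (-N) = replicateCol Unit ((-t) • u) * replicateRow Unit v := by
        rw [← vecMulVec_eq, smul_vecMulVec, hN]
        simp
      rw [this, det_one_add_replicateCol_mul_replicateRow, dotProduct_smul, huv]
      simp
  set r := rho N m with hr
  let c : ℝ → W n := fun t =>
    tri N (-N) 1 m + tri N 1 (-N) m + tri 1 (-N) (-N) m + t • tri N (-N) (-N) m
  have hc : Continuous c := by
    unfold c
    fun_prop
  have e : ∀ t : ℝ, tri (1 + t • N) (1 + t • (-N)) (1 + t • (-N)) m = m + t • r + t ^ 2 • c t := by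
    intro t
    rw [tri_expand, hr, rho, tri_neg2, tri_neg3]
    simp only [c, sub_eq_add_neg]
  have h2 : 2 * ip r m = 0 := by
    refine lin_coeff_zero (q := fun t => ip r r + 2 * ip m (c t) + 2 * t * ip r (c t)
      + t ^ 2 * ip (c t) (c t)) ?_ ?_
    · have i1 := continuous_ip (continuous_const (y := m)) hc
      have i2 := continuous_ip (continuous_const (y := r)) hc
      have i3 := continuous_ip hc hc
      fun_prop
    · intro t
      have := key t
      rw [e t] at this
      simp only [ip_add_left, ip_add_right, ip_smul_left, ip_smul_right] at this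
      rw [ip_comm m r, ip_comm (c t) m, ip_comm (c t) r] at this
      nlinarith
  linarith

lemma first_order {μ m : W n} (hm : m ∈ closure (orb μ))
    (hmin : ∀ b ∈ closure (orb μ), ip m m ≤ ip b b) (A : Matrix n n ℝ) (hA : trace A = 0) :
    ip (rho A m) m = 0 := by
  let l : Matrix n n ℝ →ₗ[ℝ] ℝ := (ipL.flip m) ∘ₗ (rhoL.flip m)
  have hl : ∀ A, l A = ip (rho A m) m := fun A => rfl
  have hs : ∀ i j : n, vecMulVec (Pi.single i (1 : ℝ)) (Pi.single j (1 : ℝ))
      = Matrix.single i j (1 : ℝ) := by
    intro i j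
    rw [single_eq_single_vecMulVec_single]
  have h1 : ∀ i j : n, i ≠ j → l (Matrix.single i j 1) = 0 := by
    intro i j hij
    rw [hl, ← hs]
    refine first_order_sq hm hmin _ _ ?_
    simp [hij]
  have h2 : ∀ i j : n, l (Matrix.single i i 1) = l (Matrix.single j j 1) := by
    intro i j
    by_cases hij : i = j
    · rw [hij]
    have := first_order_sq hm hmin (Pi.single i 1 + Pi.single j 1)
      (Pi.single i 1 - Pi.single j 1) (by
        simp [hij, Ne.symm hij])
    rw [← hl, add_vecMulVec, vecMulVec_sub, vecMulVec_sub] at this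
    simp only [hs, map_add, map_sub, h1 i j hij, h1 j i (Ne.symm hij)] at this
    linarith
  rw [← hl]
  rcases isEmpty_or_nonempty n with hn | ⟨⟨i0⟩⟩
  · rw [Subsingleton.elim A 0, map_zero]
  have hA' : A = ∑ i, ∑ j, A i j • Matrix.single i j (1 : ℝ) := by
    conv_lhs => rw [matrix_eq_sum_single A]
    simp
  have h3 : ∀ i, ∑ j, A i j * l (Matrix.single i j 1) = A i i * l (Matrix.single i0 i0 1) := by
    intro i
    rw [Finset.sum_eq_single i]
    · rw [h2 i i0]
    · intro j _ hj
      rw [h1 i j (Ne.symm hj), mul_zero]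
    · simp
  rw [hA']
  simp only [map_sum, map_smul, smul_eq_mul, h3, ← Finset.sum_mul]
  have : ∑ i, A i i = 0 := hA
  rw [this, zero_mul]

lemma transpose_closed {μ m : W n} (hm : m ∈ closure (orb μ))
    (hmin : ∀ b ∈ closure (orb μ), ip m m ≤ ip b b) {D : Matrix n n ℝ} (hD : rho D m = 0) :
    rho Dᵀ m = 0 := by
  apply eq_zero_of_ip_self
  have h1 := first_order hm hmin (D * Dᵀ - Dᵀ * D) (by rw [trace_sub, trace_mul_comm, sub_self])
  rw [rho_comm, hD, rho_zero_right, sub_zero, ip_rho] at h1
  exact h1

end Pool.Agent.P.MP_7895ba_al.Cartan
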