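import Pool.Agent.P.MP_7895ba_al.Basic

/-! Constructions: closed subgroups, products, unit groups; functoriality. -/

open Topology Filter Set

namespace Pool.Agent.P.MP_7895ba_al

namespace ExpData

variable {E H : Type} [NormedAddCommGroup E] [NormedSpace ℝ E]
  [Group H] [TopologicalSpace H] (D : ExpData E H)

/-- The exponential map of a closed subgroup. -/
noncomputable def sub [FiniteDimensional ℝ E] (K : Subgroup H) (hK : IsClosed (K : Set H)) :
    ExpData (D.lie K hK) K where
  exp X := ⟨D.exp X, D.exp_mem_of_mem_lie X.2⟩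
  continuous_exp := (D.continuous_exp.comp continuous_subtype_val).subtype_mk _
  exp_add_smul X s t := Subtype.ext (D.exp_add_smul X s t)
  eq_zero_of_exp := by
    obtain ⟨r, hr, h⟩ := D.eq_zero_of_exp
    exact ⟨r, hr, fun W hW h1 => Subtype.ext (h W hW (congrArg Subtype.val h1))⟩
  nhds_le := by
    obtain ⟨r, hr, h⟩ := D.exists_mem_lie_of_exp_mem K hK
    intro U hU
    rw [mem_map, Metric.mem_nhds_iff] at hU
    obtain ⟨ε, hε, hU⟩ := hU
    have h1 := D.image_ball_mem_nhds (r := min r ε) (by positivity)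
    have h2 : (Subtype.val : K → H) ⁻¹' (D.exp '' Metric.ball 0 (min r ε)) ∈ 𝓝 (1 : K) :=
      continuous_subtype_val.continuousAt.preimage_mem_nhds h1
    refine mem_of_superset h2 ?_
    rintro k ⟨Z, hZ, hZk⟩
    rw [mem_ball_zero_iff, lt_min_iff] at hZ
    have hZK : Z ∈ D.lie K hK := h Z hZ.1 (hZk ▸ k.2)
    have h3 : (⟨Z, hZK⟩ : D.lie K hK) ∈ Metric.ball (0 : D.lie K hK) ε := by
      rw [mem_ball_zero_iff]
      exact hZ.2
    have h4 := hU h3
    rw [mem_preimage] at h4
    convert h4 using 1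
    exact Subtype.ext hZk.symm
  strict := by
    intro ε hε
    obtain ⟨r, hr, h⟩ := D.exists_mem_lie_of_exp_mem K hK
    obtain ⟨δ, hδ, hs⟩ := D.strict (min ε 1) (by positivity)
    refine ⟨min δ (r / 4), by positivity, fun X Y hX hY => ?_⟩
    rw [lt_min_iff] at hX hY
    obtain ⟨W, hW, hW'⟩ := hs X Y hX.1 hY.1
    have hXn : ‖(X : E)‖ < r / 4 := hX.2
    have hYn : ‖(Y : E)‖ < r / 4 := hY.2
    have h0 := norm_nonneg ((Y : E) - X)
    have hWr : ‖W‖ < r := by
      have h1 := norm_add_le (W - ((Y : E) - X)) ((Y : E) - X)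
      rw [sub_add_cancel] at h1
      have h2 := norm_sub_le (Y : E) X
      have h3 : min ε 1 * ‖(Y : E) - X‖ ≤ 1 * ‖(Y : E) - X‖ :=
        mul_le_mul_of_nonneg_right (min_le_right _ _) h0
      linarith
    have hWK : W ∈ D.lie K hK := h W hWr (by
      rw [hW]
      exact K.mul_mem (K.inv_mem (D.exp_mem_of_mem_lie X.2)) (D.exp_mem_of_mem_lie Y.2))
    refine ⟨⟨W, hWK⟩, Subtype.ext hW, ?_⟩
    exact hW'.trans (mul_le_mul_of_nonneg_right (min_le_left _ _) h0)

@[simp] theorem sub_exp_coe [FiniteDimensional ℝ E] (K : Subgroup H) (hK : IsClosed (K : Set H))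
    (X : D.lie K hK) : ((D.sub K hK).exp X : H) = D.exp X := rfl

section prod

variable {E' H' : Type} [NormedAddCommGroup E'] [NormedSpace ℝ E']
  [Group H'] [TopologicalSpace H'] (D' : ExpData E' H')

/-- The exponential map of a product of two groups. -/
def prod : ExpData (E × E') (H × H') where
  exp X := (D.exp X.1, D'.exp X.2)
  continuous_exp := (D.continuous_exp.comp continuous_fst).prodMk
    (D'.continuous_exp.comp continuous_snd)
  exp_add_smul X s t := Prod.ext (D.exp_add_smul X.1 s t) (D'.exp_add_smul X.2 s t)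
  eq_zero_of_exp := by
    obtain ⟨r, hr, h⟩ := D.eq_zero_of_exp
    obtain ⟨r', hr', h'⟩ := D'.eq_zero_of_exp
    refine ⟨min r r', by positivity, fun W hW h1 => ?_⟩
    rw [lt_min_iff] at hW
    exact Prod.ext (h _ ((norm_fst_le W).trans_lt hW.1) (congrArg Prod.fst h1))
      (h' _ ((norm_snd_le W).trans_lt hW.2) (congrArg Prod.snd h1))
  nhds_le := by
    have h1 : (𝓝 (1 : H × H')) = 𝓝 1 ×ˢ 𝓝 1 := nhds_prod_eq
    have h2 : (𝓝 (0 : E × E')) = 𝓝 0 ×ˢ 𝓝 0 := nhds_prod_eq
    rw [h1, h2]
    refine (Filter.prod_mono D.nhds_le D'.nhds_le).trans ?_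
    rw [prod_map_map_eq]
  strict := by
    intro ε hε
    obtain ⟨δ, hδ, hs⟩ := D.strict ε hε
    obtain ⟨δ', hδ', hs'⟩ := D'.strict ε hε
    refine ⟨min δ δ', by positivity, fun X Y hX hY => ?_⟩
    rw [lt_min_iff] at hX hY
    obtain ⟨W, hW, hW2⟩ := hs X.1 Y.1 ((norm_fst_le _).trans_lt hX.1)
      ((norm_fst_le _).trans_lt hY.1)
    obtain ⟨W', hW', hW2'⟩ := hs' X.2 Y.2 ((norm_snd_le _).trans_lt hX.2)
      ((norm_snd_le _).trans_lt hY.2)
    refine ⟨(W, W'), Prod.ext hW hW', ?_⟩
    rw [norm_prod_le_iff]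
    exact ⟨hW2.trans (mul_le_mul_of_nonneg_left (norm_fst_le (Y - X)) hε.le),
      hW2'.trans (mul_le_mul_of_nonneg_left (norm_snd_le (Y - X)) hε.le)⟩

/-- A continuous homomorphism has a linear derivative. -/
theorem exists_deriv [FiniteDimensional ℝ E] [FiniteDimensional ℝ E'] [IsTopologicalGroup H']
    (f : H →* H') (hf : Continuous f) :
    ∃ L : E →L[ℝ] E', ∀ X, f (D.exp X) = D'.exp (L X) := by
  have := D'.t2Space
  have hcl : IsClosed ((f.graph : Subgroup (H × H')) : Set (H × H')) := by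
    have : ((f.graph : Subgroup (H × H')) : Set (H × H')) = {x | f x.1 = x.2} := by
      ext x
      simp
    rw [this]
    exact isClosed_eq (hf.comp continuous_fst) continuous_snd
  set Γ := (D.prod D').lie f.graph hcl with hΓ
  have hmem : ∀ Z : E × E', Z ∈ Γ ↔ ∀ t : ℝ, f (D.exp (t • Z.1)) = D'.exp (t • Z.2) := by
    intro Z
    rw [hΓ, mem_lie]
    rfl
  let a : Γ →ₗ[ℝ] E := LinearMap.fst ℝ E E' ∘ₗ Γ.subtype
  have hinj : Function.Injective a := by
    rw [injective_iff_map_eq_zero]
    rintro ⟨Z, hZ⟩ h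
    have h1 : Z.1 = 0 := h
    have h2 : Z.2 = 0 := by
      apply D'.eq_of_forall_exp_smul
      intro t
      rw [← (hmem Z).1 hZ t, h1, smul_zero, smul_zero, D.exp_zero, D'.exp_zero, map_one]
    exact Subtype.ext (Prod.ext h1 h2)
  have hsurj : Function.Surjective a := by
    obtain ⟨r, hr, h⟩ := (D.prod D').exists_mem_lie_of_exp_mem f.graph hcl
    have h1 : (fun X => f (D.exp X)) ⁻¹' (D'.exp '' Metric.ball 0 r) ∈ 𝓝 (0 : E) := by
      refine (hf.comp D.continuous_exp).continuousAt.preimage_mem_nhds ?_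
      simpa [D.exp_zero] using D'.image_ball_mem_nhds hr
    have h2 : (LinearMap.range a : Set E) ∈ 𝓝 (0 : E) := by
      refine mem_of_superset (inter_mem h1 (Metric.ball_mem_nhds 0 hr)) ?_
      rintro X ⟨⟨Y, hY, hXY⟩, hX⟩
      rw [mem_ball_zero_iff] at hX hY
      have h3 : (X, Y) ∈ Γ := h (X, Y) (by rw [Prod.norm_def]; exact max_lt hX hY) hXY.symm
      exact ⟨⟨(X, Y), h3⟩, rfl⟩
    rw [← LinearMap.range_eq_top]
    exact Submodule.eq_top_of_nonempty_interior' _ ⟨0, mem_interior_iff_mem_nhds.mpr h2⟩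
  let e : Γ ≃ₗ[ℝ] E := LinearEquiv.ofBijective a ⟨hinj, hsurj⟩
  refine ⟨(LinearMap.snd ℝ E E' ∘ₗ Γ.subtype ∘ₗ e.symm.toLinearMap).toContinuousLinearMap,
    fun X => ?_⟩
  have h1 := (hmem _).1 (e.symm X).2 1
  have h2 : ((e.symm X : Γ) : E × E').1 = X := e.apply_symm_apply X
  rw [one_smul, one_smul, h2] at h1
  exact h1

end prod

/-- The exponential map of a finite product. -/
def pi {ι : Type} [Fintype ι] {E H : ι → Type} [∀ i, NormedAddCommGroup (E i)]
    [∀ i, NormedSpace ℝ (E i)] [∀ i, Group (H i)] [∀ i, TopologicalSpace (H i)]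
    (D : ∀ i, ExpData (E i) (H i)) : ExpData (∀ i, E i) (∀ i, H i) where
  exp X i := (D i).exp (X i)
  continuous_exp := continuous_pi fun i => (D i).continuous_exp.comp (continuous_apply i)
  exp_add_smul X s t := funext fun i => (D i).exp_add_smul (X i) s t
  eq_zero_of_exp := by
    choose r hr h using fun i => (D i).eq_zero_of_exp
    obtain ⟨ρ, hρ, hρ'⟩ := Pi.exists_forall_pos_add_lt (x := fun _ : ι => (0 : ℝ)) (y := r) hr
    refine ⟨ρ, hρ, fun W hW h1 => funext fun i => h i _ ?_ (congrFun h1 i)⟩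
    have := hρ' i
    have := norm_le_pi_norm W i
    linarith
  nhds_le := by
    intro U hU
    rw [mem_map, Metric.mem_nhds_iff] at hU
    obtain ⟨ε, hε, hU⟩ := hU
    have h1 : (Set.pi univ fun i => (D i).exp '' Metric.ball 0 ε) ∈ 𝓝 (1 : ∀ i, H i) :=
      set_pi_mem_nhds finite_univ fun i _ => (D i).image_ball_mem_nhds hε
    refine mem_of_superset h1 fun h hh => ?_
    choose X hX hXh using fun i => hh i (mem_univ i)
    have h2 : X ∈ Metric.ball (0 : ∀ i, E i) ε := by
      rw [mem_ball_zero_iff, pi_norm_lt_iff hε]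
      exact fun i => mem_ball_zero_iff.mp (hX i)
    have h3 := hU h2
    rw [mem_preimage] at h3
    convert h3 using 1
    exact (funext hXh).symm
  strict := by
    intro ε hε
    choose δ hδ h using fun i => (D i).strict ε hε
    obtain ⟨ρ, hρ, hρ'⟩ := Pi.exists_forall_pos_add_lt (x := fun _ : ι => (0 : ℝ)) (y := δ) hδ
    refine ⟨ρ, hρ, fun X Y hX hY => ?_⟩
    have key : ∀ (Z : ∀ i, E i), ‖Z‖ < ρ → ∀ i, ‖Z i‖ < δ i := fun Z hZ i => by
      have := hρ' i
      have := norm_le_pi_norm Z i
      linarith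
    choose W hW hW' using fun i => h i (X i) (Y i) (key X hX i) (key Y hY i)
    refine ⟨W, funext hW, ?_⟩
    rw [pi_norm_le_iff_of_nonneg (by positivity)]
    intro i
    exact (hW' i).trans (mul_le_mul_of_nonneg_left (norm_le_pi_norm (Y - X) i) hε.le)

/-- A connected group is generated by the image of the exponential map. -/
theorem closure_range_exp [IsTopologicalGroup H] [PreconnectedSpace H] :
    Subgroup.closure (range D.exp) = ⊤ := by
  have h1 : IsOpen ((Subgroup.closure (range D.exp) : Subgroup H) : Set H) :=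
    Subgroup.isOpen_of_mem_nhds _ (g := 1) (mem_of_superset (D.image_ball_mem_nhds one_pos)
      ((image_subset_range _ _).trans Subgroup.subset_closure))
  have h2 := Subgroup.isClosed_of_isOpen _ h1
  have h3 := IsClopen.eq_univ ⟨h2, h1⟩ ⟨1, Subgroup.one_mem _⟩
  exact Subgroup.coe_eq_univ.mp h3

theorem induction_on [IsTopologicalGroup H] [PreconnectedSpace H] {P : H → Prop}
    (hexp : ∀ X, P (D.exp X)) (hmul : ∀ x y, P x → P y → P (x * y)) (h : H) : P h := by
  have hh : h ∈ Subgroup.closure (range D.exp) := by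
    rw [D.closure_range_exp]
    trivial
  induction hh using Subgroup.closure_induction'' with
  | mem x hx =>
    obtain ⟨X, rfl⟩ := hx
    exact hexp X
  | inv_mem x hx =>
    obtain ⟨X, rfl⟩ := hx
    rw [← D.exp_neg]
    exact hexp _
  | one =>
    rw [← D.exp_zero]
    exact hexp _
  | mul x y _ _ hx hy => exact hmul x y hx hy

end ExpData

section units

variable (A : Type) [NormedRing A] [NormedAlgebra ℝ A] [CompleteSpace A]

theorem exp_add_smul_real (a : A) (s t : ℝ) :
    NormedSpace.exp ((s + t) • a) = NormedSpace.exp (s • a) * NormedSpace.exp (t • a) := by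
  let : NormedAlgebra ℚ A := NormedAlgebra.restrictScalars ℚ ℝ A
  rw [add_smul]
  exact NormedSpace.exp_add_of_commute ((Commute.refl a).smul_left s |>.smul_right t)

variable {A} in
theorem exp_mul_exp_neg (a : A) : NormedSpace.exp a * NormedSpace.exp (-a) = 1 := by
  have := exp_add_smul_real A a 1 (-1)
  simpa using this.symm

variable {A} in
theorem exp_neg_mul_exp (a : A) : NormedSpace.exp (-a) * NormedSpace.exp a = 1 := by
  simpa using exp_mul_exp_neg (-a)

variable {A} in
theorem continuous_exp_real : Continuous (NormedSpace.exp : A → A) := by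
  let : NormedAlgebra ℚ A := NormedAlgebra.restrictScalars ℚ ℝ A
  exact NormedSpace.exp_continuous

/-- The exponential map of the unit group of a Banach algebra. -/
noncomputable def unitsData : ExpData A Aˣ where
  exp a := ⟨NormedSpace.exp a, NormedSpace.exp (-a), exp_mul_exp_neg a, exp_neg_mul_exp a⟩
  continuous_exp := Units.continuous_iff.mpr
    ⟨continuous_exp_real, continuous_exp_real.comp continuous_neg⟩
  exp_add_smul a s t := Units.ext (exp_add_smul_real A a s t)
  eq_zero_of_exp := by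
    have h : HasStrictFDerivAt (NormedSpace.exp : A → A)
        ((ContinuousLinearEquiv.refl ℝ A : A ≃L[ℝ] A) : A →L[ℝ] A) 0 :=
      hasStrictFDerivAt_exp_zero
    obtain ⟨r, hr, h2⟩ := Metric.eventually_nhds_iff_ball.mp h.eventually_left_inverse
    refine ⟨r, hr, fun W hW h1 => ?_⟩
    have h3 := h2 W (mem_ball_zero_iff.mpr hW)
    have h4 := h2 0 (Metric.mem_ball_self hr)
    have h5 : NormedSpace.exp W = 1 := congrArg Units.val h1
    rw [h5] at h3
    rw [NormedSpace.exp_zero] at h4
    exact h3.symm.trans h4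
  nhds_le := by
    have h : HasStrictFDerivAt (NormedSpace.exp : A → A)
        ((ContinuousLinearEquiv.refl ℝ A : A ≃L[ℝ] A) : A →L[ℝ] A) 0 :=
      hasStrictFDerivAt_exp_zero
    have h1 := h.map_nhds_eq_of_equiv
    rw [NormedSpace.exp_zero] at h1
    rw [Units.isOpenEmbedding_val.isInducing.nhds_eq_comap, Units.val_one, ← h1]
    intro U hU
    rw [mem_map] at hU
    refine mem_comap.mpr ⟨_, image_mem_map hU, ?_⟩
    rintro u ⟨a, ha, hau⟩
    rw [mem_preimage] at ha
    convert ha using 1
    exact Units.ext hau.symm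
  strict := by
    intro ε hε
    have h : HasStrictFDerivAt (NormedSpace.exp : A → A)
        ((ContinuousLinearEquiv.refl ℝ A : A ≃L[ℝ] A) : A →L[ℝ] A) 0 :=
      hasStrictFDerivAt_exp_zero
    set g := h.localInverse _ _ _ with hg
    have hg1 : HasStrictFDerivAt g
        ((ContinuousLinearEquiv.refl ℝ A : A ≃L[ℝ] A).symm : A →L[ℝ] A) (NormedSpace.exp 0) :=
      h.to_localInverse
    have h0 : HasStrictFDerivAt (NormedSpace.exp : A → A) (1 : A →L[ℝ] A) 0 :=
      hasStrictFDerivAt_exp_zero
    have hm : HasStrictFDerivAt (fun p : A × A => NormedSpace.exp (-p.1) * NormedSpace.exp p.2)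
        (ContinuousLinearMap.snd ℝ A A - ContinuousLinearMap.fst ℝ A A) (0, 0) := by
      have h1 : HasStrictFDerivAt (fun p : A × A => NormedSpace.exp (-p.1))
          ((1 : A →L[ℝ] A).comp (-ContinuousLinearMap.fst ℝ A A)) (0, 0) :=
        HasStrictFDerivAt.comp (g := NormedSpace.exp) (f := fun p : A × A => -p.1) (0, 0)
          (by simpa using h0) hasStrictFDerivAt_fst.neg
      have h2 : HasStrictFDerivAt (fun p : A × A => NormedSpace.exp p.2)
          ((1 : A →L[ℝ] A).comp (ContinuousLinearMap.snd ℝ A A)) (0, 0) :=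
        HasStrictFDerivAt.comp (g := NormedSpace.exp) (f := fun p : A × A => p.2) (0, 0)
          h0 hasStrictFDerivAt_snd
      refine (h1.mul' h2).congr_fderiv ?_
      ext x <;> simp
    have hμ : HasStrictFDerivAt
        (fun p : A × A => g (NormedSpace.exp (-p.1) * NormedSpace.exp p.2))
        (ContinuousLinearMap.snd ℝ A A - ContinuousLinearMap.fst ℝ A A) (0, 0) := by
      have := HasStrictFDerivAt.comp (g := g)
        (f := fun p : A × A => NormedSpace.exp (-p.1) * NormedSpace.exp p.2) (0, 0)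
        (by simpa using hg1) hm
      simpa using this
    have e1 := (hμ.isLittleO.def hε)
    have e2 : ∀ᶠ p : A × A in 𝓝 (0, 0), NormedSpace.exp
        (g (NormedSpace.exp (-p.1) * NormedSpace.exp p.2)) =
        NormedSpace.exp (-p.1) * NormedSpace.exp p.2 := by
      have h3 := hm.continuousAt.tendsto
      simp only [neg_zero, NormedSpace.exp_zero, mul_one] at h3
      have h4 := h.eventually_right_inverse
      rw [NormedSpace.exp_zero] at h4
      exact h3.eventually h4
    have hg0 : g 1 = 0 := by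
      have := h.localInverse_apply_image
      rwa [NormedSpace.exp_zero] at this
    obtain ⟨δ1, hδ1, e1⟩ := Metric.eventually_nhds_iff_ball.mp e1
    obtain ⟨δ2, hδ2, e2⟩ := Metric.eventually_nhds_iff_ball.mp e2
    refine ⟨min δ1 δ2, by positivity, fun X Y hX hY => ?_⟩
    rw [lt_min_iff] at hX hY
    refine ⟨g (NormedSpace.exp (-X) * NormedSpace.exp Y), Units.ext (e2 (X, Y) ?_), ?_⟩
    · rw [Prod.mk_zero_zero, mem_ball_zero_iff, Prod.norm_def]
      exact max_lt hX.2 hY.2
    · have := e1 ((X, Y), (X, X)) (by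
        rw [Prod.mk_zero_zero, Prod.mk_zero_zero, mem_ball_zero_iff, Prod.norm_def,
          Prod.norm_def, Prod.norm_def]
        exact max_lt (max_lt hX.1 hY.1) (max_lt hX.1 hX.1))
      simpa [exp_neg_mul_exp, hg0, Prod.norm_def] using this

@[simp] theorem unitsData_exp_coe (a : A) : ((unitsData A).exp a : A) = NormedSpace.exp a := rfl

variable {A}

/-- A continuous representation has a linear derivative. -/
theorem ExpData.exists_deriv_alg {E H : Type} [NormedAddCommGroup E] [NormedSpace ℝ E]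
    [Group H] [TopologicalSpace H] [IsTopologicalGroup H] (D : ExpData E H)
    [FiniteDimensional ℝ E] [FiniteDimensional ℝ A] (f : H →* A) (hf : Continuous f) :
    ∃ L : E →L[ℝ] A, ∀ X, f (D.exp X) = NormedSpace.exp (L X) := by
  have hc : Continuous f.toHomUnits :=
    Units.continuous_iff.mpr ⟨hf, hf.comp continuous_inv⟩
  obtain ⟨L, hL⟩ := D.exists_deriv (unitsData A) f.toHomUnits hc
  exact ⟨L, fun X => congrArg Units.val (hL X)⟩

theorem eq_of_forall_exp_smul_alg {a b : A}
    (h : ∀ t : ℝ, NormedSpace.exp (t • a) = NormedSpace.exp (t • b)) : a = b :=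
  (unitsData A).eq_of_forall_exp_smul fun t => Units.ext (h t)

end units

end Pool.Agent.P.MP_7895ba_al
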