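import Mathlib

/-! Abstract interface for a finite-dimensional real Lie group: an exponential map. -/

open Topology Filter

namespace Pool.Agent.P.MP_7895ba_al

/-- The data of an exponential map on a topological group `H`, modelled on `E`. -/
structure ExpData (E H : Type) [NormedAddCommGroup E] [NormedSpace ℝ E]
    [Group H] [TopologicalSpace H] where
  exp : E → H
  continuous_exp : Continuous exp
  exp_add_smul : ∀ (X : E) (s t : ℝ), exp ((s + t) • X) = exp (s • X) * exp (t • X)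
  eq_zero_of_exp : ∃ r > (0 : ℝ), ∀ W : E, ‖W‖ < r → exp W = 1 → W = 0
  nhds_le : 𝓝 (1 : H) ≤ map exp (𝓝 0)
  strict : ∀ ε > (0 : ℝ), ∃ δ > (0 : ℝ), ∀ X Y : E, ‖X‖ < δ → ‖Y‖ < δ →
    ∃ W : E, exp W = (exp X)⁻¹ * exp Y ∧ ‖W - (Y - X)‖ ≤ ε * ‖Y - X‖

end Pool.Agent.P.MP_7895ba_al
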