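import Pool.Agent.P.MP_7895ba_al.Thread

/-! Completeness of the component quotient. -/

open Topology Filter Set

namespace Pool.Agent.P.MP_7895ba_al

variable {ι : Type} {H : ι → Type} [∀ i, TopologicalSpace (H i)] [∀ i, Group (H i)]

/-- Projection to a finite subproduct. -/
def proj (F : Finset ι) : (∀ i, H i) →* (∀ i : F, H i) where
  toFun x i := x i
  map_one' := rfl
  map_mul' _ _ := rfl

theorem continuous_proj (F : Finset ι) : Continuous (proj (H := H) F) :=
  continuous_pi fun i => continuous_apply i.1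

/-- The inverse system of finite subproducts. -/
def finSys : InvSys (Finset ι) (fun F => ∀ i : F, H i) where
  p h :=
    { toFun := fun x i => x ⟨i.1, h i.2⟩
      map_one' := rfl
      map_mul' := fun _ _ => rfl }
  cont _ := continuous_pi fun _ => continuous_apply _
  refl _ _ := rfl
  trans _ _ _ := rfl

theorem exists_proj_nhds {x : ∀ i, H i} {U : Set (∀ i, H i)} (hU : U ∈ 𝓝 x) :
    ∃ F : Finset ι, ∃ V ∈ 𝓝 (proj F x), proj F ⁻¹' V ⊆ U := by
  rw [nhds_pi, mem_pi'] at hU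
  obtain ⟨F, t, ht, hU⟩ := hU
  refine ⟨F, Set.pi univ fun i : F => t i, set_pi_mem_nhds finite_univ fun i _ => ht i, ?_⟩
  intro y hy
  exact hU fun i hi => hy ⟨i, hi⟩ (mem_univ _)

theorem complete_quotient {E : ι → Type} [∀ i, NormedAddCommGroup (E i)]
    [∀ i, NormedSpace ℝ (E i)] [∀ i, FiniteDimensional ℝ (E i)]
    [∀ i, IsTopologicalGroup (H i)] (D : ∀ i, ExpData (E i) (H i))
    (G : Subgroup (∀ i, H i)) [(Subgroup.connectedComponentOfOne G).Normal]
    (hG : IsClosed (G : Set (∀ i, H i))) (𝓕 : Filter (G ⧸ Subgroup.connectedComponentOfOne G))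
    [𝓕.NeBot]
    (hc : ∀ U ∈ 𝓝 (1 : G ⧸ Subgroup.connectedComponentOfOne G),
      ∃ A ∈ 𝓕, ∀ x ∈ A, ∀ y ∈ A, x⁻¹ * y ∈ U) :
    ∃ q : G ⧸ Subgroup.connectedComponentOfOne G, 𝓕 ≤ 𝓝 q := by
  classical
  let G₀ := Subgroup.connectedComponentOfOne G
  let π : G →* G ⧸ G₀ := QuotientGroup.mk' G₀
  have hπo : IsOpenMap π := QuotientGroup.isOpenMap_coe
  have hπs : Function.Surjective π := QuotientGroup.mk'_surjective _
  let DF : ∀ F : Finset ι, ExpData (∀ i : F, E i) (∀ i : F, H i) := fun F =>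
    ExpData.pi fun i : F => D i
  let r : ∀ F : Finset ι, G →* (∀ i : F, H i) := fun F => (proj F).comp G.subtype
  have hr : ∀ F, Continuous (r F) := fun F => (continuous_proj F).comp continuous_subtype_val
  -- small sets of the filter
  have small : ∀ (F : Finset ι), ∀ V ∈ 𝓝 (1 : ∀ i : F, H i), ∃ A ∈ 𝓕, ∀ a b : G,
      π a ∈ A → π b ∈ A → ∃ g ∈ G₀, r F (a⁻¹ * b * g) ∈ V := by
    intro F V hV
    have h1 : r F ⁻¹' V ∈ 𝓝 (1 : G) :=
      (hr F).continuousAt.preimage_mem_nhds (by simpa using hV)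
    obtain ⟨A, hA, h2⟩ := hc _ (by simpa using hπo.image_mem_nhds h1)
    refine ⟨A, hA, fun a b ha hb => ?_⟩
    obtain ⟨v, hv, h3⟩ := h2 _ ha _ hb
    rw [← map_inv, ← map_mul] at h3
    exact ⟨_, QuotientGroup.eq.mp h3.symm, by rwa [mul_inv_cancel_left]⟩
  let C : ∀ F : Finset ι, Set (∀ i : F, H i) := fun F => ⋂ A ∈ 𝓕, closure (r F '' (π ⁻¹' A))
  have hCne : ∀ F, (C F).Nonempty := by
    intro F
    have := (DF F).locallyCompactSpace
    obtain ⟨V, hVc, hV⟩ := exists_compact_mem_nhds (1 : ∀ i : F, H i)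
    obtain ⟨A₀, hA₀, h0⟩ := small F V hV
    obtain ⟨q₀, hq₀⟩ := Filter.nonempty_of_mem hA₀
    obtain ⟨a₀, rfl⟩ := hπs q₀
    have hK : IsCompact ((fun x => r F a₀ * x) '' V) := hVc.image (by fun_prop)
    obtain ⟨x, -, hx⟩ := hK.inter_iInter_nonempty
      (fun A : 𝓕.sets => closure (r F '' (π ⁻¹' A.1))) (fun _ => isClosed_closure) (fun u => by
        have h1 : A₀ ∩ ⋂ A ∈ u, A.1 ∈ 𝓕 :=
          inter_mem hA₀ ((biInter_finset_mem u).mpr fun A _ => A.2)
        obtain ⟨q, hq1, hq2⟩ := Filter.nonempty_of_mem h1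
        obtain ⟨b, rfl⟩ := hπs q
        obtain ⟨g, hg, h2⟩ := h0 a₀ b hq₀ hq1
        refine ⟨r F (b * g), ⟨_, h2, by simp [mul_assoc]⟩, mem_iInter₂.mpr fun A hA =>
          subset_closure ⟨b * g, ?_, rfl⟩⟩
        have h3 : π (b * g) = π b := by
          rw [map_mul, show π g = 1 from (QuotientGroup.eq_one_iff g).mpr hg, mul_one]
        rw [mem_preimage, h3]
        exact mem_iInter₂.mp hq2 A hA)
    exact ⟨x, mem_iInter₂.mpr fun A hA => mem_iInter.mp hx ⟨A, hA⟩⟩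
  have hsys : (finSys (H := H)).Sys C := by
    refine ⟨fun F => ?_, fun F F' h x hx => mem_iInter₂.mpr fun A hA => ?_⟩
    · obtain ⟨c, hcC⟩ := hCne F
      refine ⟨c, (G₀.map (r F)).topologicalClosure, Subgroup.isClosed_topologicalClosure _,
        (isPreconnected_connectedComponent.image _ (hr F).continuousOn).closure,
        fun x => ⟨fun hx => ?_, fun hx => mem_iInter₂.mpr fun A hA => ?_⟩⟩
      · change c⁻¹ * x ∈ closure _
        rw [mem_closure_iff_nhds]
        intro W hW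
        -- `(a, b, v) ↦ a⁻¹ * b * (...)`
        have hcont : Continuous fun t : (∀ i : F, H i) × (∀ i : F, H i) × (∀ i : F, H i) =>
            t.2.2⁻¹ * (t.1⁻¹ * t.2.1) := by fun_prop
        have h1 := hcont.continuousAt.preimage_mem_nhds (x := (c, x, 1)) (t := W)
          (by simpa using hW)
        rw [nhds_prod_eq, nhds_prod_eq, mem_prod_iff] at h1
        obtain ⟨U₁, hU₁, U', hU', h2⟩ := h1
        obtain ⟨U₂, hU₂, V, hV, h3⟩ := mem_prod_iff.mp hU'
        obtain ⟨A, hA, h4⟩ := small F V hV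
        obtain ⟨_, ha1, a, ha, rfl⟩ :=
          mem_closure_iff_nhds.mp (mem_iInter₂.mp hcC A hA) U₁ hU₁
        obtain ⟨_, hb1, b, hb, rfl⟩ :=
          mem_closure_iff_nhds.mp (mem_iInter₂.mp hx A hA) U₂ hU₂
        obtain ⟨g, hg, h5⟩ := h4 a b ha hb
        refine ⟨_, h2 (mk_mem_prod ha1 (h3 (mk_mem_prod hb1 h5))), g⁻¹, G₀.inv_mem hg, ?_⟩
        simp [mul_assoc]
      · have := map_mem_closure₂ (f := fun x y : (∀ i : F, H i) => x * y)
          (u := r F '' (π ⁻¹' A)) continuous_mul (mem_iInter₂.mp hcC A hA) hx (by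
            rintro _ ⟨a, ha, rfl⟩ _ ⟨g, hg, rfl⟩
            refine ⟨a * g, ?_, map_mul _ _ _⟩
            rw [mem_preimage, map_mul, show π g = 1 from (QuotientGroup.eq_one_iff g).mpr hg,
              mul_one]
            exact ha)
        simpa using this
    · refine map_mem_closure ((finSys (H := H)).cont h) (mem_iInter₂.mp hx A hA) ?_
      rintro _ ⟨a, ha, rfl⟩
      exact ⟨a, ha, rfl⟩
  obtain ⟨x, hxC, hx⟩ := (finSys (H := H)).exists_thread DF hsys
  let g : ∀ i, H i := fun i => x {i} ⟨i, Finset.mem_singleton_self i⟩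
  have hg : ∀ F, proj F g = x F := fun F => funext fun i => by
    have := congrFun (hx {i.1} F (Finset.singleton_subset_iff.mpr i.2))
      ⟨i.1, Finset.mem_singleton_self _⟩
    exact this.symm
  have hgG : g ∈ G := by
    rw [← SetLike.mem_coe, ← hG.closure_eq, mem_closure_iff_nhds]
    intro U hU
    obtain ⟨F, V, hV, hVU⟩ := exists_proj_nhds hU
    rw [hg] at hV
    obtain ⟨_, h1, a, -, rfl⟩ :=
      mem_closure_iff_nhds.mp (mem_iInter₂.mp (hxC F) univ univ_mem) V hV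
    exact ⟨a, hVU h1, a.2⟩
  refine ⟨π ⟨g, hgG⟩, fun W hW => ?_⟩
  have h1 : π ⁻¹' W ∈ 𝓝 (⟨g, hgG⟩ : G) :=
    QuotientGroup.continuous_mk.continuousAt.preimage_mem_nhds hW
  rw [nhds_subtype_eq_comap, mem_comap] at h1
  obtain ⟨U, hU, hUW⟩ := h1
  obtain ⟨F, V, hV, hVU⟩ := exists_proj_nhds hU
  have h2 := (continuous_mul (M := ∀ i : F, H i)).continuousAt.preimage_mem_nhds
    (x := (x F, 1)) (t := V) (by simpa [hg] using hV)
  rw [nhds_prod_eq, mem_prod_iff] at h2
  obtain ⟨V₁, hV₁, V₂, hV₂, h3⟩ := h2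
  obtain ⟨A, hA, h4⟩ := small F V₂ hV₂
  obtain ⟨_, ha1, a, ha, rfl⟩ := mem_closure_iff_nhds.mp (mem_iInter₂.mp (hxC F) A hA) V₁ hV₁
  refine mem_of_superset hA fun q hq => ?_
  obtain ⟨b, rfl⟩ := hπs q
  obtain ⟨k, hk, h5⟩ := h4 a b ha hq
  have h6 : r F (b * k) ∈ V := by
    have := h3 (mk_mem_prod ha1 h5)
    simpa [mul_assoc] using this
  have h7 : π (b * k) ∈ W := hUW (hVU h6)
  rwa [map_mul, show π k = 1 from (QuotientGroup.eq_one_iff k).mpr hk, mul_one] at h7

end Pool.Agent.P.MP_7895ba_al
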