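import Mathlib

/-! Weyl's lemma: a connected locally compact group with a discrete cocompact normal subgroup and
no nontrivial continuous homomorphism to the reals is compact. -/

open Topology Filter Set MeasureTheory
open scoped Pointwise

namespace Pool.Agent.P.MP_7895ba_al

section Weyl

variable {L : Type} [Group L] [TopologicalSpace L] [IsTopologicalGroup L]

theorem weyl_central [ConnectedSpace L] (Z : Subgroup L) [hN : Z.Normal] [DiscreteTopology Z]
    (z : L) (hz : z ∈ Z) (x : L) : x * z = z * x := by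
  let F : L → Z := fun x => ⟨x * z * x⁻¹, hN.conj_mem z hz x⟩
  have hF : Continuous F := Continuous.subtype_mk (by fun_prop) _
  have h1 : F x = F 1 := (IsLocallyConstant.iff_continuous F).2 hF |>.apply_eq_of_preconnectedSpace x 1
  have h2 : x * z * x⁻¹ = 1 * z * 1⁻¹ := congrArg Subtype.val h1
  rw [one_mul, inv_one, mul_one, mul_inv_eq_iff_eq_mul] at h2
  exact h2

theorem weyl_finite_inter [T2Space L] (Z : Subgroup L) [DiscreteTopology Z] {K : Set L}
    (hK : IsCompact K) : {z : Z | (z : L) ∈ K}.Finite := by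
  have h := Z.tendsto_coe_cofinite_of_discrete (isDiscrete_iff_discreteTopology.2 inferInstance)
  have h2 := h hK.compl_mem_cocompact
  rw [mem_map, mem_cofinite] at h2
  have h3 : (Subtype.val ⁻¹' K : Set Z).Finite := by simpa using h2
  exact h3

theorem weyl_fg [T2Space L] [LocallyCompactSpace L] [ConnectedSpace L] (Z : Subgroup L)
    [DiscreteTopology Z] (Q : Set L) (hQ : IsCompact Q)
    (hQZ : ∀ x : L, ∃ q ∈ Q, ∃ z ∈ Z, x = q * z) : Group.FG Z := by
  obtain ⟨K, hK, hQK⟩ := exists_compact_superset hQ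
  have hfin := weyl_finite_inter Z (hK.inv.mul hK)
  set S : Set Z := {z : Z | (z : L) ∈ K⁻¹ * K} with hS
  set Z' : Subgroup Z := Subgroup.closure S with hZ'
  let A : Set L := ⋃ z ∈ {z : Z | z ∈ Z'}, (fun x => x * (z : L)⁻¹) ⁻¹' interior K
  let B : Set L := ⋃ z ∈ {z : Z | z ∉ Z'}, (fun x => x * (z : L)⁻¹) ⁻¹' interior K
  have hA : IsOpen A := isOpen_biUnion fun z _ => isOpen_interior.preimage (by fun_prop)
  have hB : IsOpen B := isOpen_biUnion fun z _ => isOpen_interior.preimage (by fun_prop)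
  have hcov : (univ : Set L) ⊆ A ∪ B := by
    intro x _
    obtain ⟨q, hq, z, hz, rfl⟩ := hQZ x
    by_cases h : (⟨z, hz⟩ : Z) ∈ Z'
    · left
      exact mem_biUnion (x := (⟨z, hz⟩ : Z)) h (by simpa using hQK hq)
    · right
      exact mem_biUnion (x := (⟨z, hz⟩ : Z)) h (by simpa using hQK hq)
  obtain ⟨q, hq, -⟩ := hQZ 1
  have hAne : (univ ∩ A).Nonempty :=
    ⟨q, mem_univ _, mem_biUnion (x := (1 : Z)) Z'.one_mem (by simpa using hQK hq)⟩
  have htop : Z' = ⊤ := by
    rw [eq_top_iff]
    intro w _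
    by_contra hw
    have hBne : (univ ∩ B).Nonempty :=
      ⟨q * w, mem_univ _, mem_biUnion (x := w) hw (by simpa using hQK hq)⟩
    obtain ⟨x, -, hxA, hxB⟩ := isPreconnected_univ A B hA hB hcov hAne hBne
    simp only [A, B, mem_iUnion, mem_ofPred_eq, mem_preimage, exists_prop] at hxA hxB
    obtain ⟨z₁, h₁, h₁'⟩ := hxA
    obtain ⟨z₂, h₂, h₂'⟩ := hxB
    apply h₂
    have : z₂ * z₁⁻¹ ∈ Z' := by
      refine Subgroup.subset_closure ?_
      refine ⟨(x * (z₂ : L)⁻¹)⁻¹, by simpa using interior_subset h₂', x * (z₁ : L)⁻¹,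
        interior_subset h₁', ?_⟩
      simp [mul_assoc]
    simpa using Z'.mul_mem this h₁
  exact ⟨(Subgroup.fg_iff _).2 ⟨S, htop, hfin⟩⟩

/-- A continuous function extending a homomorphism of `Z` equivariantly. -/
theorem weyl_exists_fun [T2Space L] [LocallyCompactSpace L] (Z : Subgroup L)
    [DiscreteTopology Z] (Q : Set L) (hQ : IsCompact Q)
    (hQZ : ∀ x : L, ∃ q ∈ Q, ∃ z ∈ Z, x = q * z) (φ : Z → ℝ)
    (hφ : ∀ a b, φ (a * b) = φ a + φ b) :
    ∃ f : L → ℝ, Continuous f ∧ ∀ (x : L) (z : Z), f (x * z) = f x + φ z := by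
  obtain ⟨h, h1, -, hc, h01⟩ :=
    exists_continuous_one_zero_of_isCompact hQ isClosed_empty (disjoint_empty Q)
  have hlf : LocallyFinite fun z : Z => Function.support fun x : L => h (x * z) := by
    intro x
    obtain ⟨N, hN, hxN⟩ := exists_compact_mem_nhds x
    refine ⟨N, hxN, (weyl_finite_inter Z (hN.inv.mul hc.isCompact)).subset ?_⟩
    rintro z ⟨y, hy1, hy2⟩
    exact ⟨y⁻¹, by simpa using hy2, y * z, subset_tsupport _ hy1, by simp⟩
  have hfin : ∀ x : L, (Function.support fun z : Z => h (x * z)).Finite := fun x =>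
    hlf.point_finite x
  have hlf2 : LocallyFinite fun z : Z => Function.support fun x : L => h (x * z) * φ z :=
    hlf.subset fun z => Function.support_mul_subset_left _ _
  have hfin2 : ∀ x : L, (Function.support fun z : Z => h (x * z) * φ z).Finite := fun x =>
    hlf2.point_finite x
  let H : L → ℝ := fun x => ∑ᶠ z : Z, h (x * z)
  let G : L → ℝ := fun x => ∑ᶠ z : Z, h (x * z) * φ z
  have hH : Continuous H := continuous_finsum (fun z => by fun_prop) hlf
  have hG : Continuous G := continuous_finsum (fun z => by fun_prop) hlf2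
  have hpos : ∀ x, 0 < H x := by
    intro x
    obtain ⟨q, hq, z, hz, rfl⟩ := hQZ x
    have := single_le_finsum (f := fun w : Z => h (q * z * w)) (⟨z, hz⟩ : Z)⁻¹ (hfin _)
      (fun w => (h01 _).1)
    have h2 : h (q * z * ((⟨z, hz⟩ : Z)⁻¹ : Z)) = 1 := by simpa using h1 hq
    rw [h2] at this
    exact lt_of_lt_of_le one_pos this
  have hHz : ∀ (x : L) (z : Z), H (x * z) = H x := by
    intro x z
    simp only [H]
    rw [← finsum_comp_equiv (Equiv.mulLeft z) (f := fun w : Z => h (x * w))]
    simp [mul_assoc]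
  have hGz : ∀ (x : L) (z : Z), G x = G (x * z) + φ z * H x := by
    intro x z
    rw [← hHz x z]
    simp only [G, H]
    rw [← finsum_comp_equiv (Equiv.mulLeft z) (f := fun w : Z => h (x * w) * φ w),
      mul_finsum' _ _ (hfin _), ← finsum_add_distrib (hfin2 _)
        ((hfin _).subset (Function.support_mul_subset_right _ _))]
    refine finsum_congr fun w => ?_
    simp only [Equiv.coe_mulLeft, Subgroup.coe_mul, hφ, mul_assoc]
    ring
  refine ⟨fun x => -G x / H x, hG.neg.div hH fun x => (hpos x).ne', fun x z => ?_⟩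
  simp only
  rw [hHz, hGz x z]
  have := (hpos x).ne'
  field_simp
  ring

theorem weyl_hom_zero [T2Space L] [LocallyCompactSpace L] [ConnectedSpace L] (Z : Subgroup L)
    [Z.Normal] [DiscreteTopology Z] (Q : Set L) (hQ : IsCompact Q)
    (hQZ : ∀ x : L, ∃ q ∈ Q, ∃ z ∈ Z, x = q * z)
    (hR : ∀ χ : L →* Multiplicative ℝ, Continuous χ → χ = 1) (φ : Z → ℝ)
    (hφ : ∀ a b, φ (a * b) = φ a + φ b) (z : Z) : φ z = 0 := by
  obtain ⟨f, hf, hfz⟩ := weyl_exists_fun Z Q hQ hQZ φ hφ
  have : CompactSpace (L ⧸ Z) := by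
    refine ⟨?_⟩
    have h1 : (QuotientGroup.mk : L → L ⧸ Z) '' Q = univ := by
      refine eq_univ_of_forall fun t => ?_
      obtain ⟨x, rfl⟩ := QuotientGroup.mk_surjective t
      obtain ⟨q, hq, w, hw, rfl⟩ := hQZ x
      exact ⟨q, hq, QuotientGroup.eq.2 (by simpa using hw)⟩
    rw [← h1]
    exact hQ.image QuotientGroup.continuous_mk
  let _ : MeasurableSpace (L ⧸ Z) := borel _
  have : BorelSpace (L ⧸ Z) := ⟨rfl⟩
  let μ : Measure (L ⧸ Z) := Measure.haar
  have hμ : 0 < μ.real univ := by
    rw [measureReal_def]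
    exact ENNReal.toReal_pos (isOpen_univ.measure_pos μ univ_nonempty).ne' (measure_ne_top _ _)
  let D : L → L ⧸ Z → ℝ := fun x t => Quotient.liftOn' t (fun y => f (x * y) - f y) (by
    intro a b hab
    rw [QuotientGroup.leftRel_apply] at hab
    have h1 : b = a * ((⟨a⁻¹ * b, hab⟩ : Z) : L) := by simp
    rw [h1, ← mul_assoc, hfz, hfz]; ring)
  have hD : ∀ x y : L, D x (y : L ⧸ Z) = f (x * y) - f y := fun x y => rfl
  have hDc : Continuous (Function.uncurry D) := by
    have hq : IsOpenQuotientMap (Prod.map id QuotientGroup.mk : L × L → L × (L ⧸ Z)) :=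
      IsOpenQuotientMap.id.prodMap QuotientGroup.isOpenQuotientMap_mk
    rw [← hq.continuous_comp_iff]
    change Continuous fun p : L × L => f (p.1 * p.2) - f p.2
    fun_prop
  let D' : C(L, C(L ⧸ Z, ℝ)) := ContinuousMap.curry ⟨Function.uncurry D, hDc⟩
  have hint : ∀ g : C(L ⧸ Z, ℝ), Integrable g μ := fun g =>
    g.continuous.integrable_of_hasCompactSupport (HasCompactSupport.of_compactSpace g)
  have hI : Continuous fun g : C(L ⧸ Z, ℝ) => ∫ t, g t ∂μ := by
    refine (LipschitzWith.of_dist_le_mul (K := ⟨μ.real univ, hμ.le⟩) fun g k => ?_).continuous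
    rw [dist_eq_norm, ← integral_sub (hint g) (hint k), dist_eq_norm]
    refine (norm_integral_le_of_norm_le_const (C := ‖g - k‖)
      (Eventually.of_forall fun t => (g - k).norm_coe_le_norm t)).trans ?_
    rw [mul_comm]; rfl
  let ψ : L → ℝ := fun x => ∫ t, D x t ∂μ
  have hψc : Continuous ψ := hI.comp D'.continuous
  have hψ : ∀ x y, ψ (x * y) = ψ x + ψ y := by
    intro x y
    have h1 : ψ x = ∫ t, D x ((y : L ⧸ Z) * t) ∂μ :=
      (integral_mul_left_eq_self (fun t => D x t) (y : L ⧸ Z)).symm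
    have h2 : Integrable (fun t => D x ((y : L ⧸ Z) * t)) μ := (hint (D' x)).comp_mul_left _
    have h3 : Integrable (fun t => D y t) μ := hint (D' y)
    rw [h1]
    simp only [ψ]
    rw [← integral_add h2 h3]
    refine integral_congr_ae (Eventually.of_forall fun t => ?_)
    obtain ⟨u, rfl⟩ := QuotientGroup.mk_surjective t
    change D (x * y) u = D x ((y : L ⧸ Z) * u) + D y u
    rw [← QuotientGroup.mk_mul, hD, hD, hD, mul_assoc]; ring
  let χ : L →* Multiplicative ℝ := MonoidHom.mk' (fun x => Multiplicative.ofAdd (ψ x))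
    (fun x y => by rw [hψ, ofAdd_add])
  have hχ : χ = 1 := hR χ (continuous_ofAdd.comp hψc)
  have h0 : ψ z = 0 := by
    have := DFunLike.congr_fun hχ (z : L)
    simpa [χ] using this
  have h1 : ψ z = μ.real univ * φ z := by
    rw [← smul_eq_mul, ← integral_const]
    refine integral_congr_ae (Eventually.of_forall fun t => ?_)
    obtain ⟨u, rfl⟩ := QuotientGroup.mk_surjective t
    change D z u = φ z
    rw [hD, ← weyl_central Z z z.2 u, hfz]; ring
  rw [h0] at h1
  exact (mul_eq_zero.1 h1.symm).resolve_left hμ.ne'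

end Weyl

theorem weyl_compact (L : Type) [Group L] [TopologicalSpace L] [IsTopologicalGroup L] [T2Space L]
    [LocallyCompactSpace L] [ConnectedSpace L] (Z : Subgroup L) [Z.Normal] [DiscreteTopology Z]
    (Q : Set L) (hQ : IsCompact Q) (hQZ : ∀ x : L, ∃ q ∈ Q, ∃ z ∈ Z, x = q * z)
    (hR : ∀ χ : L →* Multiplicative ℝ, Continuous χ → χ = 1) : CompactSpace L := by
  have hfg := weyl_fg Z Q hQ hQZ
  let _ : CommGroup Z :=
    { (inferInstance : Group Z) with
      mul_comm := fun a b => Subtype.ext (weyl_central Z b b.2 a) }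
  have htor : IsMulTorsion Z := by
    intro z
    by_contra hz
    have hinj : Function.Injective (zmultiplesHom (Additive Z) (Additive.ofMul z)) := by
      intro a b hab
      exact injective_zpow_iff_not_isOfFinOrder.2 hz hab
    obtain ⟨g, hg⟩ := (Module.Baer.of_divisible ℝ).extension_property_addMonoidHom _ hinj
      (Int.castAddHom ℝ)
    have h1 := weyl_hom_zero Z Q hQ hQZ hR (fun w => g (Additive.ofMul w))
      (fun a b => by rw [ofMul_mul, map_add]) z
    have h2 := DFunLike.congr_fun hg 1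
    simp only [AddMonoidHom.coe_comp, Function.comp_apply, zmultiplesHom_apply, one_smul,
      Int.coe_castAddHom, Int.cast_one] at h2
    rw [h2] at h1
    exact one_ne_zero h1
  have hfin : Finite Z := CommGroup.finite_of_fg_isMulTorsion Z htor
  have hZ : IsCompact (Z : Set L) := (Set.toFinite (Z : Set L)).isCompact
  refine ⟨?_⟩
  have h1 : Q * (Z : Set L) = univ := by
    refine eq_univ_of_forall fun x => ?_
    obtain ⟨q, hq, z, hz, rfl⟩ := hQZ x
    exact ⟨q, hq, z, hz, rfl⟩
  rw [← h1]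
  exact hQ.mul hZ

end Pool.Agent.P.MP_7895ba_al
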