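import Pool.Agent.P.MP_7895ba_al.Constr
import Pool.Agent.P.MP_7895ba_al.Weyl

/-! Group-theoretic consequences of the existence of an exponential map. -/

open Topology Filter Set

namespace Pool.Agent.P.MP_7895ba_al

theorem exists_compact_cover {X Y : Type} [TopologicalSpace X] [WeaklyLocallyCompactSpace X]
    [TopologicalSpace Y] (f : X → Y) (S : Set Y) (hS : IsCompact S)
    (h : ∀ y ∈ S, ∃ x, ∀ U ∈ 𝓝 x, f '' U ∈ 𝓝[S] y) : ∃ Q, IsCompact Q ∧ S ⊆ f '' Q := by
  refine hS.induction_on (p := fun T => ∃ Q, IsCompact Q ∧ T ⊆ f '' Q)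
    ⟨∅, isCompact_empty, empty_subset _⟩ ?_ ?_ ?_
  · rintro s t hst ⟨Q, hQ, h⟩
    exact ⟨Q, hQ, hst.trans h⟩
  · rintro s t ⟨Q, hQ, h⟩ ⟨Q', hQ', h'⟩
    exact ⟨Q ∪ Q', hQ.union hQ', by
      rw [image_union]
      exact union_subset_union h h'⟩
  · intro y hy
    obtain ⟨x, hx⟩ := h y hy
    obtain ⟨Q, hQ, hxQ⟩ := exists_compact_mem_nhds x
    exact ⟨_, hx Q hxQ, Q, hQ, Subset.rfl⟩

section idComp

variable {H : Type} [Group H] [TopologicalSpace H] [IsTopologicalGroup H]

/-- The identity component of a subgroup, as a subgroup of the ambient group. -/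
def idComp (P : Subgroup H) : Subgroup H where
  carrier := connectedComponentIn (P : Set H) 1
  one_mem' := mem_connectedComponentIn P.one_mem
  mul_mem' := by
    intro x y hx hy
    have h1 : IsPreconnected ((fun p : H × H => p.1 * p.2) ''
        (connectedComponentIn (P : Set H) 1 ×ˢ connectedComponentIn (P : Set H) 1)) :=
      (isPreconnected_connectedComponentIn.prod isPreconnected_connectedComponentIn).image _
        (by fun_prop)
    refine h1.subset_connectedComponentIn
      ⟨(1, 1), ⟨mem_connectedComponentIn P.one_mem, mem_connectedComponentIn P.one_mem⟩,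
        mul_one 1⟩ ?_ ⟨(x, y), ⟨hx, hy⟩, rfl⟩
    rintro _ ⟨p, hp, rfl⟩
    exact P.mul_mem (connectedComponentIn_subset _ _ hp.1) (connectedComponentIn_subset _ _ hp.2)
  inv_mem' := by
    intro x hx
    have h1 : IsPreconnected ((fun p : H => p⁻¹) '' connectedComponentIn (P : Set H) 1) :=
      isPreconnected_connectedComponentIn.image _ (by fun_prop)
    refine h1.subset_connectedComponentIn
      ⟨1, mem_connectedComponentIn P.one_mem, inv_one⟩ ?_ ⟨x, hx, rfl⟩
    rintro _ ⟨p, hp, rfl⟩
    exact P.inv_mem (connectedComponentIn_subset _ _ hp)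

theorem idComp_le (P : Subgroup H) : idComp P ≤ P := connectedComponentIn_subset _ _

theorem isPreconnected_idComp (P : Subgroup H) : IsPreconnected (idComp P : Set H) :=
  isPreconnected_connectedComponentIn

theorem subset_idComp {P : Subgroup H} {s : Set H} (hs : IsPreconnected s) (h1 : (1 : H) ∈ s)
    (hP : s ⊆ P) : s ⊆ idComp P := hs.subset_connectedComponentIn h1 hP

theorem isClosed_idComp {P : Subgroup H} (hP : IsClosed (P : Set H)) :
    IsClosed (idComp P : Set H) :=
  closure_subset_iff_isClosed.mp (subset_idComp (isPreconnected_idComp P).closure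
    (subset_closure (idComp P).one_mem) (closure_minimal (idComp_le P) hP))

theorem map_mem_idComp {H' : Type} [Group H'] [TopologicalSpace H'] [IsTopologicalGroup H']
    {P : Subgroup H} {P' : Subgroup H'} (f : H →* H') (hf : Continuous f)
    (h : ∀ x ∈ P, f x ∈ P') {x : H} (hx : x ∈ idComp P) : f x ∈ idComp P' := by
  refine subset_idComp ((isPreconnected_idComp P).image f hf.continuousOn)
    ⟨1, (idComp P).one_mem, map_one f⟩ ?_ ⟨x, hx, rfl⟩
  rintro _ ⟨y, hy, rfl⟩
  exact h y (idComp_le P hy)

theorem normal_idComp (P : Subgroup H) [hP : P.Normal] : (idComp P).Normal :=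
  ⟨fun x hx g => map_mem_idComp (MulAut.conj g).toMonoidHom (by
    change Continuous fun x => g * x * g⁻¹
    fun_prop) (fun y hy => hP.conj_mem y hy g) hx⟩

theorem isPreconnected_closure {s : Set H} (hs : IsPreconnected s) (h1 : (1 : H) ∈ s) :
    IsPreconnected (Subgroup.closure s : Set H) := by
  have h : Subgroup.closure s ≤ idComp (Subgroup.closure s) :=
    (Subgroup.closure_le _).mpr (subset_idComp hs h1 Subgroup.subset_closure)
  rw [le_antisymm h (idComp_le _)]
  exact isPreconnected_idComp _

theorem isPreconnected_commutator [PreconnectedSpace H] :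
    IsPreconnected ((commutator H).topologicalClosure : Set H) := by
  refine IsPreconnected.closure ?_
  rw [commutator_eq_closure]
  refine isPreconnected_closure ?_ ⟨1, 1, by simp⟩
  have : commutatorSet H = range fun p : H × H => p.1 * p.2 * p.1⁻¹ * p.2⁻¹ := by
    ext x
    constructor
    · rintro ⟨a, b, rfl⟩
      exact ⟨(a, b), rfl⟩
    · rintro ⟨p, rfl⟩
      exact ⟨p.1, p.2, rfl⟩
  rw [this]
  exact isPreconnected_range (by fun_prop)

theorem map_mem_commutator {H' : Type} [Group H'] [TopologicalSpace H'] [IsTopologicalGroup H']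
    (f : H →* H') (hf : Continuous f) {x : H} (hx : x ∈ (commutator H).topologicalClosure) :
    f x ∈ (commutator H').topologicalClosure := by
  refine map_mem_closure hf hx fun y hy => ?_
  have := map_commutator_eq H f
  have h1 : f y ∈ (commutator H).map f := ⟨y, hy, rfl⟩
  rw [this] at h1
  exact Subgroup.commutator_mono le_top le_top h1

/-- A continuous homomorphism with commutative image from a topologically perfect group is
trivial. -/
theorem eq_one_of_perfect (hp : (commutator H).topologicalClosure = ⊤) {A : Type} [Monoid A]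
    [TopologicalSpace A] [T1Space A] (f : H →* A) (hf : Continuous f)
    (hc : ∀ x y, f x * f y = f y * f x) (x : H) : f x = 1 := by
  have h1 : commutator H ≤ f.ker := by
    rw [commutator_eq_closure, Subgroup.closure_le]
    rintro _ ⟨a, b, rfl⟩
    change f (a * b * a⁻¹ * b⁻¹) = 1
    rw [map_mul, map_mul, map_mul, hc a b, mul_assoc (f b), ← map_mul f a, mul_inv_cancel,
      map_one, mul_one, ← map_mul, mul_inv_cancel, map_one]
  have h2 : IsClosed (f.ker : Set H) := isClosed_singleton.preimage hf
  have h3 := Subgroup.topologicalClosure_minimal _ h1 h2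
  rw [hp] at h3
  exact h3 (Subgroup.mem_top x)

end idComp

namespace ExpData

variable {E H : Type} [NormedAddCommGroup E] [NormedSpace ℝ E] [FiniteDimensional ℝ E]
  [Group H] [TopologicalSpace H] [IsTopologicalGroup H] (D : ExpData E H)

omit [FiniteDimensional ℝ E] [IsTopologicalGroup H] in
theorem lie_mono {K K' : Subgroup H} (hK : IsClosed (K : Set H)) (hK' : IsClosed (K' : Set H))
    (h : K ≤ K') : D.lie K hK ≤ D.lie K' hK' := fun _ hX t => h (hX t)

/-- Closed connected subgroups are determined by their dimension among those containing them. -/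
theorem eq_of_finrank_le {K K' : Subgroup H} (hK : IsClosed (K : Set H))
    (hK' : IsClosed (K' : Set H)) (hc : IsPreconnected (K' : Set H)) (h : K ≤ K')
    (hd : Module.finrank ℝ (D.lie K' hK') ≤ Module.finrank ℝ (D.lie K hK)) : K = K' := by
  have h1 : D.lie K hK = D.lie K' hK' :=
    Submodule.eq_of_le_of_finrank_le (D.lie_mono hK hK' h) hd
  refine le_antisymm h fun x hx => ?_
  have : PreconnectedSpace K' := Subtype.preconnectedSpace hc
  refine (D.sub K' hK').induction_on (P := fun y : K' => (y : H) ∈ K) (fun X => ?_)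
    (fun x y hx hy => K.mul_mem hx hy) ⟨x, hx⟩
  have h2 : (X : E) ∈ D.lie K hK := h1.ge X.2
  exact D.exp_mem_of_mem_lie h2

omit [FiniteDimensional ℝ E] in
theorem exists_exp_section [PreconnectedSpace H] (χ : H →* Multiplicative ℝ) (hχ : Continuous χ)
    (h1 : χ ≠ 1) : ∃ X : E, ∀ t : ℝ, χ (D.exp (t • X)) = Multiplicative.ofAdd t := by
  have key : ∀ (X : E) (t : ℝ),
      Multiplicative.toAdd (χ (D.exp (t • X))) = t * Multiplicative.toAdd (χ (D.exp X)) := by
    intro X t
    let f : ℝ →+ ℝ := AddMonoidHom.mk' (fun t => Multiplicative.toAdd (χ (D.exp (t • X))))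
      (fun s t => by rw [D.exp_add_smul, map_mul, toAdd_mul])
    have hf : Continuous f := by
      have := D.continuous_exp
      change Continuous fun t : ℝ => Multiplicative.toAdd (χ (D.exp (t • X)))
      fun_prop
    have := map_real_smul f hf t 1
    simpa [f] using this
  have h2 : ∃ X, χ (D.exp X) ≠ 1 := by
    by_contra hcon
    push Not at hcon
    apply h1
    ext x
    induction x using D.induction_on with
    | hexp X => simp [hcon X]
    | hmul x y hx hy => simp_all
  obtain ⟨X, hX⟩ := h2
  have h3 : Multiplicative.toAdd (χ (D.exp X)) ≠ 0 := hX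
  refine ⟨(Multiplicative.toAdd (χ (D.exp X)))⁻¹ • X, fun t => ?_⟩
  rw [smul_smul, ← Multiplicative.toAdd.injective.eq_iff, key, toAdd_ofAdd, mul_assoc,
    inv_mul_cancel₀ h3, mul_one]

omit [FiniteDimensional ℝ E] in
include D in
/-- The kernel of a nontrivial real character is connected, and the character is onto. -/
theorem ker_real_character [PreconnectedSpace H] (χ : H →* Multiplicative ℝ) (hχ : Continuous χ)
    (h1 : χ ≠ 1) : IsPreconnected (χ.ker : Set H) ∧ Function.Surjective χ := by
  obtain ⟨X, hX⟩ := D.exists_exp_section χ hχ h1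
  refine ⟨?_, fun t => ⟨_, hX (Multiplicative.toAdd t)⟩⟩
  have : (χ.ker : Set H) = range fun x : H => x * D.exp ((-Multiplicative.toAdd (χ x)) • X) := by
    ext x
    constructor
    · intro hx
      refine ⟨x, ?_⟩
      have hx' : χ x = 1 := hx
      simp [hx', D.exp_zero]
    · rintro ⟨y, rfl⟩
      change χ _ = 1
      rw [map_mul, hX]
      simp
  rw [this]
  have := D.continuous_exp
  exact isPreconnected_range (by fun_prop)

include D in
/-- Without real characters the abelianization is compact. -/
theorem exists_compact_mul_commutator [PreconnectedSpace H]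
    (hR : ∀ χ : H →* Multiplicative ℝ, Continuous χ → χ = 1) :
    ∃ Q : Set H, IsCompact Q ∧ ∀ x : H, ∃ q ∈ Q, q⁻¹ * x ∈ (commutator H).topologicalClosure := by
  have := D.t2Space
  set M := (commutator H).topologicalClosure with hM
  have hMn : M.Normal := Subgroup.is_normal_topologicalClosure _
  have hMc : IsClosed (M : Set H) := Subgroup.isClosed_topologicalClosure _
  let π : H →* H ⧸ M := QuotientGroup.mk' M
  have hπc : Continuous π := QuotientGroup.continuous_mk
  have hcomm : ∀ x y : H, π x * π y = π y * π x := by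
    intro x y
    rw [← map_mul, ← map_mul]
    apply QuotientGroup.eq.mpr
    apply Subgroup.le_topologicalClosure
    have := Subgroup.commutator_mem_commutator (Subgroup.mem_top y⁻¹) (Subgroup.mem_top x⁻¹)
    simpa [commutatorElement_def, mul_assoc, commutator_def] using this
  let Γ : Subgroup (H × H × H) :=
    { carrier := {p | π p.1 * π p.2.1 = π p.2.2}
      one_mem' := by simp
      mul_mem' := by
        intro a b ha hb
        simp only [mem_ofPred_eq, Prod.fst_mul, Prod.snd_mul, map_mul] at ha hb ⊢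
        rw [← ha, ← hb, mul_assoc, mul_assoc, ← mul_assoc (π b.1), hcomm b.1, mul_assoc]
      inv_mem' := by
        intro a ha
        simp only [mem_ofPred_eq, Prod.fst_inv, Prod.snd_inv, map_inv] at ha ⊢
        rw [← ha, hcomm, mul_inv_rev] }
  have hΓ : IsClosed (Γ : Set (H × H × H)) := isClosed_eq (by fun_prop) (by fun_prop)
  have hadd : ∀ X Y : E, π (D.exp (X + Y)) = π (D.exp X) * π (D.exp Y) := by
    intro X Y
    have h1 : ((X, 0, X) : E × E × E) ∈ (D.prod (D.prod D)).lie Γ hΓ := fun t => by
      change π (D.exp (t • X)) * π (D.exp (t • 0)) = π (D.exp (t • X))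
      simp [D.exp_zero]
    have h2 : ((0, Y, Y) : E × E × E) ∈ (D.prod (D.prod D)).lie Γ hΓ := fun t => by
      change π (D.exp (t • 0)) * π (D.exp (t • Y)) = π (D.exp (t • Y))
      simp [D.exp_zero]
    have h3 := (D.prod (D.prod D)).exp_mem_of_mem_lie (Submodule.add_mem _ h1 h2)
    have h4 : π (D.exp (X + 0)) * π (D.exp (0 + Y)) = π (D.exp (X + Y)) := h3
    simpa using h4.symm
  let ψ : E →+ Additive (H ⧸ M) := AddMonoidHom.mk' (fun X => Additive.ofMul (π (D.exp X)))
    (fun X Y => by rw [hadd, ofMul_mul])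
  have hsurj : ∀ x : H, ∃ X, π (D.exp X) = π x := by
    intro x
    induction x using D.induction_on with
    | hexp X => exact ⟨X, rfl⟩
    | hmul x y hx hy =>
      obtain ⟨X, hX⟩ := hx
      obtain ⟨Y, hY⟩ := hy
      exact ⟨X + Y, by rw [hadd, hX, hY, map_mul]⟩
  have hspan : Submodule.span ℝ (ψ.ker : Set E) = ⊤ := by
    by_contra hne
    obtain ⟨l, hl0, hl⟩ := Submodule.exists_le_ker_of_lt_top _ (lt_top_iff_ne_top.mpr hne)
    choose s hs using hsurj
    have hwd : ∀ X Y, π (D.exp X) = π (D.exp Y) → l X = l Y := by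
      intro X Y h
      have h1 : X - Y ∈ ψ.ker := by
        rw [AddMonoidHom.mem_ker, map_sub, sub_eq_zero]
        exact congrArg Additive.ofMul h
      have h2 := hl (Submodule.subset_span h1)
      rwa [LinearMap.mem_ker, map_sub, sub_eq_zero] at h2
    let χ : H →* Multiplicative ℝ := MonoidHom.mk' (fun x => Multiplicative.ofAdd (l (s x)))
      (fun x y => by
        rw [← ofAdd_add, ← map_add, hwd (s (x * y)) (s x + s y) (by
          rw [hadd, hs, hs, hs, map_mul])])
    have hχ : ∀ X, χ (D.exp X) = Multiplicative.ofAdd (l X) := fun X =>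
      congrArg Multiplicative.ofAdd (hwd _ _ (hs _))
    have hχc : Continuous χ := by
      refine continuous_of_continuousAt_one χ ?_
      refine Tendsto.mono_left ?_ D.nhds_le
      rw [tendsto_map'_iff, map_one]
      have h1 : (χ ∘ D.exp) = fun X => Multiplicative.ofAdd (l X) := funext hχ
      rw [h1]
      have h2 : Continuous fun X => Multiplicative.ofAdd (l X) :=
        continuous_ofAdd.comp l.continuous_of_finiteDimensional
      simpa using h2.tendsto 0
    apply hl0
    ext X
    have := hχ X
    rw [hR χ hχc] at this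
    exact (ofAdd_eq_one.mp this.symm)
  obtain ⟨b, hbsub, hbspan, hbli⟩ := exists_linearIndependent ℝ (ψ.ker : Set E)
  rw [hspan] at hbspan
  let β : Module.Basis b ℝ E := Module.Basis.mk hbli (by simpa using hbspan.ge)
  have : Finite b := hbli.finite
  have : Fintype b := Fintype.ofFinite b
  refine ⟨D.exp '' Metric.closedBall 0 (∑ i, ‖β i‖),
    (isCompact_closedBall _ _).image D.continuous_exp, fun x => ?_⟩
  obtain ⟨X, hX⟩ := hsurj x
  refine ⟨_, ⟨ZSpan.fract β X, mem_closedBall_zero_iff.mpr (ZSpan.norm_fract_le β X), rfl⟩, ?_⟩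
  apply QuotientGroup.eq.mp
  change π _ = π x
  have h1 : (ZSpan.floor β X : E) ∈ ψ.ker := by
    have h2 : Submodule.span ℤ (range β) ≤ ψ.ker.toIntSubmodule := by
      rw [Submodule.span_le]
      rintro _ ⟨i, rfl⟩
      simpa [β] using hbsub i.2
    exact h2 (ZSpan.floor β X).2
  have h3 : ψ (ZSpan.fract β X) = ψ X := by
    rw [ZSpan.fract_apply, map_sub, (AddMonoidHom.mem_ker).mp h1, sub_zero]
  rw [← hX]
  exact congrArg Additive.toMul h3

include D in
theorem idComp_mem_nhds (P : Subgroup H) (hP : IsClosed (P : Set H)) :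
    ∃ U ∈ 𝓝 (1 : H), ∀ x ∈ U, x ∈ P → x ∈ idComp P := by
  have h1 := (D.sub P hP).image_ball_mem_nhds one_pos
  rw [nhds_subtype_eq_comap, mem_comap] at h1
  obtain ⟨U, hU, h2⟩ := h1
  refine ⟨U, hU, fun x hx hxP => ?_⟩
  obtain ⟨X, -, hX⟩ := h2 (show (⟨x, hxP⟩ : P) ∈ Subtype.val ⁻¹' U from hx)
  have h3 : IsPreconnected (range fun Y : D.lie P hP => D.exp Y) :=
    isPreconnected_range (D.continuous_exp.comp continuous_subtype_val)
  refine subset_idComp h3 ⟨0, D.exp_zero⟩ ?_ ⟨X, congrArg Subtype.val hX⟩
  rintro _ ⟨Y, rfl⟩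
  exact D.exp_mem_of_mem_lie Y.2

include D in
/-- Weyl's theorem: passing from a cocompact normal subgroup to its identity component. -/
theorem exists_compact_mul_idComp [PreconnectedSpace H]
    (hR : ∀ χ : H →* Multiplicative ℝ, Continuous χ → χ = 1)
    (P : Subgroup H) [P.Normal] (hP : IsClosed (P : Set H)) (Q : Set H) (hQ : IsCompact Q)
    (hQP : ∀ x : H, ∃ q ∈ Q, q⁻¹ * x ∈ P) :
    ∃ Q' : Set H, IsCompact Q' ∧ ∀ x : H, ∃ q ∈ Q', q⁻¹ * x ∈ idComp P := by
  have := D.t2Space
  have := D.locallyCompactSpace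
  have hn := normal_idComp P
  have hc := isClosed_idComp hP
  let π : H →* H ⧸ idComp P := QuotientGroup.mk' _
  have hπc : Continuous π := QuotientGroup.continuous_mk
  have hπs : Function.Surjective π := QuotientGroup.mk'_surjective _
  have hπo : IsOpenMap π := QuotientGroup.isOpenMap_coe
  have : ConnectedSpace H := { toNonempty := ⟨1⟩ }
  have : ConnectedSpace (H ⧸ idComp P) := hπs.connectedSpace hπc
  have : (P.map π).Normal := Subgroup.Normal.map inferInstance π hπs
  have : DiscreteTopology (P.map π) := by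
    apply discreteTopology_of_isOpen_singleton_one
    obtain ⟨U, hU, h1⟩ := D.idComp_mem_nhds P hP
    rw [isOpen_iff_mem_nhds]
    rintro _ rfl
    · rw [nhds_subtype_eq_comap, mem_comap]
      refine ⟨π '' U, hπo.image_mem_nhds hU, ?_⟩
      rintro ⟨_, y, hy, rfl⟩ ⟨x, hx, hxy⟩
      have h2 : x⁻¹ * y ∈ idComp P := QuotientGroup.eq.mp hxy
      have h3 : x ∈ P := by
        have := P.mul_mem hy (P.inv_mem (idComp_le P h2))
        simpa using this
      apply Subtype.ext
      change π y = 1
      rw [← show π x = π y from hxy]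
      exact (QuotientGroup.eq_one_iff x).mpr (h1 x hx h3)
  have hcomp : CompactSpace (H ⧸ idComp P) := by
    refine weyl_compact _ (P.map π) (π '' Q) (hQ.image hπc) (fun x => ?_) (fun χ hχ => ?_)
    · obtain ⟨x, rfl⟩ := hπs x
      obtain ⟨q, hq, h⟩ := hQP x
      exact ⟨π q, ⟨q, hq, rfl⟩, π (q⁻¹ * x), ⟨_, h, rfl⟩, by simp⟩
    · have := hR (χ.comp π) (hχ.comp hπc)
      ext x
      simpa [π] using DFunLike.congr_fun this x
  obtain ⟨Q', hQ', hQ''⟩ := exists_compact_cover π univ isCompact_univ (fun y _ => by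
    obtain ⟨x, rfl⟩ := hπs y
    exact ⟨x, fun U hU => mem_nhdsWithin_of_mem_nhds (hπo.image_mem_nhds hU)⟩)
  refine ⟨Q', hQ', fun x => ?_⟩
  obtain ⟨q, hq, h⟩ := hQ'' (mem_univ (π x))
  exact ⟨q, hq, QuotientGroup.eq.mp h⟩

end ExpData

end Pool.Agent.P.MP_7895ba_al
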