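import Pool.Agent.P.MP_7895ba_al.Final
import Pool.Agent.P.MP_7895ba_al.LieExp

/-! Completeness of coset spaces of pro-Lie groups modulo almost connected subgroups. -/

open Topology Filter Set

namespace Pool.Agent.P.MP_7895ba_al

section General

variable {G : Type} [Group G] [TopologicalSpace G] [IsTopologicalGroup G]

/-- Cauchy filters of the coset space `G ⧸ N` converge. -/
def CosetComplete (N : Subgroup G) : Prop :=
  ∀ 𝓕 : Filter (G ⧸ N), 𝓕.NeBot →
    (∀ U ∈ 𝓝 (1 : G), ∃ A ∈ 𝓕, ∀ p ∈ A, ∀ q ∈ A, ∃ u ∈ U, q = u • p) →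
    ∃ q : G ⧸ N, 𝓕 ≤ 𝓝 q

omit [TopologicalSpace G] [IsTopologicalGroup G] in
theorem smul_coset (N : Subgroup G) (u a : G) :
    u • (a : G ⧸ N) = ((u * a : G) : G ⧸ N) := rfl

/-- Completeness passes from `G ⧸ M` to `G ⧸ N` when `N` is precompact modulo `M`. -/
theorem CosetComplete.of_precompact {M N : Subgroup G} (hMN : M ≤ N) (hM : CosetComplete M)
    (hK : ∀ W ∈ 𝓝 (1 : G), ∃ t : Finset G, ∀ n ∈ N, ∃ x ∈ t, ∃ w ∈ W,
      (n : G ⧸ M) = w • (x : G ⧸ M)) : CosetComplete N := by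
  intro 𝓕 hF hc
  let πN : G → G ⧸ N := QuotientGroup.mk
  let πM : G → G ⧸ M := QuotientGroup.mk
  have hNs : Function.Surjective πN := QuotientGroup.mk_surjective
  have hMs : Function.Surjective πM := QuotientGroup.mk_surjective
  have hMo : IsOpenMap πM := QuotientGroup.isOpenMap_coe
  have hne : (comap πN 𝓕).NeBot := hF.comap_of_surj hNs
  let 𝓤 : Ultrafilter G := Ultrafilter.of (comap πN 𝓕)
  have hU : ∀ A ∈ 𝓕, πN ⁻¹' A ∈ 𝓤 := fun A hA =>
    Ultrafilter.of_le (comap πN 𝓕) (preimage_mem_comap hA)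
  obtain ⟨y, hy⟩ := hM (map πM 𝓤) inferInstance (by
    intro U hU1
    have hcont : Continuous fun s : (G × G) × (G × G) =>
        s.1.1 * s.1.2 * (s.2.1 * s.2.2)⁻¹ := by fun_prop
    have h1 := hcont.continuousAt.preimage_mem_nhds (x := ((1, 1), (1, 1))) (t := U)
      (by simpa using hU1)
    rw [nhds_prod_eq, mem_prod_iff] at h1
    obtain ⟨S₁, hS₁, S₂, hS₂, h2⟩ := h1
    have h3 : S₁ ∩ S₂ ∈ 𝓝 ((1 : G), (1 : G)) := inter_mem hS₁ hS₂
    rw [nhds_prod_eq, mem_prod_self_iff] at h3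
    obtain ⟨W, hW, h4⟩ := h3
    obtain ⟨A, hA, h5⟩ := hc W hW
    obtain ⟨q₀, hq₀⟩ := Filter.nonempty_of_mem hA
    obtain ⟨a₀, rfl⟩ := hNs q₀
    have hW' : {w : G | a₀ * w * a₀⁻¹ ∈ W} ∈ 𝓝 (1 : G) := by
      have hc' : Continuous fun w : G => a₀ * w * a₀⁻¹ := by fun_prop
      exact hc'.continuousAt.preimage_mem_nhds (by simpa using hW)
    obtain ⟨t, ht⟩ := hK _ hW'
    let B : G → Set (G ⧸ M) := fun x =>
      {p | ∃ w ∈ W, ∃ w' ∈ W, p = (w * w') • πM (a₀ * x)}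
    have h6 : (⋃ x ∈ (t : Set G), πM ⁻¹' B x) ∈ 𝓤 := by
      refine mem_of_superset (hU A hA) fun b hb => ?_
      obtain ⟨w, hw, h7⟩ := h5 _ hq₀ _ hb
      have h8 : (w * a₀)⁻¹ * b ∈ N := QuotientGroup.eq.mp h7.symm
      obtain ⟨x, hx, w', hw', h9⟩ := ht _ h8
      refine mem_iUnion₂.mpr ⟨x, hx, w, hw, _, hw', ?_⟩
      have h10 : πM b = (w * a₀) • (((w * a₀)⁻¹ * b : G) : G ⧸ M) := by
        rw [smul_coset, mul_inv_cancel_left]
      rw [h10, h9]
      change _ = (w * (a₀ * w' * a₀⁻¹)) • ((a₀ * x : G) : G ⧸ M)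
      rw [smul_coset, smul_coset, smul_coset]
      congr 1
      group
    obtain ⟨x, -, h7⟩ := (Ultrafilter.finite_biUnion_mem_iff t.finite_toSet).mp h6
    refine ⟨B x, h7, ?_⟩
    rintro _ ⟨w₁, hw₁, w₂, hw₂, rfl⟩ _ ⟨w₃, hw₃, w₄, hw₄, rfl⟩
    refine ⟨w₃ * w₄ * (w₁ * w₂)⁻¹, h2 (mk_mem_prod (h4 (mk_mem_prod hw₃ hw₄)).1
      (h4 (mk_mem_prod hw₁ hw₂)).2), ?_⟩
    rw [smul_smul, inv_mul_cancel_right])
  obtain ⟨g, rfl⟩ := hMs y
  refine ⟨πN g, fun O hO => ?_⟩
  have h1 : πN ⁻¹' O ∈ 𝓝 g := QuotientGroup.continuous_mk.continuousAt.preimage_mem_nhds hO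
  have h2 := (continuous_mul (M := G)).continuousAt.preimage_mem_nhds
    (x := (1, g)) (t := πN ⁻¹' O) (by simpa using h1)
  rw [nhds_prod_eq, mem_prod_iff] at h2
  obtain ⟨W, hW, O', hO', h3⟩ := h2
  obtain ⟨A, hA, h4⟩ := hc W hW
  have h5 : πM ⁻¹' (πM '' O') ∈ 𝓤 := hy (hMo.image_mem_nhds hO')
  obtain ⟨a, ha, o, ho, h6⟩ := Filter.nonempty_of_mem (inter_mem (hU A hA) h5)
  have h7 : πN o = πN a := QuotientGroup.eq.mpr (hMN (QuotientGroup.eq.mp h6))
  refine mem_of_superset hA fun q hq => ?_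
  obtain ⟨u, hu, rfl⟩ := h4 _ ha _ hq
  rw [← h7]
  exact h3 (mk_mem_prod hu ho)

/-- An almost connected subgroup is precompact modulo its identity component. -/
theorem precompact_of_almostConnected (N : Subgroup G)
    [CompactSpace (N ⧸ Subgroup.connectedComponentOfOne N)] :
    ∀ W ∈ 𝓝 (1 : G), ∃ t : Finset G, ∀ n ∈ N, ∃ x ∈ t, ∃ w ∈ W,
      (n : G ⧸ (Subgroup.connectedComponentOfOne N).map N.subtype) =
        w • (x : G ⧸ (Subgroup.connectedComponentOfOne N).map N.subtype) := by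
  classical
  intro W hW
  let N₀ := Subgroup.connectedComponentOfOne N
  let π : N → N ⧸ N₀ := QuotientGroup.mk
  have hπo : IsOpenMap π := QuotientGroup.isOpenMap_coe
  have hπs : Function.Surjective π := QuotientGroup.mk_surjective
  choose s hs using hπs
  let O : N ⧸ N₀ → Set (N ⧸ N₀) := fun y => π '' {m : N | (m : G) * (s y : G)⁻¹ ∈ W}
  have hO : ∀ y, O y ∈ 𝓝 y := fun y => by
    have hc : Continuous fun m : N => (m : G) * (s y : G)⁻¹ := by fun_prop
    have h1 : {m : N | (m : G) * (s y : G)⁻¹ ∈ W} ∈ 𝓝 (s y) :=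
      hc.continuousAt.preimage_mem_nhds (by simpa using hW)
    have h2 := hπo.image_mem_nhds h1
    rwa [hs] at h2
  obtain ⟨t, ht⟩ := CompactSpace.elim_nhds_subcover O hO
  refine ⟨t.image fun y => (s y : G), fun n hn => ?_⟩
  have h1 : π ⟨n, hn⟩ ∈ ⋃ y ∈ t, O y := by rw [ht]; exact mem_univ _
  obtain ⟨y, hy, m, hm, h2⟩ := mem_iUnion₂.mp h1
  refine ⟨_, Finset.mem_image_of_mem _ hy, _, hm, ?_⟩
  rw [smul_coset, inv_mul_cancel_right]
  refine Eq.symm (QuotientGroup.eq.mpr ?_)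
  exact Subgroup.mem_map.mpr ⟨_, QuotientGroup.eq.mp h2, rfl⟩

end General

variable {ι : Type} {H : ι → Type} [∀ i, TopologicalSpace (H i)] [∀ i, Group (H i)]

/-- The coset space of a pro-Lie group modulo a connected subgroup is complete. -/
theorem cosetComplete_of_preconnected {E : ι → Type} [∀ i, NormedAddCommGroup (E i)]
    [∀ i, NormedSpace ℝ (E i)] [∀ i, FiniteDimensional ℝ (E i)]
    [∀ i, IsTopologicalGroup (H i)] (D : ∀ i, ExpData (E i) (H i))
    (G : Subgroup (∀ i, H i)) (hG : IsClosed (G : Set (∀ i, H i)))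
    (M : Subgroup G) (hM : IsPreconnected (M : Set G)) : CosetComplete M := by
  classical
  intro 𝓕 hF hc
  let π : G → G ⧸ M := QuotientGroup.mk
  have hπs : Function.Surjective π := QuotientGroup.mk_surjective
  have hπm : ∀ (b g : G), g ∈ M → π (b * g) = π b := fun b g hg =>
    QuotientGroup.mk_mul_of_mem b hg
  let DF : ∀ F : Finset ι, ExpData (∀ i : F, E i) (∀ i : F, H i) := fun F =>
    ExpData.pi fun i : F => D i
  let r : ∀ F : Finset ι, G →* (∀ i : F, H i) := fun F => (proj F).comp G.subtype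
  have hr : ∀ F, Continuous (r F) := fun F => (continuous_proj F).comp continuous_subtype_val
  -- small sets of the filter
  have small : ∀ (F : Finset ι), ∀ V ∈ 𝓝 (1 : ∀ i : F, H i), ∃ A ∈ 𝓕, ∀ a b : G,
      π a ∈ A → π b ∈ A → ∃ g ∈ M, r F (b * g * a⁻¹) ∈ V := by
    intro F V hV
    have h1 : r F ⁻¹' V ∈ 𝓝 (1 : G) :=
      (hr F).continuousAt.preimage_mem_nhds (by simpa using hV)
    obtain ⟨A, hA, h2⟩ := hc _ h1
    refine ⟨A, hA, fun a b ha hb => ?_⟩
    obtain ⟨v, hv, h3⟩ := h2 _ ha _ hb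
    refine ⟨b⁻¹ * (v * a), QuotientGroup.eq.mp h3, ?_⟩
    rwa [mul_inv_cancel_left, mul_inv_cancel_right]
  let C : ∀ F : Finset ι, Set (∀ i : F, H i) := fun F => ⋂ A ∈ 𝓕, closure (r F '' (π ⁻¹' A))
  have hCne : ∀ F, (C F).Nonempty := by
    intro F
    have := (DF F).locallyCompactSpace
    obtain ⟨V, hVc, hV⟩ := exists_compact_mem_nhds (1 : ∀ i : F, H i)
    obtain ⟨A₀, hA₀, h0⟩ := small F V hV
    obtain ⟨q₀, hq₀⟩ := Filter.nonempty_of_mem hA₀
    obtain ⟨a₀, rfl⟩ := hπs q₀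
    have hK : IsCompact ((fun x => x * r F a₀) '' V) := hVc.image (by fun_prop)
    obtain ⟨x, -, hx⟩ := hK.inter_iInter_nonempty
      (fun A : 𝓕.sets => closure (r F '' (π ⁻¹' A.1))) (fun _ => isClosed_closure) (fun u => by
        have h1 : A₀ ∩ ⋂ A ∈ u, A.1 ∈ 𝓕 :=
          inter_mem hA₀ ((biInter_finset_mem u).mpr fun A _ => A.2)
        obtain ⟨q, hq1, hq2⟩ := Filter.nonempty_of_mem h1
        obtain ⟨b, rfl⟩ := hπs q
        obtain ⟨g, hg, h2⟩ := h0 a₀ b hq₀ hq1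
        refine ⟨r F (b * g), ⟨_, h2, by simp [mul_assoc]⟩, mem_iInter₂.mpr fun A hA =>
          subset_closure ⟨b * g, ?_, rfl⟩⟩
        rw [mem_preimage, hπm b g hg]
        exact mem_iInter₂.mp hq2 A hA)
    exact ⟨x, mem_iInter₂.mpr fun A hA => mem_iInter.mp hx ⟨A, hA⟩⟩
  have hsys : (finSys (H := H)).Sys C := by
    refine ⟨fun F => ?_, fun F F' h x hx => mem_iInter₂.mpr fun A hA => ?_⟩
    · obtain ⟨c, hcC⟩ := hCne F
      refine ⟨c, (M.map (r F)).topologicalClosure, Subgroup.isClosed_topologicalClosure _,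
        (hM.image _ (hr F).continuousOn).closure,
        fun x => ⟨fun hx => ?_, fun hx => mem_iInter₂.mpr fun A hA => ?_⟩⟩
      · change c⁻¹ * x ∈ closure _
        rw [mem_closure_iff_nhds]
        intro W hW
        have hcont : Continuous fun t : (∀ i : F, H i) × (∀ i : F, H i) × (∀ i : F, H i) =>
            t.1⁻¹ * (t.2.2⁻¹ * t.2.1) := by fun_prop
        have h1 := hcont.continuousAt.preimage_mem_nhds (x := (c, x, 1)) (t := W)
          (by simpa using hW)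
        rw [nhds_prod_eq, nhds_prod_eq, mem_prod_iff] at h1
        obtain ⟨U₁, hU₁, U', hU', h2⟩ := h1
        obtain ⟨U₂, hU₂, V, hV, h3⟩ := mem_prod_iff.mp hU'
        obtain ⟨A, hA, h4⟩ := small F V hV
        obtain ⟨_, ha1, a, ha, rfl⟩ :=
          mem_closure_iff_nhds.mp (mem_iInter₂.mp hcC A hA) U₁ hU₁
        obtain ⟨_, hb1, b, hb, rfl⟩ :=
          mem_closure_iff_nhds.mp (mem_iInter₂.mp hx A hA) U₂ hU₂
        obtain ⟨g, hg, h5⟩ := h4 a b ha hb
        refine ⟨_, h2 (mk_mem_prod ha1 (h3 (mk_mem_prod hb1 h5))), g⁻¹, M.inv_mem hg, ?_⟩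
        simp [mul_assoc]
      · have := map_mem_closure₂ (f := fun x y : (∀ i : F, H i) => x * y)
          (u := r F '' (π ⁻¹' A)) continuous_mul (mem_iInter₂.mp hcC A hA) hx (by
            rintro _ ⟨a, ha, rfl⟩ _ ⟨g, hg, rfl⟩
            refine ⟨a * g, ?_, map_mul _ _ _⟩
            rw [mem_preimage, hπm a g hg]
            exact ha)
        simpa using this
    · refine map_mem_closure ((finSys (H := H)).cont h) (mem_iInter₂.mp hx A hA) ?_
      rintro _ ⟨a, ha, rfl⟩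
      exact ⟨a, ha, rfl⟩
  obtain ⟨x, hxC, hx⟩ := (finSys (H := H)).exists_thread DF hsys
  let g : ∀ i, H i := fun i => x {i} ⟨i, Finset.mem_singleton_self i⟩
  have hg : ∀ F, proj F g = x F := fun F => funext fun i => by
    have := congrFun (hx {i.1} F (Finset.singleton_subset_iff.mpr i.2))
      ⟨i.1, Finset.mem_singleton_self _⟩
    exact this.symm
  have hgG : g ∈ G := by
    rw [← SetLike.mem_coe, ← hG.closure_eq, mem_closure_iff_nhds]
    intro U hU
    obtain ⟨F, V, hV, hVU⟩ := exists_proj_nhds hU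
    rw [hg] at hV
    obtain ⟨_, h1, a, -, rfl⟩ :=
      mem_closure_iff_nhds.mp (mem_iInter₂.mp (hxC F) univ univ_mem) V hV
    exact ⟨a, hVU h1, a.2⟩
  refine ⟨π ⟨g, hgG⟩, fun W hW => ?_⟩
  have h1 : π ⁻¹' W ∈ 𝓝 (⟨g, hgG⟩ : G) :=
    QuotientGroup.continuous_mk.continuousAt.preimage_mem_nhds hW
  rw [nhds_subtype_eq_comap, mem_comap] at h1
  obtain ⟨U, hU, hUW⟩ := h1
  obtain ⟨F, V, hV, hVU⟩ := exists_proj_nhds hU
  have h2 := (continuous_mul (M := ∀ i : F, H i)).continuousAt.preimage_mem_nhds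
    (x := (1, x F)) (t := V) (by simpa [hg] using hV)
  rw [nhds_prod_eq, mem_prod_iff] at h2
  obtain ⟨V₂, hV₂, V₁, hV₁, h3⟩ := h2
  obtain ⟨A, hA, h4⟩ := small F V₂ hV₂
  obtain ⟨_, ha1, a, ha, rfl⟩ := mem_closure_iff_nhds.mp (mem_iInter₂.mp (hxC F) A hA) V₁ hV₁
  refine mem_of_superset hA fun q hq => ?_
  obtain ⟨b, rfl⟩ := hπs q
  obtain ⟨k, hk, h5⟩ := h4 a b ha hq
  have h6 : r F (b * k) ∈ V := by
    have := h3 (mk_mem_prod h5 ha1)
    simpa [mul_assoc] using this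
  have h7 : π (b * k) ∈ W := hUW (hVU h6)
  rwa [hπm b k hk] at h7

/-- The coset space of a pro-Lie group modulo an almost connected subgroup is complete. -/
theorem cosetComplete_of_almostConnected {E : ι → Type} [∀ i, NormedAddCommGroup (E i)]
    [∀ i, NormedSpace ℝ (E i)] [∀ i, FiniteDimensional ℝ (E i)]
    [∀ i, IsTopologicalGroup (H i)] (D : ∀ i, ExpData (E i) (H i))
    (G : Subgroup (∀ i, H i)) (hG : IsClosed (G : Set (∀ i, H i)))
    (N : Subgroup G) [CompactSpace (N ⧸ Subgroup.connectedComponentOfOne N)] :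
    CosetComplete N :=
  CosetComplete.of_precompact (Subgroup.map_subtype_le _)
    (cosetComplete_of_preconnected D G hG
      ((Subgroup.connectedComponentOfOne N).map N.subtype)
      (isPreconnected_connectedComponent.image _ continuous_subtype_val.continuousOn))
    (precompact_of_almostConnected N)

end Pool.Agent.P.MP_7895ba_al
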