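import Pool.Agent.P.MP_7895ba_al.Defs

/-! Construction of the exponential map from a chart in which the multiplication is
bilinear-small, by the limit of the powers `(c (X / n)) ^ n`. -/

open Topology Filter Metric

namespace Pool.Agent.P.MP_7895ba_al

/-- A chart at the identity with first-order estimates for the multiplication. -/
structure LocData (E H : Type) [NormedAddCommGroup E] [Group H] [TopologicalSpace H] where
  c : E → H
  l : H → E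
  R : ℝ
  K : ℝ
  R_pos : 0 < R
  K_pos : 0 < K
  KR : K * R ≤ 1 / 4
  c_zero : c 0 = 1
  l_c : ∀ x, ‖x‖ ≤ 8 * R → l (c x) = x
  cont_c : ∀ x, ‖x‖ ≤ 8 * R → ContinuousAt c x
  nhds_le : 𝓝 (1 : H) ≤ map c (𝓝 0)
  c_l : ∀ x y, ‖x‖ ≤ 8 * R → ‖y‖ ≤ 8 * R → c (l (c x * c y)) = c x * c y
  est_right : ∀ x y y', ‖x‖ ≤ 8 * R → ‖y‖ ≤ 8 * R → ‖y'‖ ≤ 8 * R →
    ‖l (c x * c y) - l (c x * c y') - (y - y')‖ ≤ K * ‖x‖ * ‖y - y'‖
  est_left : ∀ x x' y, ‖x‖ ≤ 8 * R → ‖x'‖ ≤ 8 * R → ‖y‖ ≤ 8 * R →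
    ‖l (c x * c y) - l (c x' * c y) - (x - x')‖ ≤ K * ‖y‖ * ‖x - x'‖

namespace LocData

variable {E H : Type} [NormedAddCommGroup E] [NormedSpace ℝ E] [Group H] [TopologicalSpace H]
  (D : LocData E H)

theorem l_one : D.l 1 = 0 := by
  rw [← D.c_zero]
  exact D.l_c 0 (by simp; linarith [D.R_pos])

theorem est_add {x y : E} (hx : ‖x‖ ≤ 8 * D.R) (hy : ‖y‖ ≤ 8 * D.R) :
    ‖D.l (D.c x * D.c y) - x - y‖ ≤ D.K * ‖x‖ * ‖y‖ := by
  have := D.est_right x y 0 hx hy (by simp; linarith [D.R_pos])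
  rwa [D.c_zero, mul_one, D.l_c x hx, sub_zero] at this

/-- Powers in the chart. -/
def p (x : E) (n : ℕ) : E := D.l (D.c x ^ n)

theorem p_zero (x : E) : D.p x 0 = 0 := by simp [p, D.l_one]

theorem p_spec (x : E) (n : ℕ) (h : n * ‖x‖ ≤ D.R) :
    D.c (D.p x n) = D.c x ^ n ∧ ‖D.p x n - (n : ℝ) • x‖ ≤ D.K * n ^ 2 * ‖x‖ ^ 2 ∧
      ‖D.p x n‖ ≤ 2 * n * ‖x‖ := by
  have hR := D.R_pos
  have hK := D.K_pos
  have hKR := D.KR
  have hx0 := norm_nonneg x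
  induction n with
  | zero => simp [p_zero, D.c_zero]
  | succ n ih =>
    push_cast at h ⊢
    have hn0 : (0 : ℝ) ≤ n := n.cast_nonneg
    have h' : n * ‖x‖ ≤ D.R := by nlinarith
    have hx : ‖x‖ ≤ 8 * D.R := by nlinarith
    obtain ⟨h1, h2, h3⟩ := ih h'
    have hp : ‖D.p x n‖ ≤ 8 * D.R := by nlinarith
    have hs : D.p x (n + 1) = D.l (D.c (D.p x n) * D.c x) := by rw [h1, p, pow_succ]
    have h4 := D.est_add hp hx
    rw [← hs] at h4
    have h5 : ‖D.p x (n + 1) - ((n : ℝ) + 1) • x‖ ≤ D.K * ((n : ℝ) + 1) ^ 2 * ‖x‖ ^ 2 := by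
      have : D.p x (n + 1) - ((n : ℝ) + 1) • x =
          (D.p x (n + 1) - D.p x n - x) + (D.p x n - (n : ℝ) • x) := by
        rw [add_smul, one_smul]; abel
      rw [this]
      refine (norm_add_le _ _).trans ?_
      have h6 : D.K * ‖D.p x n‖ * ‖x‖ ≤ D.K * (2 * n * ‖x‖) * ‖x‖ := by gcongr
      have h7 : 0 ≤ D.K * ‖x‖ ^ 2 := by positivity
      nlinarith
    refine ⟨by rw [hs, D.c_l _ _ hp hx, h1, pow_succ], h5, ?_⟩
    have h8 : ‖D.p x (n + 1)‖ ≤ ‖D.p x (n + 1) - ((n : ℝ) + 1) • x‖ + ((n : ℝ) + 1) * ‖x‖ := by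
      have := norm_add_le (D.p x (n + 1) - ((n : ℝ) + 1) • x) (((n : ℝ) + 1) • x)
      rwa [sub_add_cancel, norm_smul, Real.norm_of_nonneg (by positivity)] at this
    have h9 : D.K * ((n : ℝ) + 1) ^ 2 * ‖x‖ ^ 2 ≤ ((n : ℝ) + 1) * ‖x‖ := by
      have h10 : D.K * (((n : ℝ) + 1) * ‖x‖) ≤ 1 := by nlinarith
      have h11 : 0 ≤ ((n : ℝ) + 1) * ‖x‖ := by positivity
      nlinarith
    linarith

theorem p_sub (x y : E) (ρ : ℝ) (hx : ‖x‖ ≤ ρ) (hy : ‖y‖ ≤ ρ) (n : ℕ) (h : n * ρ ≤ D.R) :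
    ‖D.p x n - D.p y n - (n : ℝ) • (x - y)‖ ≤ 2 * D.K * n ^ 2 * ρ * ‖x - y‖ ∧
      ‖D.p x n - D.p y n‖ ≤ 2 * n * ‖x - y‖ := by
  have hR := D.R_pos
  have hK := D.K_pos
  have hKR := D.KR
  have hx0 := norm_nonneg x
  have hy0 := norm_nonneg y
  have hxy := norm_nonneg (x - y)
  have hρ : 0 ≤ ρ := hx0.trans hx
  induction n with
  | zero => simp [p_zero]
  | succ n ih =>
    push_cast at h ⊢
    have hn0 : (0 : ℝ) ≤ n := n.cast_nonneg
    have h' : n * ρ ≤ D.R := by nlinarith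
    have hx' : ‖x‖ ≤ 8 * D.R := by nlinarith
    have hy' : ‖y‖ ≤ 8 * D.R := by nlinarith
    have hnx : n * ‖x‖ ≤ n * ρ := by gcongr
    have hny : n * ‖y‖ ≤ n * ρ := by gcongr
    obtain ⟨h1, h2⟩ := ih h'
    obtain ⟨a1, -, a3⟩ := D.p_spec x n (hnx.trans h')
    obtain ⟨b1, -, b3⟩ := D.p_spec y n (hny.trans h')
    have hpx : ‖D.p x n‖ ≤ 8 * D.R := by nlinarith
    have hpy : ‖D.p y n‖ ≤ 8 * D.R := by nlinarith
    have hsx : D.p x (n + 1) = D.l (D.c (D.p x n) * D.c x) := by rw [a1, p, pow_succ]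
    have hsy : D.p y (n + 1) = D.l (D.c (D.p y n) * D.c y) := by rw [b1, p, pow_succ]
    have e1 := D.est_left _ _ _ hpx hpy hx'
    have e2 := D.est_right _ _ _ hpy hx' hy'
    rw [← hsx] at e1
    rw [← hsy] at e2
    have h5 : ‖D.p x (n + 1) - D.p y (n + 1) - ((n : ℝ) + 1) • (x - y)‖ ≤
        2 * D.K * ((n : ℝ) + 1) ^ 2 * ρ * ‖x - y‖ := by
      have : D.p x (n + 1) - D.p y (n + 1) - ((n : ℝ) + 1) • (x - y) =
          (D.p x (n + 1) - D.l (D.c (D.p y n) * D.c x) - (D.p x n - D.p y n)) +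
          (D.l (D.c (D.p y n) * D.c x) - D.p y (n + 1) - (x - y)) +
          (D.p x n - D.p y n - (n : ℝ) • (x - y)) := by
        rw [add_smul, one_smul]; abel
      rw [this]
      refine norm_add₃_le.trans ?_
      have h6 : D.K * ‖x‖ * ‖D.p x n - D.p y n‖ ≤ D.K * ρ * (2 * n * ‖x - y‖) := by gcongr
      have h7 : D.K * ‖D.p y n‖ * ‖x - y‖ ≤ D.K * (2 * (n * ρ)) * ‖x - y‖ := by
        gcongr; linarith
      have h8 : 0 ≤ D.K * ρ * ‖x - y‖ := by positivity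
      nlinarith
    refine ⟨h5, ?_⟩
    have h8 : ‖D.p x (n + 1) - D.p y (n + 1)‖ ≤
        ‖D.p x (n + 1) - D.p y (n + 1) - ((n : ℝ) + 1) • (x - y)‖ + ((n : ℝ) + 1) * ‖x - y‖ := by
      have := norm_add_le (D.p x (n + 1) - D.p y (n + 1) - ((n : ℝ) + 1) • (x - y))
        (((n : ℝ) + 1) • (x - y))
      rwa [sub_add_cancel, norm_smul, Real.norm_of_nonneg (by positivity)] at this
    have h9 : 2 * D.K * ((n : ℝ) + 1) ^ 2 * ρ * ‖x - y‖ ≤ ((n : ℝ) + 1) * ‖x - y‖ := by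
      have h10 : 2 * D.K * (((n : ℝ) + 1) * ρ) ≤ 1 := by nlinarith
      have h11 : 0 ≤ ((n : ℝ) + 1) * ‖x - y‖ := by positivity
      nlinarith
    linarith

/-- The approximating sequence. -/
noncomputable def en (X : E) (n : ℕ) : E := D.p ((n : ℝ)⁻¹ • X) n

theorem mul_norm_inv_smul (X : E) {n : ℕ} (hn : 0 < n) : n * ‖(n : ℝ)⁻¹ • X‖ = ‖X‖ := by
  have : (0 : ℝ) < n := Nat.cast_pos.2 hn
  rw [norm_smul, Real.norm_of_nonneg (by positivity)]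
  field_simp

theorem en_mul (X : E) (hX : 2 * ‖X‖ ≤ D.R) {n m : ℕ} (hn : 0 < n) (hm : 0 < m) :
    ‖D.en X (m * n) - D.en X n‖ ≤ 2 * D.K * ‖X‖ ^ 2 / n := by
  have hn' : (0 : ℝ) < n := Nat.cast_pos.2 hn
  have hm' : (0 : ℝ) < m := Nat.cast_pos.2 hm
  have hn1 : (1 : ℝ) ≤ n := Nat.one_le_cast.2 hn
  have hX0 := norm_nonneg X
  set x : E := ((m * n : ℕ) : ℝ)⁻¹ • X with hx
  have hxn : m * ‖x‖ = ‖X‖ / n := by
    rw [hx, norm_smul, Real.norm_of_nonneg (by positivity)]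
    push_cast
    field_simp
  have hdiv : ‖X‖ / n ≤ ‖X‖ := div_le_self hX0 hn1
  obtain ⟨a1, a2, a3⟩ := D.p_spec x m (by rw [hxn]; linarith)
  have e1 : D.en X (m * n) = D.p (D.p x m) n := by
    rw [en, ← hx, p, p, a1, pow_mul]
  have e2 : (m : ℝ) • x = (n : ℝ)⁻¹ • X := by
    rw [hx, smul_smul]
    congr 1
    push_cast
    field_simp
  have e3 : ‖(n : ℝ)⁻¹ • X‖ = ‖X‖ / n := by
    rw [norm_smul, Real.norm_of_nonneg (by positivity)]
    field_simp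
  have h0 : 0 ≤ ‖X‖ / n := by positivity
  have := (D.p_sub (D.p x m) ((n : ℝ)⁻¹ • X) (2 * (‖X‖ / n)) (by rw [← hxn]; linarith)
    (by rw [e3]; linarith) n (by field_simp; linarith)).2
  rw [e1, en]
  refine this.trans ?_
  rw [e2] at a2
  have e4 : D.K * m ^ 2 * ‖x‖ ^ 2 = D.K * (‖X‖ / n) ^ 2 := by rw [← hxn]; ring
  rw [e4] at a2
  calc 2 * n * ‖D.p x m - (n : ℝ)⁻¹ • X‖ ≤ 2 * n * (D.K * (‖X‖ / n) ^ 2) := by gcongr
    _ = 2 * D.K * ‖X‖ ^ 2 / n := by field_simp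

theorem cauchy_en (X : E) (hX : 2 * ‖X‖ ≤ D.R) : CauchySeq (D.en X) := by
  rw [← cauchySeq_shift 1]
  refine cauchySeq_of_le_tendsto_0 (fun N : ℕ => 4 * D.K * ‖X‖ ^ 2 * (1 / ((N : ℝ) + 1))) ?_ ?_
  · intro n m N hn hm
    have h1 := D.en_mul X hX (n := n + 1) (m := m + 1) n.succ_pos m.succ_pos
    have h2 := D.en_mul X hX (n := m + 1) (m := n + 1) m.succ_pos n.succ_pos
    rw [mul_comm (n + 1)] at h2
    have hC : 0 ≤ 2 * D.K * ‖X‖ ^ 2 := by have := D.K_pos; positivity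
    have h3 : 2 * D.K * ‖X‖ ^ 2 / ((n + 1 : ℕ) : ℝ) ≤ 2 * D.K * ‖X‖ ^ 2 / ((N : ℝ) + 1) := by
      push_cast
      gcongr
    have h4 : 2 * D.K * ‖X‖ ^ 2 / ((m + 1 : ℕ) : ℝ) ≤ 2 * D.K * ‖X‖ ^ 2 / ((N : ℝ) + 1) := by
      push_cast
      gcongr
    have h5 := dist_triangle_left (D.en X (n + 1)) (D.en X (m + 1)) (D.en X ((m + 1) * (n + 1)))
    rw [dist_eq_norm (D.en X ((m + 1) * (n + 1))), dist_eq_norm (D.en X ((m + 1) * (n + 1)))] at h5
    have h6 : 4 * D.K * ‖X‖ ^ 2 * (1 / ((N : ℝ) + 1)) =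
        2 * D.K * ‖X‖ ^ 2 / ((N : ℝ) + 1) + 2 * D.K * ‖X‖ ^ 2 / ((N : ℝ) + 1) := by ring
    linarith
  · have := (tendsto_one_div_add_atTop_nhds_zero_nat (𝕜 := ℝ)).const_mul (4 * D.K * ‖X‖ ^ 2)
    rwa [mul_zero] at this

/-- The exponential map in the chart. -/
noncomputable def e (X : E) : E := limUnder atTop (D.en X)

variable [CompleteSpace E]

theorem tendsto_en (X : E) (hX : 2 * ‖X‖ ≤ D.R) : Tendsto (D.en X) atTop (𝓝 (D.e X)) :=
  (D.cauchy_en X hX).tendsto_limUnder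

theorem e_sub (X Y : E) (ρ : ℝ) (hX : ‖X‖ ≤ ρ) (hY : ‖Y‖ ≤ ρ) (h : 2 * ρ ≤ D.R) :
    ‖D.e X - D.e Y - (X - Y)‖ ≤ 2 * D.K * ρ * ‖X - Y‖ := by
  have hρ : 0 ≤ ρ := (norm_nonneg X).trans hX
  have h1 := ((D.tendsto_en X (by linarith)).sub (D.tendsto_en Y (by linarith))).sub_const (X - Y)
  refine le_of_tendsto h1.norm ?_
  filter_upwards [eventually_gt_atTop 0] with n hn
  have hn' : (0 : ℝ) < n := Nat.cast_pos.2 hn
  have e3 : ∀ Z : E, ‖(n : ℝ)⁻¹ • Z‖ = ‖Z‖ / n := fun Z => by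
    rw [norm_smul, Real.norm_of_nonneg (by positivity)]
    field_simp
  have := (D.p_sub ((n : ℝ)⁻¹ • X) ((n : ℝ)⁻¹ • Y) (ρ / n) (by rw [e3]; gcongr)
    (by rw [e3]; gcongr) n (by field_simp; linarith)).1
  rw [← smul_sub, smul_smul, mul_inv_cancel₀ hn'.ne', one_smul, e3] at this
  refine this.trans (le_of_eq ?_)
  field_simp

theorem e_zero : D.e 0 = 0 := by
  have h1 := D.tendsto_en 0 (by simp; linarith [D.R_pos])
  have : D.en 0 = fun _ => 0 := by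
    ext n; simp [en, p, D.c_zero, D.l_one]
  rw [this] at h1
  exact tendsto_nhds_unique h1 tendsto_const_nhds

theorem e_sub_self (X : E) (h : 2 * ‖X‖ ≤ D.R) : ‖D.e X - X‖ ≤ 2 * D.K * ‖X‖ * ‖X‖ := by
  have := D.e_sub X 0 ‖X‖ le_rfl (by simp) h
  simpa [D.e_zero] using this

theorem e_lip (X Y : E) (hX : 2 * ‖X‖ ≤ D.R) (hY : 2 * ‖Y‖ ≤ D.R) :
    ‖D.e X - D.e Y‖ ≤ 2 * ‖X - Y‖ := by
  have h1 := D.e_sub X Y (D.R / 2) (by linarith) (by linarith) (by linarith)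
  have h2 := norm_add_le (D.e X - D.e Y - (X - Y)) (X - Y)
  rw [sub_add_cancel] at h2
  have h3 := D.KR
  have h4 := norm_nonneg (X - Y)
  nlinarith

theorem norm_e_le (X : E) (hX : 2 * ‖X‖ ≤ D.R) : ‖D.e X‖ ≤ 2 * ‖X‖ := by
  have := D.e_lip X 0 hX (by simp; linarith [D.R_pos])
  simpa [D.e_zero] using this

theorem tendsto_c_en (X : E) (hX : 2 * ‖X‖ ≤ D.R) :
    Tendsto (fun n : ℕ => D.c ((n : ℝ)⁻¹ • X) ^ n) atTop (𝓝 (D.c (D.e X))) := by
  have h1 := (D.cont_c (D.e X) (by linarith [D.norm_e_le X hX, D.R_pos])).tendsto.comp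
    (D.tendsto_en X hX)
  refine h1.congr' ?_
  filter_upwards [eventually_gt_atTop 0] with n hn
  exact (D.p_spec _ n (by rw [mul_norm_inv_smul X hn]; linarith [norm_nonneg X])).1

variable [IsTopologicalGroup H] [T2Space H]

theorem c_e_nsmul (X : E) (a : ℕ) (ha : 0 < a) (hX : 2 * (a * ‖X‖) ≤ D.R) :
    D.c (D.e ((a : ℝ) • X)) = D.c (D.e X) ^ a := by
  have ha' : (0 : ℝ) < a := Nat.cast_pos.2 ha
  have ha1 : (1 : ℝ) ≤ a := Nat.one_le_cast.2 ha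
  have h1 := (D.tendsto_c_en ((a : ℝ) • X)
    (by rwa [norm_smul, Real.norm_of_nonneg ha'.le])).comp (tendsto_id.atTop_mul_const' ha)
  have h2 := (D.tendsto_c_en X (by nlinarith [norm_nonneg X])).pow a
  refine tendsto_nhds_unique h1 (h2.congr' ?_)
  filter_upwards [eventually_gt_atTop 0] with n hn
  have hn' : (0 : ℝ) < n := Nat.cast_pos.2 hn
  simp only [Function.comp, id]
  rw [pow_mul, smul_smul]
  congr 4
  push_cast
  field_simp

omit [CompleteSpace E] [IsTopologicalGroup H] [T2Space H] in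
theorem neg_mul_est (x : E) (n : ℕ) (h : n * ‖x‖ ≤ D.R) :
    ‖D.l (D.c (-x) ^ n * D.c x ^ n)‖ ≤ 9 * D.K * n * ‖x‖ ^ 2 := by
  have hR := D.R_pos
  have hK := D.K_pos
  have hKR := D.KR
  have hx0 := norm_nonneg x
  induction n with
  | zero => simp [D.l_one]
  | succ n ih =>
    push_cast at h ⊢
    have hn0 : (0 : ℝ) ≤ n := n.cast_nonneg
    have h' : n * ‖x‖ ≤ D.R := by nlinarith
    have hx1 : ‖x‖ ≤ D.R := by nlinarith
    have hx : ‖x‖ ≤ 8 * D.R := by linarith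
    have hx' : ‖-x‖ ≤ 8 * D.R := by rwa [norm_neg]
    obtain ⟨a1, -, a3⟩ := D.p_spec x n h'
    obtain ⟨b1, -, b3⟩ := D.p_spec (-x) n (by rwa [norm_neg])
    rw [norm_neg] at b3
    have hpx : ‖D.p x n‖ ≤ 2 * D.R := by nlinarith
    have hpy : ‖D.p (-x) n‖ ≤ 2 * D.R := by nlinarith
    set w := D.l (D.c (-x) * D.c x) with hw
    have hw1 : D.c w = D.c (-x) * D.c x := D.c_l _ _ hx' hx
    have hw2 : ‖w‖ ≤ D.K * ‖x‖ ^ 2 := by
      have := D.est_add hx' hx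
      rw [← hw, norm_neg, sub_neg_eq_add, add_sub_cancel_right] at this
      nlinarith
    have hw3 : ‖w‖ ≤ D.R := by
      have : D.K * ‖x‖ ≤ 1 := by nlinarith
      nlinarith
    have hw0 := norm_nonneg w
    set v := D.l (D.c w * D.c (D.p x n)) with hv
    have hv1 : D.c v = D.c w * D.c (D.p x n) := D.c_l _ _ (by linarith) (by linarith)
    have hv2 : ‖v - D.p x n‖ ≤ 2 * ‖w‖ := by
      have h1 := D.est_add (x := w) (y := D.p x n) (by linarith) (by linarith)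
      rw [← hv] at h1
      have h2 := norm_add_le (v - w - D.p x n) w
      have h3 : v - w - D.p x n + w = v - D.p x n := by abel
      rw [h3] at h2
      have h4 : D.K * ‖w‖ * ‖D.p x n‖ ≤ D.K * ‖w‖ * (2 * D.R) := by gcongr
      nlinarith
    have hv3 : ‖v‖ ≤ 8 * D.R := by
      have := norm_add_le (v - D.p x n) (D.p x n)
      rw [sub_add_cancel] at this
      linarith
    have h5 := D.est_right (D.p (-x) n) v (D.p x n) (by linarith) hv3 (by linarith)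
    have e1 : D.c (D.p (-x) n) * D.c v = D.c (-x) ^ (n + 1) * D.c x ^ (n + 1) := by
      rw [hv1, hw1, a1, b1, pow_succ, pow_succ']
      group
    rw [e1, a1, b1] at h5
    have h6 := norm_add₃_le (a := D.l (D.c (-x) ^ (n + 1) * D.c x ^ (n + 1)) -
      D.l (D.c (-x) ^ n * D.c x ^ n) - (v - D.p x n)) (b := v - D.p x n)
      (c := D.l (D.c (-x) ^ n * D.c x ^ n))
    have h7 : D.l (D.c (-x) ^ (n + 1) * D.c x ^ (n + 1)) -
      D.l (D.c (-x) ^ n * D.c x ^ n) - (v - D.p x n) + (v - D.p x n) +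
      D.l (D.c (-x) ^ n * D.c x ^ n) = D.l (D.c (-x) ^ (n + 1) * D.c x ^ (n + 1)) := by abel
    rw [h7] at h6
    have h8 : D.K * ‖D.p (-x) n‖ * ‖v - D.p x n‖ ≤ D.K * (2 * D.R) * (2 * ‖w‖) := by gcongr
    have h9 := ih h'
    have h10 : D.K * (2 * D.R) * (2 * ‖w‖) ≤ ‖w‖ := by nlinarith
    have h11 : 0 ≤ D.K * ‖x‖ ^ 2 := by positivity
    nlinarith

theorem c_e_neg (X : E) (hX : 2 * ‖X‖ ≤ D.R) : D.c (D.e (-X)) * D.c (D.e X) = 1 := by
  have hR := D.R_pos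
  have hX0 := norm_nonneg X
  have h1 := (D.tendsto_c_en (-X) (by rwa [norm_neg])).mul (D.tendsto_c_en X hX)
  have h2 : Tendsto (fun n : ℕ => D.l (D.c (-((n : ℝ)⁻¹ • X)) ^ n * D.c ((n : ℝ)⁻¹ • X) ^ n))
      atTop (𝓝 0) := by
    have h3 : Tendsto (fun n : ℕ => 9 * D.K * ‖X‖ ^ 2 / n) atTop (𝓝 0) :=
      tendsto_const_div_atTop_nhds_zero_nat _
    refine squeeze_zero_norm' ?_ h3
    filter_upwards [eventually_gt_atTop 0] with n hn
    have hn' : (0 : ℝ) < n := Nat.cast_pos.2 hn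
    refine (D.neg_mul_est _ n (by rw [mul_norm_inv_smul X hn]; linarith)).trans (le_of_eq ?_)
    rw [norm_smul, Real.norm_of_nonneg (by positivity)]
    field_simp
  have h4 := (D.cont_c 0 (by simp; linarith)).tendsto.comp h2
  rw [D.c_zero] at h4
  refine tendsto_nhds_unique h1 (h4.congr' ?_)
  filter_upwards [eventually_gt_atTop 0] with n hn
  have hx := mul_norm_inv_smul X hn
  obtain ⟨a1, -, a3⟩ := D.p_spec ((n : ℝ)⁻¹ • X) n (by linarith)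
  obtain ⟨b1, -, b3⟩ := D.p_spec (-((n : ℝ)⁻¹ • X)) n (by rw [norm_neg]; linarith)
  rw [norm_neg] at b3
  simp only [Function.comp]
  rw [smul_neg, ← a1, ← b1]
  exact D.c_l _ _ (by nlinarith) (by nlinarith)

end LocData

end Pool.Agent.P.MP_7895ba_al
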