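import Pool.Agent.P.MP_7895ba_al.Adjoint
import Pool.Agent.P.MP_7895ba_al.Group

/-! Subquotients of the adjoint representation; perfect groups with solvable Lie algebra. -/

open Topology Filter Set

namespace Pool.Agent.P.MP_7895ba_al

theorem exists_subquot_map {E : Type} [NormedAddCommGroup E] [NormedSpace ℝ E]
    [FiniteDimensional ℝ E] (N₁ N₂ : Submodule ℝ E) :
    ∃ (n : ℕ) (q : E →L[ℝ] (Fin n → ℝ)), (∀ w, ∃ u ∈ N₁, q u = w) ∧
      ∀ u ∈ N₁, (q u = 0 ↔ u ∈ N₂) := by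
  let W := N₁ ⧸ N₂.comap N₁.subtype
  let e := (Module.finBasis ℝ W).equivFun
  obtain ⟨q, hq⟩ := LinearMap.exists_extend (e.toLinearMap ∘ₗ (N₂.comap N₁.subtype).mkQ)
  have hq' : ∀ u : N₁, q u = e ((N₂.comap N₁.subtype).mkQ u) := fun u =>
    DFunLike.congr_fun hq u
  refine ⟨_, q.toContinuousLinearMap, fun w => ?_, fun u hu => ?_⟩
  · obtain ⟨u, hu⟩ := (N₂.comap N₁.subtype).mkQ_surjective (e.symm w)
    exact ⟨u, u.2, (hq' u).trans (by rw [hu, e.apply_symm_apply])⟩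
  · change q (⟨u, hu⟩ : N₁) = 0 ↔ _
    rw [hq', e.map_eq_zero_iff, Submodule.mkQ_apply, Submodule.Quotient.mk_eq_zero]
    rfl

namespace ExpData

variable {E H : Type} [NormedAddCommGroup E] [NormedSpace ℝ E] [FiniteDimensional ℝ E]
  [Group H] [TopologicalSpace H] [IsTopologicalGroup H] (D : ExpData E H) [PreconnectedSpace H]

theorem exists_subquot {W : Type} [NormedAddCommGroup W] [NormedSpace ℝ W]
    [FiniteDimensional ℝ W] [CompleteSpace W] (N : Submodule ℝ E)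
    (h1 : ∀ X, ∀ u ∈ N, D.ad X u ∈ N) (q : E →L[ℝ] W) (hq : ∀ w, ∃ u ∈ N, q u = w)
    (h2 : ∀ X, ∀ u ∈ N, q u = 0 → q (D.ad X u) = 0) :
    ∃ (ρ : H →* W →L[ℝ] W) (L : E →L[ℝ] W →L[ℝ] W), Continuous ρ ∧
      (∀ X, ρ (D.exp X) = NormedSpace.exp (L X)) ∧
      (∀ g, ∀ u ∈ N, ρ g (q u) = q (D.Ad g u)) ∧ ∀ X, ∀ u ∈ N, L X (q u) = q (D.ad X u) := by
  have : CompleteSpace E := FiniteDimensional.complete ℝ E
  obtain ⟨s, hs⟩ := ((q : E →ₗ[ℝ] W) ∘ₗ N.subtype).exists_rightInverse_of_surjective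
    (LinearMap.range_eq_top.mpr fun w => by
      obtain ⟨u, hu, h⟩ := hq w
      exact ⟨⟨u, hu⟩, h⟩)
  let σ : W →L[ℝ] E := (N.subtype ∘ₗ s).toContinuousLinearMap
  have hσ1 : ∀ w, σ w ∈ N := fun w => (s w).2
  have hσ2 : ∀ w, q (σ w) = w := fun w => DFunLike.congr_fun hs w
  have hA1 := D.Ad_mem N h1
  have hA2 := D.Ad_mem (N ⊓ LinearMap.ker (q : E →ₗ[ℝ] W))
    (fun X u hu => ⟨h1 X u hu.1, h2 X u hu.1 hu.2⟩)
  have key : ∀ g, ∀ u ∈ N, q (D.Ad g (σ (q u))) = q (D.Ad g u) := by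
    intro g u hu
    have := (hA2 g (σ (q u) - u) ⟨N.sub_mem (hσ1 _) hu, by simp [hσ2]⟩).2
    simpa [sub_eq_zero] using this
  let ρ : H →* W →L[ℝ] W :=
    { toFun := fun g => q ∘L D.Ad g ∘L σ
      map_one' := by
        ext w
        simp [hσ2]
      map_mul' := fun g h => by
        ext w
        simp [key g _ (hA1 h _ (hσ1 w))] }
  have hρ : Continuous ρ := by
    have := D.continuous_Ad
    change Continuous fun g => q ∘L D.Ad g ∘L σ
    fun_prop
  obtain ⟨L, hL⟩ := D.exists_deriv_alg ρ hρ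
  refine ⟨ρ, L, hρ, hL, key, fun X u hu => ?_⟩
  have d1 := hasDerivAt_exp_smul_apply (L X) (q u)
  have d2 := q.hasFDerivAt.comp_hasDerivAt (0 : ℝ) (hasDerivAt_exp_smul_apply (D.ad X) u)
  refine d1.unique (d2.congr_of_eventuallyEq (Eventually.of_forall fun t => ?_))
  simp only [Function.comp]
  rw [← map_smul, ← hL, ← map_smul, ← D.Ad_exp]
  exact key _ u hu

/-- For a topologically perfect group the derived algebra is perfect. -/
theorem ad_mem_of_perfect (hp : (commutator H).topologicalClosure = ⊤) (N₁ N₂ : Submodule ℝ E)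
    (h1 : ∀ X Y, D.ad X Y ∈ N₁) (h2 : ∀ X, ∀ u ∈ N₂, D.ad X u ∈ N₂)
    (h3 : ∀ X ∈ N₁, ∀ u ∈ N₁, D.ad X u ∈ N₂) (X Y : E) : D.ad X Y ∈ N₂ := by
  obtain ⟨n, q, hq1, hq2⟩ := exists_subquot_map N₁ N₂
  obtain ⟨ρ, L, hρ, hL, hρq, hLq⟩ := D.exists_subquot N₁ (fun X u _ => h1 X u) q hq1
    (fun X u hu h => (hq2 _ (h1 _ _)).mpr (h2 X u ((hq2 u hu).mp h)))
  have c1 : ∀ X Y, Commute (L X) (L Y) := by
    intro X Y
    rw [commute_iff_eq, ← sub_eq_zero, ← D.deriv_ad ρ L hL]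
    ext1 w
    obtain ⟨u, hu, rfl⟩ := hq1 w
    rw [hLq _ u hu]
    exact (hq2 _ (h1 _ _)).mpr (h3 _ (h1 _ _) u hu)
  have c2 : ∀ g h, Commute (ρ g) (ρ h) := by
    intro g h
    induction g using D.induction_on with
    | hmul x y hx hy =>
      rw [map_mul]
      exact hx.mul_left hy
    | hexp X =>
      induction h using D.induction_on with
      | hmul x y hx hy =>
        rw [map_mul]
        exact hx.mul_right hy
      | hexp Y =>
        rw [hL, hL]
        exact (c1 X Y).exp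
  have c3 := eq_one_of_perfect hp ρ hρ c2
  have c4 : ∀ g, ∀ u ∈ N₁, q (D.Ad g u) = q u := fun g u hu => by
    rw [← hρq g u hu, c3]
    rfl
  have c5 : ∀ g v, D.Ad g v - v ∈ N₁ := by
    intro g
    induction g using D.induction_on with
    | hexp X =>
      intro v
      rw [D.Ad_exp]
      exact exp_apply_sub_mem _ N₁ (fun u _ => h1 X u) v (h1 X v)
    | hmul x y hx hy =>
      intro v
      have := N₁.add_mem (hx (D.Ad y v)) (hy v)
      simpa using this
  let χ : H →* Multiplicative (Fin n → ℝ) := MonoidHom.mk'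
    (fun g => Multiplicative.ofAdd (q (D.Ad g Y - Y))) (fun g h => by
      rw [← ofAdd_add, ← c4 g _ (c5 h Y), ← map_add]
      simp)
  have hχ : Continuous χ := by
    have := D.continuous_Ad_apply Y
    change Continuous fun g => Multiplicative.ofAdd (q (D.Ad g Y - Y))
    fun_prop
  have c6 := eq_one_of_perfect hp χ hχ (fun _ _ => mul_comm _ _)
  refine apply_mem_of_exp_smul_sub_mem _ _ _ fun t => ?_
  rw [← map_smul, ← D.Ad_exp]
  exact (hq2 _ (c5 _ _)).mp (ofAdd_eq_one.mp (c6 _))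

open LieAlgebra in
theorem not_isSolvable_of_perfect (hp : (commutator H).topologicalClosure = ⊤) [Nontrivial H] :
    ¬ IsSolvable D.Lie := by
  intro hs
  have := D.t2Space
  have h1 : ∀ X Y : D.Lie, ⁅X, Y⁆ ∈ derivedSeries ℝ D.Lie 2 :=
    D.ad_mem_of_perfect hp (derivedSeries ℝ D.Lie 1).toSubmodule
      (derivedSeries ℝ D.Lie 2).toSubmodule
      (fun X Y => LieSubmodule.lie_mem_lie (I := (⊤ : LieIdeal ℝ D.Lie))
        (N := (⊤ : LieIdeal ℝ D.Lie)) (x := X) (m := Y) trivial trivial)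
      (fun X u hu => (derivedSeries ℝ D.Lie 2).lie_mem (x := X) (m := u) hu)
      (fun X hX u hu => LieSubmodule.lie_mem_lie (I := derivedSeries ℝ D.Lie 1)
        (N := derivedSeries ℝ D.Lie 1) (x := X) (m := u) hX hu)
  have h2 : derivedSeries ℝ D.Lie 1 ≤ derivedSeries ℝ D.Lie 2 :=
    (LieSubmodule.lie_le_iff _ _ _).mpr fun x _ y _ => h1 x y
  have h3 : ∀ k, derivedSeries ℝ D.Lie 1 ≤ derivedSeries ℝ D.Lie k := by
    intro k
    induction k with
    | zero => exact le_top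
    | succ k ih =>
      refine h2.trans ?_
      have e : derivedSeries ℝ D.Lie 2 = derivedSeries ℝ D.Lie (1 + 1) := rfl
      rw [e]
      simp only [derivedSeries_def, derivedSeriesOfIdeal_succ] at ih ⊢
      exact LieSubmodule.mono_lie ih ih
  obtain ⟨k, hk⟩ := IsSolvable.solvable ℝ D.Lie
  have h4 : ∀ X Y : D.Lie, ⁅X, Y⁆ = 0 := by
    intro X Y
    have h5 : ⁅X, Y⁆ ∈ derivedSeries ℝ D.Lie 1 :=
      LieSubmodule.lie_mem_lie (I := (⊤ : LieIdeal ℝ D.Lie))
        (N := (⊤ : LieIdeal ℝ D.Lie)) (x := X) (m := Y) trivial trivial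
    have := h3 k h5
    rw [hk] at this
    exact this
  have c : ∀ g h : H, Commute g h := by
    intro g h
    induction g using D.induction_on with
    | hmul x y hx hy => exact hx.mul_left hy
    | hexp X =>
      induction h using D.induction_on with
      | hmul x y hx hy => exact hx.mul_right hy
      | hexp Y =>
        have h6 := D.exp_Ad (D.exp X) Y
        have h7 : D.ad X = 0 := ContinuousLinearMap.ext (h4 X)
        rw [D.Ad_exp, h7, NormedSpace.exp_zero, one_apply_eq_self, eq_mul_inv_iff_mul_eq] at h6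
        exact h6.symm
  obtain ⟨x, hx⟩ := exists_ne (1 : H)
  exact hx (eq_one_of_perfect hp (MonoidHom.id H) continuous_id c x)

end ExpData

end Pool.Agent.P.MP_7895ba_al
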