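import Pool.Agent.P.MP_7895ba_al.Adjoint

/-! Polar decomposition of automorphisms of a bilinear product on a Euclidean space. -/

open Topology Filter Set
open scoped InnerProductSpace

namespace Pool.Agent.P.MP_7895ba_al

theorem continuousAt_of_injOn_compact {X A B : Type} [TopologicalSpace X] [TopologicalSpace A]
    [TopologicalSpace B] [T2Space B] {f : A → B} (hf : Continuous f) {K : Set A}
    (hK : IsCompact K) (hinj : InjOn f K) {Y : X → A} {x : X} (hY : ∀ᶠ z in 𝓝 x, Y z ∈ K)
    (hc : ContinuousAt (fun z => f (Y z)) x) : ContinuousAt Y x := by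
  refine hK.tendsto_nhds_of_unique_mapClusterPt hY fun a ha hcl => ?_
  refine hinj ha hY.self_of_nhds ?_
  have h1 : MapClusterPt (f a) (𝓝 x) (f ∘ Y) := hcl.continuousAt_comp hf.continuousAt
  exact eq_of_nhds_neBot (h1.clusterPt.mono hc)

section alg

variable {V : Type} [NormedAddCommGroup V] [NormedSpace ℝ V]

/-- Automorphisms of a bilinear product. -/
def IsAut (μ : V →L[ℝ] V →L[ℝ] V) (g : V →L[ℝ] V) : Prop := ∀ u v, g (μ u v) = μ (g u) (g v)

/-- Derivations of a bilinear product. -/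
def IsDer (μ : V →L[ℝ] V →L[ℝ] V) (T : V →L[ℝ] V) : Prop :=
  ∀ u v, T (μ u v) = μ (T u) v + μ u (T v)

theorem IsAut.mul {μ : V →L[ℝ] V →L[ℝ] V} {g h : V →L[ℝ] V} (hg : IsAut μ g) (hh : IsAut μ h) :
    IsAut μ (g * h) := fun u v => by
  simp only [mul_apply_eq_comp]
  rw [hh, hg]

theorem isDer_of_isAut_exp [CompleteSpace V] {μ : V →L[ℝ] V →L[ℝ] V} {T : V →L[ℝ] V}
    (h : ∀ t : ℝ, IsAut μ (NormedSpace.exp (t • T))) : IsDer μ T := by
  intro u v
  have h1 := hasDerivAt_exp_smul_apply T (μ u v)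
  have h2 := (μ.hasFDerivAt.comp_hasDerivAt (0 : ℝ) (hasDerivAt_exp_smul_apply T u)).clm_apply
    (hasDerivAt_exp_smul_apply T v)
  have h3 := h1.unique (h2.congr_of_eventuallyEq (Eventually.of_forall fun t => h t u v))
  simpa using h3

theorem exp_apply_of_eigen [CompleteSpace V] (T : V →L[ℝ] V) (v : V) (a : ℝ) (h : T v = a • v) :
    NormedSpace.exp T v = Real.exp a • v := by
  have hs := (NormedSpace.exp_series_hasSum_exp' (𝕂 := ℝ) T).mapL
    (ContinuousLinearMap.apply ℝ V v)
  have hs' := (NormedSpace.exp_series_hasSum_exp' (𝕂 := ℝ) a).smul_const v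
  have hp : ∀ n : ℕ, (T ^ n) v = a ^ n • v := by
    intro n
    induction n with
    | zero => simp
    | succ n ih => rw [pow_succ', mul_apply_eq_comp, ih, map_smul, h, smul_smul, pow_succ]
  rw [Real.exp_eq_exp_ℝ]
  refine HasSum.unique ?_ hs'
  refine (hs.congr_fun fun n => ?_ :)
  simp [hp, smul_smul]

end alg

variable {V : Type} [NormedAddCommGroup V] [InnerProductSpace ℝ V] [FiniteDimensional ℝ V]
  [CompleteSpace V]

theorem exists_eigenbasis {T : V →L[ℝ] V} (hT : IsSelfAdjoint T) :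
    ∃ (b : OrthonormalBasis (Fin (Module.finrank ℝ V)) ℝ V) (a : Fin (Module.finrank ℝ V) → ℝ),
      ∀ i, T (b i) = a i • b i := by
  have h := ContinuousLinearMap.isSelfAdjoint_iff_isSymmetric.mp hT
  exact ⟨h.eigenvectorBasis rfl, h.eigenvalues rfl, fun i => h.apply_eigenvectorBasis rfl i⟩

omit [FiniteDimensional ℝ V] in
theorem inner_selfAdjoint {T : V →L[ℝ] V} (hT : IsSelfAdjoint T) (u v : V) :
    ⟪T u, v⟫_ℝ = ⟪u, T v⟫_ℝ :=
  ContinuousLinearMap.isSelfAdjoint_iff_isSymmetric.mp hT u v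

theorem exp_injOn_selfAdjoint :
    InjOn (NormedSpace.exp : (V →L[ℝ] V) → V →L[ℝ] V) {T | IsSelfAdjoint T} := by
  intro S hS T hT h
  obtain ⟨b, a, hb⟩ := exists_eigenbasis hS
  obtain ⟨c, e, hc⟩ := exists_eigenbasis hT
  have hST : IsSelfAdjoint (NormedSpace.exp S) := IsSelfAdjoint.exp hS
  refine ContinuousLinearMap.coe_injective (b.toBasis.ext fun i => ?_)
  refine InnerProductSpace.ext_inner_right_basis c.toBasis fun j => ?_
  simp only [OrthonormalBasis.coe_toBasis, ContinuousLinearMap.coe_coe]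
  have h1 := inner_selfAdjoint hST (b i) (c j)
  rw [exp_apply_of_eigen S _ _ (hb i), h, exp_apply_of_eigen T _ _ (hc j), real_inner_smul_left,
    real_inner_smul_right] at h1
  rw [inner_selfAdjoint hT, hb, hc, real_inner_smul_left, real_inner_smul_right]
  rcases mul_eq_mul_right_iff.mp h1 with h2 | h2
  · rw [Real.exp_injective h2]
  · rw [h2, mul_zero, mul_zero]

theorem norm_le_of_selfAdjoint {T : V →L[ℝ] V} (hT : IsSelfAdjoint T) {C : ℝ}
    (h1 : ‖NormedSpace.exp T‖ ≤ C) (h2 : ‖NormedSpace.exp (-T)‖ ≤ C) :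
    ‖T‖ ≤ Module.finrank ℝ V * C := by
  obtain ⟨b, a, hb⟩ := exists_eigenbasis hT
  have hC : 0 ≤ C := (norm_nonneg _).trans h1
  have key : ∀ (S : V →L[ℝ] V) (i) (x : ℝ), S (b i) = x • b i → ‖NormedSpace.exp S‖ ≤ C →
      x ≤ C := by
    intro S i x hx hS
    have h3 := (NormedSpace.exp S).le_opNorm (b i)
    rw [exp_apply_of_eigen S _ _ hx, norm_smul, b.norm_eq_one, Real.norm_of_nonneg
      (Real.exp_pos x).le] at h3
    have := Real.add_one_le_exp x
    linarith
  have ha : ∀ i, |a i| ≤ C := fun i => abs_le.mpr ⟨by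
    have := key (-T) i (-a i) (by simp [hb]) h2
    linarith, key T i _ (hb i) h1⟩
  refine ContinuousLinearMap.opNorm_le_bound _ (by positivity) fun v => ?_
  conv_lhs => rw [← b.sum_repr' v]
  rw [map_sum]
  refine (norm_sum_le _ _).trans ?_
  have : ∀ i ∈ Finset.univ, ‖T (⟪b i, v⟫_ℝ • b i)‖ ≤ C * ‖v‖ := by
    intro i _
    rw [map_smul, hb, norm_smul, norm_smul, b.norm_eq_one, mul_one, mul_comm]
    have h4 := norm_inner_le_norm (𝕜 := ℝ) (b i) v
    rw [b.norm_eq_one, one_mul] at h4
    exact mul_le_mul (ha i) h4 (norm_nonneg _) hC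
  refine (Finset.sum_le_sum this).trans ?_
  simp [mul_assoc]

theorem exists_log (μ : V →L[ℝ] V →L[ℝ] V) {P : V →L[ℝ] V} (hP : IsSelfAdjoint P)
    (hpos : ∀ v, v ≠ 0 → 0 < ⟪P v, v⟫_ℝ) (haut : IsAut μ P) :
    ∃ Y : V →L[ℝ] V, IsSelfAdjoint Y ∧ IsDer μ Y ∧ NormedSpace.exp Y = P := by
  obtain ⟨b, a, hb⟩ := exists_eigenbasis hP
  have ha : ∀ i, 0 < a i := fun i => by
    have := hpos (b i) (b.orthonormal.ne_zero i)
    rwa [hb, real_inner_smul_left, real_inner_self_eq_norm_sq, b.norm_eq_one, one_pow,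
      mul_one] at this
  let Y : V →L[ℝ] V := (b.toBasis.constr ℝ fun i => Real.log (a i) • b i).toContinuousLinearMap
  have hY : ∀ i, Y (b i) = Real.log (a i) • b i := fun i => by
    simp [Y]
  have hYs : IsSelfAdjoint Y := by
    rw [ContinuousLinearMap.isSelfAdjoint_iff_isSymmetric,
      LinearMap.isSymmetric_iff_isSelfAdjoint, LinearMap.isSelfAdjoint_iff', eq_comm,
      LinearMap.eq_adjoint_iff_basis b.toBasis b.toBasis]
    intro i j
    simp only [OrthonormalBasis.coe_toBasis, ContinuousLinearMap.coe_coe, hY,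
      real_inner_smul_left, real_inner_smul_right]
    by_cases hij : i = j
    · rw [hij]
    · rw [b.orthonormal.inner_eq_zero hij, mul_zero, mul_zero]
  refine ⟨Y, hYs, ?_, ?_⟩
  · have key : ∀ i j, Y (μ (b i) (b j)) = μ (Y (b i)) (b j) + μ (b i) (Y (b j)) := by
      intro i j
      refine InnerProductSpace.ext_inner_right_basis b.toBasis fun k => ?_
      simp only [OrthonormalBasis.coe_toBasis]
      have h1 := inner_selfAdjoint hP (μ (b i) (b j)) (b k)
      rw [haut, hb, hb, hb] at h1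
      simp only [map_smul, smul_apply, real_inner_smul_left, real_inner_smul_right] at h1
      rw [inner_selfAdjoint hYs, hY, hY, hY]
      simp only [map_smul, smul_apply, real_inner_smul_left, real_inner_smul_right,
        inner_add_left]
      rw [← mul_assoc] at h1
      rcases mul_eq_mul_right_iff.mp h1 with h2 | h2
      · rw [← h2, Real.log_mul (ha j).ne' (ha i).ne']
        ring
      · rw [h2]
        ring
    intro u v
    rw [← b.sum_repr' u, ← b.sum_repr' v]
    simp only [map_sum, map_smul, sum_apply, smul_apply, key, smul_add, Finset.sum_add_distrib,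
      Finset.smul_sum]
  · refine ContinuousLinearMap.coe_injective (b.toBasis.ext fun i => ?_)
    simp only [OrthonormalBasis.coe_toBasis, ContinuousLinearMap.coe_coe]
    rw [exp_apply_of_eigen Y _ _ (hY i), Real.exp_log (ha i), hb]

/-- Continuous logarithm of the positive part. -/
theorem exists_polar (μ : V →L[ℝ] V →L[ℝ] V) {X : Type} [TopologicalSpace X]
    (g g' : X → V →L[ℝ] V) (hg : Continuous g) (hg' : Continuous g')
    (hinv : ∀ x, g x * g' x = 1) (hinv' : ∀ x, g' x * g x = 1)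
    (haut : ∀ x, IsAut μ (star (g x) * g x)) :
    ∃ Y : X → V →L[ℝ] V, Continuous Y ∧ ∀ x, IsSelfAdjoint (Y x) ∧ IsDer μ (Y x) ∧
      NormedSpace.exp (Y x) = star (g x) * g x := by
  have key : ∀ x, ∃ Y : V →L[ℝ] V, IsSelfAdjoint Y ∧ IsDer μ Y ∧
      NormedSpace.exp Y = star (g x) * g x := by
    intro x
    refine exists_log μ (IsSelfAdjoint.star_mul_self _) (fun v hv => ?_) (haut x)
    rw [mul_apply_eq_comp, ContinuousLinearMap.star_eq_adjoint,
      ContinuousLinearMap.adjoint_inner_left, real_inner_self_pos]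
    intro h0
    apply hv
    have := DFunLike.congr_fun (hinv' x) v
    rw [mul_apply_eq_comp, h0, map_zero] at this
    exact this.symm
  choose Y hY1 hY2 hY3 using key
  refine ⟨Y, ?_, fun x => ⟨hY1 x, hY2 x, hY3 x⟩⟩
  have hY4 : ∀ x, NormedSpace.exp (-Y x) = g' x * star (g' x) := by
    intro x
    have h1 := exp_neg_mul_exp (Y x)
    have h2 : star (g x) * g x * (g' x * star (g' x)) = 1 := by
      rw [mul_assoc, ← mul_assoc (g x), hinv, one_mul, ← star_mul, hinv', star_one]
    rw [hY3] at h1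
    exact left_inv_eq_right_inv h1 h2
  rw [continuous_iff_continuousAt]
  intro x
  have hc1 : Continuous fun z => star (g z) * g z := by fun_prop
  have hc2 : Continuous fun z => g' z * star (g' z) := by fun_prop
  set C := ‖star (g x) * g x‖ + ‖g' x * star (g' x)‖ + 1 with hC
  have e1 : ∀ᶠ z in 𝓝 x, ‖star (g z) * g z‖ < C :=
    hc1.norm.continuousAt.eventually_lt_const (by
      have := norm_nonneg (g' x * star (g' x))
      linarith)
  have e2 : ∀ᶠ z in 𝓝 x, ‖g' z * star (g' z)‖ < C :=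
    hc2.norm.continuousAt.eventually_lt_const (by
      have := norm_nonneg (star (g x) * g x)
      linarith)
  have hK : IsCompact (Metric.closedBall (0 : V →L[ℝ] V) (Module.finrank ℝ V * C) ∩
      {T | IsSelfAdjoint T}) :=
    (isCompact_closedBall _ _).inter_right (isClosed_eq continuous_star continuous_id)
  refine continuousAt_of_injOn_compact continuous_exp_real hK
    (exp_injOn_selfAdjoint.mono inter_subset_right) ?_ ?_
  · filter_upwards [e1, e2] with z h1 h2
    refine ⟨mem_closedBall_zero_iff.mpr (norm_le_of_selfAdjoint (hY1 z) ?_ ?_), hY1 z⟩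
    · rw [hY3]
      exact h1.le
    · rw [hY4]
      exact h2.le
  · simp only [hY3]
    exact hc1.continuousAt

end Pool.Agent.P.MP_7895ba_al
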