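import Pool.Agent.P.MP_7895ba_al.Polar
import Pool.Agent.P.MP_7895ba_al.Cartan

/-! A non-solvable Lie algebra has a semisimple quotient with a compatible inner product. -/

open Topology Filter Set
open scoped InnerProductSpace

namespace Pool.Agent.P.MP_7895ba_al

/-- A semisimple Lie bracket on a Euclidean space, compatible with the inner product. -/
structure SS (V : Type) [NormedAddCommGroup V] [InnerProductSpace ℝ V] [CompleteSpace V] where
  μ : V →L[ℝ] V →L[ℝ] V
  anti : ∀ u v, μ u v = -μ v u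
  perfect : ∀ U : Submodule ℝ V, (∀ u v, μ u v ∈ U) → U = ⊤
  inner_der : ∀ T, IsDer μ T → ∃ v, μ v = T
  star_mem : ∀ x, ∃ y, star (μ x) = μ y

theorem exists_euclidean (L : Type) [AddCommGroup L] [Module ℝ L] [Module.Finite ℝ L]
    (B : LinearMap.BilinForm ℝ L) (hB : ∀ u v, B u v = B v u) (hpos : ∀ u, u ≠ 0 → 0 < B u u) :
    ∃ (V : Type) (_ : NormedAddCommGroup V) (_ : InnerProductSpace ℝ V)
      (_ : FiniteDimensional ℝ V) (e : L ≃ₗ[ℝ] V), ∀ u v, ⟪e u, e v⟫_ℝ = B u v := by
  let c : InnerProductSpace.Core ℝ L :=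
    { inner := fun u v => B u v
      conj_inner_symm := fun u v => by simpa using hB v u
      re_inner_nonneg := fun u => by
        by_cases hu : u = 0
        · simp [hu]
        · simpa using (hpos u hu).le
      add_left := fun u v w => by simp
      smul_left := fun u v r => by simp
      definite := fun u hu => by
        by_contra h
        exact (hpos u h).ne' hu }
  let n : NormedAddCommGroup L := c.toNormedAddCommGroup (𝕜 := ℝ)
  let i : InnerProductSpace ℝ L := InnerProductSpace.ofCore c.toCore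
  exact ⟨L, n, i, ‹Module.Finite ℝ L›, LinearEquiv.refl ℝ L, fun u v => rfl⟩

open LieAlgebra in
theorem hasTrivialRadical_quotient (L : Type) [LieRing L] [LieAlgebra ℝ L] [Module.Finite ℝ L]
    {L' : Type} [LieRing L'] [LieAlgebra ℝ L'] (π : L →ₗ⁅ℝ⁆ L') (hπ : Function.Surjective π)
    (hker : π.ker = radical ℝ L) : HasTrivialRadical ℝ L' := by
  refine hasTrivialRadical_of_no_solvable_ideals fun I hI => ?_
  obtain ⟨k, hk⟩ := IsSolvable.solvable ℝ I
  obtain ⟨l, hl⟩ := IsSolvable.solvable ℝ (radical ℝ L)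
  rw [LieIdeal.derivedSeries_eq_bot_iff] at hk hl
  set J := I.comap π with hJ
  have h1 : ∀ n, (derivedSeriesOfIdeal ℝ L n J).map π ≤ derivedSeriesOfIdeal ℝ L' n I := by
    intro n
    induction n with
    | zero => exact LieIdeal.map_comap_le
    | succ n ih =>
      simp only [derivedSeriesOfIdeal_succ]
      exact le_trans (LieIdeal.map_bracket_le π) (LieSubmodule.mono_lie ih ih)
  have h2 : derivedSeriesOfIdeal ℝ L k J ≤ radical ℝ L := by
    rw [← hker, ← LieIdeal.map_eq_bot_iff, ← le_bot_iff, ← hk]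
    exact h1 k
  have h3 : IsSolvable J := by
    refine IsSolvable.mk (R := ℝ) (k := l + k) ?_
    rw [LieIdeal.derivedSeries_eq_bot_iff, derivedSeriesOfIdeal_add, ← le_bot_iff, ← hl]
    exact derivedSeriesOfIdeal_mono h2 l
  have h4 : J ≤ π.ker := by
    rw [hker]
    exact (LieIdeal.solvable_iff_le_radical ℝ L J).mp h3
  rw [eq_bot_iff]
  intro x hx
  obtain ⟨y, rfl⟩ := hπ x
  exact h4 (show y ∈ J from hx)

open LieAlgebra in
theorem exists_killing_quotient (L : Type) [LieRing L] [LieAlgebra ℝ L] [Module.Finite ℝ L]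
    (h : ¬ IsSolvable L) :
    ∃ (L' : Type) (_ : LieRing L') (_ : LieAlgebra ℝ L') (_ : Module.Finite ℝ L')
      (_ : IsKilling ℝ L') (π : L →ₗ⁅ℝ⁆ L'), Nontrivial L' ∧ Function.Surjective π := by
  let L' := L ⧸ radical ℝ L
  let π : L →ₗ⁅ℝ⁆ L' :=
    { (radical ℝ L).toSubmodule.mkQ with map_lie' := fun {x y} => rfl }
  have hπ : Function.Surjective π := Quot.mk_surjective
  have hker : π.ker = radical ℝ L := by
    ext x
    exact LieSubmodule.Quotient.mk_eq_zero'
  have : Module.Finite ℝ L' := Module.Finite.of_surjective (π : L →ₗ[ℝ] L') hπ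
  have := hasTrivialRadical_quotient L π hπ hker
  have hnt : Nontrivial L' := by
    by_contra hcon
    rw [not_nontrivial_iff_subsingleton] at hcon
    apply h
    have h1 : radical ℝ L = ⊤ := by
      rw [← hker, eq_top_iff]
      intro x _
      exact Subsingleton.elim _ _
    have h2 : IsSolvable (⊤ : LieIdeal ℝ L) := h1 ▸ radicalIsSolvable ℝ L
    exact (solvable_iff_equiv_solvable LieIdeal.topEquiv).mp h2
  exact ⟨L', inferInstance, inferInstance, inferInstance, inferInstance, π, hnt, hπ⟩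

open LieAlgebra in
theorem exists_SS (L : Type) [LieRing L] [LieAlgebra ℝ L] [Module.Finite ℝ L]
    (h : ¬ IsSolvable L) :
    ∃ (V : Type) (_ : NormedAddCommGroup V) (_ : InnerProductSpace ℝ V)
      (_ : FiniteDimensional ℝ V) (_ : CompleteSpace V) (S : SS V) (q : L →ₗ[ℝ] V),
      Nontrivial V ∧ Function.Surjective q ∧ ∀ x y, q ⁅x, y⁆ = S.μ (q x) (q y) := by
  obtain ⟨L', _, _, _, _, π, hnt, hπ⟩ := exists_killing_quotient L h
  obtain ⟨B, hB, hpos, hstar⟩ := exists_inner_ad_selfAdjoint L'
  obtain ⟨V, _, _, _, e, he⟩ := exists_euclidean L' B hB hpos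
  have : CompleteSpace V := FiniteDimensional.complete ℝ V
  let μ₀ : V →ₗ[ℝ] V →ₗ[ℝ] V := LinearMap.mk₂ ℝ (fun u v => e ⁅e.symm u, e.symm v⁆)
    (fun _ _ _ => by simp) (fun _ _ _ => by simp) (fun _ _ _ => by simp) (fun _ _ _ => by simp)
  let μ : V →L[ℝ] V →L[ℝ] V :=
    ((LinearMap.toContinuousLinearMap (𝕜 := ℝ) (E := V) (F' := V)).toLinearMap ∘ₗ
      μ₀).toContinuousLinearMap
  have hμ : ∀ u v, μ u v = e ⁅e.symm u, e.symm v⁆ := fun u v => rfl
  refine ⟨V, inferInstance, inferInstance, inferInstance, inferInstance,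
    ⟨μ, fun u v => ?_, fun U hU => ?_, fun T hT => ?_, fun x => ?_⟩,
    e.toLinearMap ∘ₗ (π : L →ₗ[ℝ] L'), e.symm.nontrivial, e.surjective.comp hπ, fun x y => ?_⟩
  · rw [hμ, hμ, ← map_neg, lie_skew]
  · by_contra hne
    obtain ⟨l, hl0, hl⟩ := Submodule.exists_le_ker_of_lt_top _ (lt_top_iff_ne_top.mpr hne)
    have hnd := IsKilling.killingForm_nondegenerate ℝ L'
    let x := ((killingForm ℝ L').toDual hnd).symm (l ∘ₗ e.toLinearMap)
    have hx : ∀ y, killingForm ℝ L' x y = l (e y) := fun y =>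
      LinearMap.BilinForm.apply_toDual_symm_apply (hB := hnd) _ y
    have h1 : ∀ y : L', ⁅x, y⁆ = 0 := by
      intro y
      apply hnd.1
      intro z
      rw [LieModule.traceForm_apply_lie_apply, hx]
      have := hl (hU (e y) (e z))
      simpa [hμ] using this
    have h2 : x = 0 := by
      rw [← LieDerivation.IsKilling.ad_apply_eq_zero_iff ℝ L']
      ext y
      simp [h1]
    apply hl0
    ext v
    have := hx (e.symm v)
    simpa [h2] using this.symm
  · let δ : LieDerivation ℝ L' L' :=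
      { toLinearMap := e.symm.toLinearMap ∘ₗ (T : V →ₗ[ℝ] V) ∘ₗ e.toLinearMap
        leibniz' := fun a b => by
          have := hT (e a) (e b)
          simp only [hμ, LinearEquiv.symm_apply_apply] at this
          simp only [LinearMap.coe_comp, LinearEquiv.coe_coe, ContinuousLinearMap.coe_coe,
            Function.comp_apply, this, map_add, LinearEquiv.symm_apply_apply]
          rw [← lie_skew (e.symm (T (e a))) b]
          abel }
    obtain ⟨x, hx⟩ := LieDerivation.IsKilling.exists_eq_ad δ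
    refine ⟨e x, ?_⟩
    ext v
    have := DFunLike.congr_fun hx (e.symm v)
    rw [LieDerivation.ad_apply_apply] at this
    rw [hμ, LinearEquiv.symm_apply_apply, this]
    change e (e.symm (T (e (e.symm v)))) = T v
    simp
  · obtain ⟨y, hy⟩ := hstar (e.symm x)
    refine ⟨e y, ?_⟩
    rw [ContinuousLinearMap.star_eq_adjoint, eq_comm, ContinuousLinearMap.eq_adjoint_iff]
    intro u v
    rw [hμ, hμ, LinearEquiv.symm_apply_apply]
    conv_lhs => rw [← e.apply_symm_apply v, he, hB, ← hy, hB, ← he, e.apply_symm_apply]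
  · simp [hμ]

end Pool.Agent.P.MP_7895ba_al
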