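import Pool.Agent.P.MP_7895ba_al.Perfect
import Pool.Agent.P.MP_7895ba_al.SemiAlg

/-! The structure of topologically perfect connected groups needed for the shrinking step. -/

open Topology Filter Set
open scoped InnerProductSpace

namespace Pool.Agent.P.MP_7895ba_al

variable {V : Type} [NormedAddCommGroup V] [InnerProductSpace ℝ V] [FiniteDimensional ℝ V]
  [CompleteSpace V] (S : SS V)
  {E H : Type} [NormedAddCommGroup E] [NormedSpace ℝ E] [FiniteDimensional ℝ E]
  [Group H] [TopologicalSpace H] [IsTopologicalGroup H]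

/-- A representation by automorphisms whose derivative is onto the inner derivations. -/
structure Good (D : ExpData E H) (ρ : H →* V →L[ℝ] V) (L : E →L[ℝ] V →L[ℝ] V) : Prop where
  cont : Continuous ρ
  aut : ∀ g, IsAut S.μ (ρ g)
  deriv : ∀ X, ρ (D.exp X) = NormedSpace.exp (L X)
  surj : ∀ v, ∃ X, L X = S.μ v

omit [FiniteDimensional ℝ V] [FiniteDimensional ℝ E] [IsTopologicalGroup H] in
theorem exists_eq_mu {D : ExpData E H} {ρ : H →* V →L[ℝ] V} {L : E →L[ℝ] V →L[ℝ] V}
    (haut : ∀ g, IsAut S.μ (ρ g)) (hL : ∀ X, ρ (D.exp X) = NormedSpace.exp (L X)) (X : E) :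
    ∃ v, S.μ v = L X :=
  S.inner_der _ (isDer_of_isAut_exp fun t => by
    rw [← map_smul, ← hL]
    exact haut _)

variable {S}

namespace Good

variable {D : ExpData E H} {ρ : H →* V →L[ℝ] V} {L : E →L[ℝ] V →L[ℝ] V}

section two

variable {E' H' : Type} [NormedAddCommGroup E'] [NormedSpace ℝ E'] [FiniteDimensional ℝ E']
  [Group H'] [TopologicalSpace H'] [IsTopologicalGroup H'] (D' : ExpData E' H')

omit [FiniteDimensional ℝ E] [IsTopologicalGroup H] in
/-- Goodness passes to the source of a homomorphism with dense range. -/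
theorem comp (h : Good S D ρ L) [PreconnectedSpace H'] (p : H' →* H) (hp : Continuous p)
    (hd : DenseRange p) : ∃ L', Good S D' (ρ.comp p) L' := by
  obtain ⟨L', hL'⟩ := D'.exists_deriv_alg (ρ.comp p) (h.cont.comp hp)
  have haut : ∀ g, IsAut S.μ (ρ.comp p g) := fun g => h.aut _
  let U : Submodule ℝ V := (LinearMap.range (L' : E' →ₗ[ℝ] V →L[ℝ] V)).comap
    (S.μ : V →ₗ[ℝ] V →L[ℝ] V)
  have hU : ∀ u, u ∈ U ↔ ∃ X, L' X = S.μ u := fun u => Iff.rfl
  have hUc : IsClosed (U : Set V) := U.closed_of_finiteDimensional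
  have h1 : ∀ g, ∀ u ∈ U, ρ g u ∈ U := by
    intro g u hu
    refine hd.induction_on (p := fun g => ρ g u ∈ U) g ?_ fun k => ?_
    · have := h.cont
      exact hUc.preimage (by fun_prop)
    · obtain ⟨X, hX⟩ := (hU u).mp hu
      refine (hU _).mpr ⟨D'.Ad k X, ?_⟩
      rw [D'.deriv_Ad (ρ.comp p) L' hL', hX]
      ext w
      simp only [mul_apply_eq_comp]
      rw [haut k, ← mul_apply_eq_comp (ρ.comp p k), ← map_mul, mul_inv_cancel, map_one]
      rfl
  have h2 : ∀ v, ∀ u ∈ U, S.μ v u ∈ U := by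
    intro v u hu
    obtain ⟨X, hX⟩ := h.surj v
    rw [← hX]
    refine apply_mem_of_exp_smul_sub_mem _ _ _ fun t => U.sub_mem ?_ hu
    rw [← map_smul, ← h.deriv]
    exact h1 _ u hu
  have h3 : ∀ X v, L' X v ∈ U := by
    intro X v
    obtain ⟨u, hu⟩ := exists_eq_mu S haut hL' X
    rw [← hu, S.anti]
    exact U.neg_mem (h2 v u ((hU u).mpr ⟨X, hu.symm⟩))
  have h4 : ∀ k v, ρ (p k) v - v ∈ U := by
    intro k
    induction k using D'.induction_on with
    | hexp X =>
      intro v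
      have := exp_apply_sub_mem (L' X) U (fun u _ => h3 X u) v (h3 X v)
      rwa [← hL'] at this
    | hmul x y hx hy =>
      intro v
      have := U.add_mem (hx (ρ (p y) v)) (hy v)
      simpa using this
  have h5 : ∀ g v, ρ g v - v ∈ U := by
    intro g v
    refine hd.induction_on (p := fun g => ρ g v - v ∈ U) g ?_ fun k => h4 k v
    have := h.cont
    exact hUc.preimage (by fun_prop)
  have h6 : U = ⊤ := by
    refine S.perfect U fun u v => ?_
    obtain ⟨X, hX⟩ := h.surj u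
    rw [← hX]
    refine apply_mem_of_exp_smul_sub_mem _ _ _ fun t => ?_
    rw [← map_smul, ← h.deriv]
    exact h5 _ v
  exact ⟨L', h.cont.comp hp, haut, hL', fun v => (hU v).mp (h6 ▸ Submodule.mem_top)⟩

omit [FiniteDimensional ℝ E] [FiniteDimensional ℝ V] [FiniteDimensional ℝ E']
  [IsTopologicalGroup H'] in
theorem exists_eq (h : Good S D ρ L) [PreconnectedSpace H] {ρ' : H' →* V →L[ℝ] V}
    {L' : E' →L[ℝ] V →L[ℝ] V} (h' : Good S D' ρ' L') (g : H) : ∃ g', ρ' g' = ρ g := by
  induction g using D.induction_on with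
  | hexp X =>
    obtain ⟨v, hv⟩ := exists_eq_mu S h.aut h.deriv X
    obtain ⟨X', hX'⟩ := h'.surj v
    exact ⟨D'.exp X', by rw [h'.deriv, h.deriv, hX', hv]⟩
  | hmul x y hx hy =>
    obtain ⟨x', hx⟩ := hx
    obtain ⟨y', hy⟩ := hy
    exact ⟨x' * y', by rw [map_mul, map_mul, hx, hy]⟩

end two

omit [FiniteDimensional ℝ E] [FiniteDimensional ℝ V] in
theorem exists_eq_star (h : Good S D ρ L) [PreconnectedSpace H] (g : H) :
    ∃ g', ρ g' = star (ρ g) := by
  induction g using D.induction_on with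
  | hexp X =>
    obtain ⟨v, hv⟩ := exists_eq_mu S h.aut h.deriv X
    obtain ⟨w, hw⟩ := S.star_mem v
    obtain ⟨X', hX'⟩ := h.surj w
    exact ⟨D.exp X', by rw [h.deriv, h.deriv, NormedSpace.star_exp, hX', ← hv, hw]⟩
  | hmul x y hx hy =>
    obtain ⟨x', hx⟩ := hx
    obtain ⟨y', hy⟩ := hy
    exact ⟨y' * x', by rw [map_mul, map_mul, hx, hy, star_mul]⟩

end Good

/-- The preimage of the orthogonal group. -/
def orth {H : Type} [Group H] (ρ : H →* V →L[ℝ] V) : Subgroup H where
  carrier := {g | star (ρ g) * ρ g = 1}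
  one_mem' := by simp
  mul_mem' := by
    intro a b ha hb
    simp only [mem_ofPred_eq, map_mul, star_mul] at ha hb ⊢
    rw [mul_assoc, ← mul_assoc (star (ρ a)), ha, one_mul, hb]
  inv_mem' := by
    intro a ha
    simp only [mem_ofPred_eq] at ha ⊢
    have h1 : ρ a * ρ a⁻¹ = 1 := by rw [← map_mul, mul_inv_cancel, map_one]
    have h2 : star (ρ a) = ρ a⁻¹ := left_inv_eq_right_inv ha h1
    rw [← h2, star_star, h2, h1]

namespace Good

variable {D : ExpData E H} {ρ : H →* V →L[ℝ] V} {L : E →L[ℝ] V →L[ℝ] V}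

theorem isPreconnected_orth (h : Good S D ρ L) [PreconnectedSpace H] :
    IsPreconnected (orth ρ : Set H) := by
  obtain ⟨Y, hYc, hY⟩ := exists_polar S.μ (fun g : H => ρ g) (fun g => ρ g⁻¹) h.cont
    (h.cont.comp continuous_inv) (fun g => by rw [← map_mul, mul_inv_cancel, map_one])
    (fun g => by rw [← map_mul, inv_mul_cancel, map_one]) (fun g => by
      obtain ⟨g', hg'⟩ := h.exists_eq_star g
      rw [← hg']
      exact (h.aut _).mul (h.aut _))
  obtain ⟨s, hs⟩ := (L : E →ₗ[ℝ] V →L[ℝ] V).rangeRestrict.exists_rightInverse_of_surjective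
    (L : E →ₗ[ℝ] V →L[ℝ] V).range_rangeRestrict
  obtain ⟨σ, hσ⟩ := LinearMap.exists_extend s
  have hσc : Continuous σ := σ.continuous_of_finiteDimensional
  have key : ∀ g, L (σ (Y g)) = Y g := by
    intro g
    obtain ⟨v, hv⟩ := S.inner_der _ (hY g).2.1
    obtain ⟨X, hX⟩ := h.surj v
    have h1 : σ (Y g) = s ⟨Y g, X, hX.trans hv⟩ := DFunLike.congr_fun hσ ⟨Y g, X, hX.trans hv⟩
    rw [h1]
    exact congrArg Subtype.val (DFunLike.congr_fun hs ⟨Y g, X, hX.trans hv⟩)
  have : (orth ρ : Set H) = range fun g : H => g * D.exp ((-(1 / 2) : ℝ) • σ (Y g)) := by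
    ext g
    constructor
    · intro hg
      refine ⟨g, ?_⟩
      have h1 : Y g = 0 := exp_injOn_selfAdjoint (hY g).1 (IsSelfAdjoint.zero _) (by
        rw [(hY g).2.2, NormedSpace.exp_zero]
        exact hg)
      simp [h1, D.exp_zero]
    · rintro ⟨k, rfl⟩
      change star (ρ _) * ρ _ = 1
      rw [map_mul, h.deriv, map_smul, key, star_mul, NormedSpace.star_exp, star_smul,
        (hY k).1.star_eq, star_trivial, mul_assoc, ← mul_assoc (star (ρ k)), ← (hY k).2.2]
      have h2 : NormedSpace.exp (Y k) = NormedSpace.exp ((1 : ℝ) • Y k) := by rw [one_smul]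
      rw [h2, ← exp_add_smul_real (V →L[ℝ] V), ← exp_add_smul_real (V →L[ℝ] V)]
      norm_num
  rw [this]
  have := D.continuous_exp
  exact isPreconnected_range (by fun_prop)

omit [FiniteDimensional ℝ E] [IsTopologicalGroup H] in
theorem orth_ne_top (h : Good S D ρ L) {x : V} (hx : star (S.μ x) ≠ -S.μ x) : orth ρ ≠ ⊤ := by
  intro htop
  obtain ⟨y, hy⟩ := S.star_mem x
  obtain ⟨X, hX⟩ := h.surj (x + y)
  have hsa : IsSelfAdjoint (L X) := by
    rw [hX, map_add, ← hy]
    exact IsSelfAdjoint.add_star_self _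
  have h1 : D.exp X ∈ orth ρ := htop ▸ Subgroup.mem_top _
  have h2 : star (ρ (D.exp X)) * ρ (D.exp X) = 1 := h1
  have h3 : NormedSpace.exp (L X) = NormedSpace.exp ((1 : ℝ) • L X) := by rw [one_smul]
  rw [h.deriv, NormedSpace.star_exp, hsa.star_eq, h3, ← exp_add_smul_real (V →L[ℝ] V)] at h2
  have h4 : ((1 : ℝ) + 1) • L X = 0 := exp_injOn_selfAdjoint
    (IsSelfAdjoint.smul (star_trivial _) hsa) (IsSelfAdjoint.zero _) (by
      rw [h2, NormedSpace.exp_zero])
  have h5 : L X = 0 := (smul_eq_zero.mp h4).resolve_left (by norm_num)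
  rw [hX, map_add, ← hy] at h5
  exact hx (eq_neg_of_add_eq_zero_right h5)

omit [FiniteDimensional ℝ V] [FiniteDimensional ℝ E] [IsTopologicalGroup H] in
theorem ker_ne_top (h : Good S D ρ L) [Nontrivial V] : ρ.ker ≠ ⊤ := by
  intro htop
  have h1 : ∀ v, S.μ v = 0 := by
    intro v
    obtain ⟨X, hX⟩ := h.surj v
    rw [← hX]
    apply eq_of_forall_exp_smul_alg
    intro t
    rw [← map_smul, ← h.deriv, smul_zero, NormedSpace.exp_zero]
    exact (htop ▸ Subgroup.mem_top _ : D.exp (t • X) ∈ ρ.ker)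
  exact bot_ne_top (S.perfect ⊥ fun u v => by simp [h1])

theorem exists_compact_mul_ker (h : Good S D ρ L) [PreconnectedSpace H]
    (hskew : ∀ x, star (S.μ x) = -S.μ x) :
    ∃ Q : Set H, IsCompact Q ∧ ∀ g : H, ∃ q ∈ Q, q⁻¹ * g ∈ ρ.ker := by
  have := D.locallyCompactSpace
  have horth : ∀ g, g ∈ orth ρ := by
    intro g
    induction g using D.induction_on with
    | hexp X =>
      obtain ⟨v, hv⟩ := exists_eq_mu S h.aut h.deriv X
      change star (ρ _) * ρ _ = 1
      rw [h.deriv, NormedSpace.star_exp, ← hv, hskew, exp_neg_mul_exp]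
    | hmul x y hx hy => exact (orth ρ).mul_mem hx hy
  let A := V →L[ℝ] V
  let Aut : Subgroup Aˣ :=
    { carrier := {u | IsAut S.μ (u : A)}
      one_mem' := fun u v => rfl
      mul_mem' := fun ha hb => IsAut.mul ha hb
      inv_mem' := by
        intro a ha u v
        have h1 : ∀ w, (a : A) ((a⁻¹ : Aˣ).val w) = w := fun w => by
          rw [← mul_apply_eq_comp, Units.mul_inv]
          rfl
        have h2 : ∀ w, (a⁻¹ : Aˣ).val ((a : A) w) = w := fun w => by
          rw [← mul_apply_eq_comp, Units.inv_mul]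
          rfl
        conv_lhs => rw [← h1 u, ← h1 v, ← ha, h2] }
  have hAut : IsClosed (Aut : Set Aˣ) := by
    have : (Aut : Set Aˣ) =
        ⋂ u, ⋂ v, {a : Aˣ | (a : A) (S.μ u v) = S.μ ((a : A) u) ((a : A) v)} := by
      ext a
      simp only [mem_iInter]
      rfl
    rw [this]
    have := Units.continuous_val (M := A)
    exact isClosed_iInter fun u => isClosed_iInter fun v =>
      isClosed_eq (by fun_prop) (by fun_prop)
  let f : H →* Aut := ρ.toHomUnits.codRestrict Aut h.aut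
  have hf0 : Continuous ρ.toHomUnits :=
    Units.continuous_iff.mpr ⟨h.cont, h.cont.comp continuous_inv⟩
  have hf : Continuous f := hf0.subtype_mk _
  let D' := (unitsData A).sub Aut hAut
  obtain ⟨L', hL'⟩ := D.exists_deriv D' f hf
  have hL'L : ∀ X, (L' X : A) = L X := by
    intro X
    apply eq_of_forall_exp_smul_alg
    intro t
    have := congrArg (fun a : Aut => ((a : Aˣ) : A)) (hL' (t • X))
    rw [← map_smul, ← h.deriv]
    simp only [map_smul] at this
    exact this.symm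
  have hsurj : Function.Surjective L' := by
    intro T
    obtain ⟨v, hv⟩ := S.inner_der T (isDer_of_isAut_exp fun t => T.2 t)
    obtain ⟨X, hX⟩ := h.surj v
    exact ⟨X, Subtype.ext (by rw [hL'L, hX, hv])⟩
  have : CompleteSpace E := FiniteDimensional.complete ℝ E
  have hLo : IsOpenMap L' := L'.isOpenMap hsurj
  have hopen1 : ∀ U ∈ 𝓝 (1 : H), f '' U ∈ 𝓝 (1 : Aut) := by
    intro U hU
    have h1 : D.exp ⁻¹' U ∈ 𝓝 (0 : E) := D.tendsto_exp_zero hU
    have h2 := hLo.image_mem_nhds h1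
    rw [map_zero] at h2
    refine mem_of_superset (D'.nhds_le (image_mem_map h2)) ?_
    rintro _ ⟨_, ⟨X, hX, rfl⟩, rfl⟩
    exact ⟨_, hX, hL' X⟩
  have hopen : ∀ x, ∀ U ∈ 𝓝 x, f '' U ∈ 𝓝 (f x) := by
    intro x U hU
    have h1 : (fun y => x * y) ⁻¹' U ∈ 𝓝 (1 : H) :=
      (continuous_const_mul x).continuousAt.preimage_mem_nhds (by simpa using hU)
    have h2 := hopen1 _ h1
    have h3 : (fun a => (f x)⁻¹ * a) ⁻¹' (f '' ((fun y => x * y) ⁻¹' U)) ∈ 𝓝 (f x) :=
      (continuous_const_mul (f x)⁻¹).continuousAt.preimage_mem_nhds (by simpa using h2)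
    refine mem_of_superset h3 ?_
    rintro a ⟨y, hy, hya⟩
    exact ⟨x * y, hy, by rw [map_mul, hya, mul_inv_cancel_left]⟩
  have hro : IsOpen (f.range : Set Aut) :=
    Subgroup.isOpen_of_mem_nhds _ (g := 1) (by simpa using hopen1 univ univ_mem)
  have hrc : IsClosed (f.range : Set Aut) := Subgroup.isClosed_of_isOpen _ hro
  have hK : IsCompact {a : A | star a * a = 1 ∧ a * star a = 1} := by
    refine Metric.isCompact_of_isClosed_isBounded
      ((isClosed_eq (by fun_prop) continuous_const).inter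
        (isClosed_eq (by fun_prop) continuous_const)) ?_
    refine (Metric.isBounded_closedBall (x := (0 : A)) (r := 1)).subset fun a ha => ?_
    rw [mem_closedBall_zero_iff]
    have h1 := CStarRing.norm_star_mul_self (x := a)
    rw [ha.1] at h1
    have h2 : ‖(1 : A)‖ ≤ 1 := ContinuousLinearMap.norm_id_le
    nlinarith [norm_nonneg a]
  have hK' : IsCompact ((Units.val : Aˣ → A) ⁻¹' {a : A | star a * a = 1 ∧ a * star a = 1}) := by
    rw [Units.isOpenEmbedding_val.isInducing.isCompact_iff, image_preimage_eq_of_subset]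
    · exact hK
    · exact fun a ha => ⟨⟨a, star a, ha.2, ha.1⟩, rfl⟩
  have hK'' := hAut.isClosedEmbedding_subtypeVal.isCompact_preimage hK'
  have hcomp : IsCompact (f.range : Set Aut) := by
    refine hK''.of_isClosed_subset hrc ?_
    rintro _ ⟨g, rfl⟩
    have h1 : star (ρ g) * ρ g = 1 := horth g
    have h2 : ρ g * ρ g⁻¹ = 1 := by rw [← map_mul, mul_inv_cancel, map_one]
    refine ⟨h1, ?_⟩
    change ρ g * star (ρ g) = 1
    rw [left_inv_eq_right_inv h1 h2, h2]
  obtain ⟨Q, hQ, hQ'⟩ := exists_compact_cover f _ hcomp (by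
    rintro _ ⟨x, rfl⟩
    exact ⟨x, fun U hU => mem_nhdsWithin_of_mem_nhds (hopen x U hU)⟩)
  refine ⟨Q, hQ, fun g => ?_⟩
  obtain ⟨q, hq, hqg⟩ := hQ' ⟨g, rfl⟩
  have h1 : ρ q = ρ g := congrArg (fun a : Aut => ((a : Aˣ) : A)) hqg
  exact ⟨q, hq, by rw [MonoidHom.mem_ker, map_mul, ← h1, ← map_mul, inv_mul_cancel, map_one]⟩

end Good

theorem exists_good (D : ExpData E H) [PreconnectedSpace H]
    (hp : (commutator H).topologicalClosure = ⊤) [Nontrivial H] :
    ∃ (V : Type) (_ : NormedAddCommGroup V) (_ : InnerProductSpace ℝ V)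
      (_ : FiniteDimensional ℝ V) (_ : CompleteSpace V) (S : SS V) (ρ : H →* V →L[ℝ] V)
      (L : E →L[ℝ] V →L[ℝ] V), Nontrivial V ∧ Good S D ρ L := by
  obtain ⟨V, _, _, _, _, S, q₀, hnt, hq₀, hq₀'⟩ :=
    exists_SS D.Lie (D.not_isSolvable_of_perfect hp)
  let q : E →L[ℝ] V := LinearMap.toContinuousLinearMap (E := E) q₀
  have hq : Function.Surjective q := hq₀
  have hq' : ∀ X Y : E, q (D.ad X Y) = S.μ (q X) (q Y) := hq₀'
  obtain ⟨ρ, L, hρ, hL, hρq, hLq⟩ := D.exists_subquot ⊤ (fun _ _ _ => trivial) q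
    (fun w => by simpa using hq w) (fun X u _ h => by rw [hq', h, map_zero])
  refine ⟨V, inferInstance, inferInstance, inferInstance, inferInstance, S, ρ, L, hnt,
    hρ, fun g u v => ?_, hL, fun v => ?_⟩
  · obtain ⟨X, rfl⟩ := hq u
    obtain ⟨Y, rfl⟩ := hq v
    rw [← hq', hρq g _ trivial, hρq g _ trivial, hρq g _ trivial, D.Ad_ad, hq']
  · obtain ⟨X, rfl⟩ := hq v
    refine ⟨X, ?_⟩
    ext w
    obtain ⟨Y, rfl⟩ := hq w
    rw [hLq X _ trivial, hq']

end Pool.Agent.P.MP_7895ba_al
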