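import Pool.Agent.P.MP_7895ba_al.Zorn
import Pool.Agent.P.MP_7895ba_al.Structure

/-! Every inverse system of cosets of closed connected subgroups of Lie groups has a thread. -/

open Topology Filter Set

namespace Pool.Agent.P.MP_7895ba_al

namespace InvSys

variable {J : Type} [Preorder J] {G : J → Type} [∀ j, Group (G j)]
  [∀ j, TopologicalSpace (G j)] [∀ j, IsTopologicalGroup (G j)] (T : InvSys J G)
  {E : J → Type} [∀ j, NormedAddCommGroup (E j)] [∀ j, NormedSpace ℝ (E j)]
  [∀ j, FiniteDimensional ℝ (E j)] (D : ∀ j, ExpData (E j) (G j)) [IsDirectedOrder J]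

include D in
theorem exists_thread {C₀ : ∀ j, Set (G j)} (h₀ : T.Sys C₀) :
    ∃ x : ∀ j, G j, (∀ j, x j ∈ C₀ j) ∧ ∀ i j (h : i ≤ j), T.p h (x j) = x i := by
  obtain ⟨C, hC0, hC, hmin⟩ := T.exists_minimal D h₀
  choose c K hKc hKp hK using hC.1
  have hpre : ∀ j, PreconnectedSpace (K j) := fun j => Subtype.preconnectedSpace (hKp j)
  let DK : ∀ j, ExpData ((D j).lie (K j) (hKc j)) (K j) := fun j => (D j).sub (K j) (hKc j)
  have hcont : ∀ {i j : J} (h : i ≤ j), Continuous (T.res hC hK h) := T.continuous_res hC hK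
  have hdense : ∀ {i j : J} (h : i ≤ j), DenseRange (T.res hC hK h) :=
    T.denseRange_res D hC hmin hK
  -- no real characters
  have hR : ∀ j (χ : K j →* Multiplicative ℝ), Continuous χ → χ = 1 := by
    intro i₀ χ hχ
    by_contra hne
    have h1 : ∀ j (h : i₀ ≤ j), χ.comp (T.res hC hK h) ≠ 1 := by
      intro j h h1
      apply hne
      ext1 k
      refine (hdense h).induction_on (p := fun k => χ k = 1) k
        (isClosed_eq hχ continuous_const) fun a => DFunLike.congr_fun h1 a
    have h2 := fun j (h : i₀ ≤ j) =>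
      (DK j).ker_real_character (χ.comp (T.res hC hK h)) (hχ.comp (hcont h)) (h1 j h)
    have h3 := T.shrink_retract D hC hmin hK hKc i₀ χ.ker (isClosed_singleton.preimage hχ)
      (fun j h => (h2 j h).1) (fun j h k₀ => by
        obtain ⟨k, hk⟩ := (h2 j h).2 (χ k₀)⁻¹
        refine ⟨k, ?_⟩
        rw [MonoidHom.mem_ker, map_mul]
        exact mul_eq_one_iff_eq_inv'.mpr hk)
    exact hne (MonoidHom.ker_eq_top_iff.mp h3)
  -- topologically perfect
  have hperf : ∀ j, (commutator (K j)).topologicalClosure = ⊤ := fun j =>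
    T.shrink_compact D hC hmin hK hKc j (fun j _ => (commutator (K j)).topologicalClosure)
      (fun j _ => Subgroup.isClosed_topologicalClosure _) (fun j _ => isPreconnected_commutator)
      (fun j _ => (DK j).exists_compact_mul_commutator (hR j))
      (fun i j _ _ h x hx => map_mem_commutator _ (hcont h) hx) j le_rfl
  -- trivial
  have htriv : ∀ j, Subsingleton (K j) := by
    intro i₀
    by_contra hnt
    rw [not_subsingleton_iff_nontrivial] at hnt
    obtain ⟨V, _, _, _, _, S, ρ, L, hV, hgood⟩ := exists_good (DK i₀) (hperf i₀)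
    choose L' hL' using fun j (h : i₀ ≤ j) => hgood.comp (DK j) _ (hcont h) (hdense h)
    by_cases hskew : ∀ x, star (S.μ x) = -S.μ x
    · have hkc : ∀ j (h : i₀ ≤ j), IsClosed ((ρ.comp (T.res hC hK h)).ker : Set (K j)) :=
        fun j h => isClosed_singleton.preimage (hL' j h).cont
      have h1 := T.shrink_compact D hC hmin hK hKc i₀
        (fun j h => idComp (ρ.comp (T.res hC hK h)).ker)
        (fun j h => isClosed_idComp (hkc j h)) (fun j h => isPreconnected_idComp _)
        (fun j h => by
          obtain ⟨Q, hQ, hQ'⟩ := (hL' j h).exists_compact_mul_ker hskew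
          exact (DK j).exists_compact_mul_idComp (hR j) _ (hkc j h) Q hQ hQ')
        (fun i j hi hj h x hx => map_mem_idComp _ (hcont h) (fun y hy => by
          have e : T.res hC hK hi (T.res hC hK h y) = T.res hC hK hj y :=
            Subtype.ext (T.trans _ _ _)
          change ρ (T.res hC hK hi (T.res hC hK h y)) = 1
          rw [e]
          exact hy) hx) i₀ le_rfl
      exact (hL' i₀ le_rfl).ker_ne_top (top_le_iff.mp (h1 ▸ idComp_le _))
    · push Not at hskew
      obtain ⟨x, hx⟩ := hskew
      have hoc : IsClosed (orth ρ : Set (K i₀)) := by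
        have := hgood.cont
        exact isClosed_eq (by fun_prop) continuous_const
      refine hgood.orth_ne_top hx (T.shrink_retract D hC hmin hK hKc i₀ (orth ρ) hoc
        (fun j h => (hL' j h).isPreconnected_orth) fun j h k₀ => ?_)
      obtain ⟨k, hk⟩ := hgood.exists_eq (DK j) (hL' j h) k₀⁻¹
      refine ⟨k, ?_⟩
      have h2 : ρ (k₀ * T.res hC hK h k) = 1 := by
        rw [map_mul]
        change ρ k₀ * ρ.comp (T.res hC hK h) k = 1
        rw [hk, ← map_mul, mul_inv_cancel, map_one]
      change star (ρ _) * ρ _ = 1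
      rw [h2, star_one, mul_one]
  refine ⟨c, fun j => hC0 j ((hK j _).mpr (by simp)), fun i j h => ?_⟩
  have h1 : (⟨_, T.base_mem hC hK h⟩ : K i) = 1 := Subsingleton.elim _ _
  exact (inv_mul_eq_one.mp (congrArg Subtype.val h1)).symm

end InvSys

end Pool.Agent.P.MP_7895ba_al
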