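import Pool.Agent.P.MP_7895ba_al.Group

/-! Minimal inverse systems of cosets of closed connected subgroups, and the shrinking steps. -/

open Topology Filter Set

namespace Pool.Agent.P.MP_7895ba_al

section CC

variable {H : Type} [Group H] [TopologicalSpace H] [IsTopologicalGroup H]

/-- Left cosets of closed connected subgroups. -/
def CC (C : Set H) : Prop := ∃ (c : H) (K : Subgroup H), IsClosed (K : Set H) ∧
  IsPreconnected (K : Set H) ∧ ∀ x, x ∈ C ↔ c⁻¹ * x ∈ K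

theorem CC.isClosed {C : Set H} (h : CC C) : IsClosed C := by
  obtain ⟨c, K, hK, -, h⟩ := h
  have : C = (fun x => c⁻¹ * x) ⁻¹' K := Set.ext h
  rw [this]
  exact hK.preimage (by fun_prop)

omit [IsTopologicalGroup H] in
theorem CC.closure_image {H' : Type} [Group H'] [TopologicalSpace H'] [IsTopologicalGroup H']
    {C : Set H} (h : CC C) (f : H →* H') (hf : Continuous f) : CC (closure (f '' C)) := by
  obtain ⟨c, K, -, hK, h⟩ := h
  refine ⟨f c, (K.map f).topologicalClosure, Subgroup.isClosed_topologicalClosure _,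
    (hK.image f hf.continuousOn).closure, fun x => ⟨fun hx => ?_, fun hx => ?_⟩⟩
  · refine map_mem_closure (f := fun x => (f c)⁻¹ * x) (by fun_prop) hx ?_
    rintro _ ⟨y, hy, rfl⟩
    exact ⟨c⁻¹ * y, (h y).mp hy, by simp⟩
  · have := map_mem_closure (f := fun x => f c * x) (t := f '' C) (by fun_prop) hx (by
      rintro _ ⟨y, hy, rfl⟩
      exact ⟨c * y, (h _).mpr (by simpa using hy), by simp⟩)
    simpa using this

theorem ExpData.exists_least {E : Type} [NormedAddCommGroup E] [NormedSpace ℝ E]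
    [FiniteDimensional ℝ E] (D : ExpData E H) {ι : Type} [Nonempty ι] (C : ι → Set H)
    (hC : ∀ a, CC (C a)) (hdir : ∀ a b, ∃ c, C c ⊆ C a ∧ C c ⊆ C b) : ∃ a, ∀ b, C a ⊆ C b := by
  choose c K hK hK' h using hC
  obtain ⟨a, ha⟩ := exists_minimalFor_of_wellFoundedLT (fun _ : ι => True)
    (fun a => Module.finrank ℝ (D.lie (K a) (hK a))) ⟨Classical.arbitrary ι, trivial⟩
  refine ⟨a, fun b => ?_⟩
  obtain ⟨e, hea, heb⟩ := hdir a b
  have h1 : (c a)⁻¹ * c e ∈ K a := (h a _).mp (hea ((h e _).mpr (by simp)))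
  have h2 : K e ≤ K a := fun k hk => by
    have h3 : (c a)⁻¹ * (c e * k) ∈ K a := (h a _).mp (hea ((h e _).mpr (by simpa using hk)))
    have := (K a).mul_mem ((K a).inv_mem h1) h3
    simpa [mul_assoc] using this
  have h4 : K e = K a := D.eq_of_finrank_le (hK e) (hK a) (hK' a) h2
    (not_lt.mp fun hlt => absurd (ha.2 trivial hlt.le) (not_le.mpr hlt))
  refine Subset.trans (fun x hx => (h e x).mpr ?_) heb
  rw [h4]
  have := (K a).mul_mem ((K a).inv_mem h1) ((h a x).mp hx)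
  simpa [mul_assoc] using this

end CC

/-- An inverse system of groups with exponential maps. -/
structure InvSys (J : Type) [Preorder J] (G : J → Type) [∀ j, Group (G j)]
    [∀ j, TopologicalSpace (G j)] where
  p : ∀ {i j : J}, i ≤ j → G j →* G i
  cont : ∀ {i j : J} (h : i ≤ j), Continuous (p h)
  refl : ∀ (i : J) (x : G i), p (le_refl i) x = x
  trans : ∀ {i j k : J} (h : i ≤ j) (h' : j ≤ k) (x : G k), p h (p h' x) = p (h.trans h') x

namespace InvSys

variable {J : Type} [Preorder J] {G : J → Type} [∀ j, Group (G j)]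
  [∀ j, TopologicalSpace (G j)] [∀ j, IsTopologicalGroup (G j)] (T : InvSys J G)
  {E : J → Type} [∀ j, NormedAddCommGroup (E j)] [∀ j, NormedSpace ℝ (E j)]
  [∀ j, FiniteDimensional ℝ (E j)] (D : ∀ j, ExpData (E j) (G j))

/-- Compatible families of cosets. -/
def Sys (C : ∀ j, Set (G j)) : Prop :=
  (∀ j, CC (C j)) ∧ ∀ i j (h : i ≤ j), MapsTo (T.p h) (C j) (C i)

include D in
theorem exists_minimal {C₀ : ∀ j, Set (G j)} (h₀ : T.Sys C₀) :
    ∃ C, C ≤ C₀ ∧ T.Sys C ∧ ∀ C', T.Sys C' → C' ≤ C → C ≤ C' := by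
  suffices h : ∀ c ⊆ {C : (∀ j, Set (G j))ᵒᵈ | T.Sys C}, IsChain (· ≤ ·) c → ∀ y ∈ c,
      ∃ ub ∈ {C : (∀ j, Set (G j))ᵒᵈ | T.Sys C}, ∀ z ∈ c, z ≤ ub by
    obtain ⟨m, hm0, hm⟩ := zorn_le_nonempty₀ _ h C₀ h₀
    exact ⟨m, hm0, hm.prop, fun C' h1 h2 => hm.le_of_ge h1 h2⟩
  intro c hc hchain y hy
  have : Nonempty c := ⟨⟨y, hy⟩⟩
  refine ⟨fun j => ⋂ C : c, C.1 j, ⟨fun j => ?_, fun i j h x hx => ?_⟩, fun z hz j => ?_⟩
  · obtain ⟨a, ha⟩ := (D j).exists_least (fun C : c => C.1 j) (fun C => (hc C.2).1 j)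
      (fun a b => by
        rcases hchain.total a.2 b.2 with h | h
        · exact ⟨b, h j, Subset.rfl⟩
        · exact ⟨a, Subset.rfl, h j⟩)
    have : (⋂ C : c, C.1 j) = a.1 j := Subset.antisymm (iInter_subset _ a) (subset_iInter ha)
    change CC (⋂ C : c, C.1 j)
    rw [this]
    exact (hc a.2).1 j
  · exact mem_iInter.mpr fun C => (hc C.2).2 i j h (mem_iInter.mp hx C)
  · exact iInter_subset (fun C : c => C.1 j) ⟨z, hz⟩

variable [IsDirectedOrder J] {C : ∀ j, Set (G j)} (hC : T.Sys C)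
  (hmin : ∀ C', T.Sys C' → C' ≤ C → C ≤ C')

include D hC hmin in
theorem subset_closure_of_minimal (i₀ : J) (C' : ∀ j, i₀ ≤ j → Set (G j))
    (h1 : ∀ j h, CC (C' j h)) (h2 : ∀ j h, C' j h ⊆ C j)
    (h3 : ∀ i j hi hj (h : i ≤ j), MapsTo (T.p h) (C' j hj) (C' i hi))
    (i j : J) (h : i ≤ j) (hj : i₀ ≤ j) : C i ⊆ closure (T.p h '' C' j hj) := by
  have hne : ∀ i, Nonempty {j // i ≤ j ∧ i₀ ≤ j} := fun i => by
    obtain ⟨j, hj⟩ := exists_ge_ge i i₀
    exact ⟨⟨j, hj⟩⟩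
  have hmono : ∀ i (a b : {j // i ≤ j ∧ i₀ ≤ j}), a.1 ≤ b.1 →
      closure (T.p b.2.1 '' C' b.1 b.2.2) ⊆ closure (T.p a.2.1 '' C' a.1 a.2.2) := by
    intro i a b hab
    refine closure_mono ?_
    rintro _ ⟨x, hx, rfl⟩
    exact ⟨T.p hab x, h3 _ _ _ _ hab hx, T.trans _ _ _⟩
  let C'' : ∀ i, Set (G i) := fun i =>
    ⋂ a : {j // i ≤ j ∧ i₀ ≤ j}, closure (T.p a.2.1 '' C' a.1 a.2.2)
  have hsys : T.Sys C'' := by
    refine ⟨fun i => ?_, fun i j h x hx => mem_iInter.mpr fun a => ?_⟩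
    · obtain ⟨a, ha⟩ := (D i).exists_least
        (fun a : {j // i ≤ j ∧ i₀ ≤ j} => closure (T.p a.2.1 '' C' a.1 a.2.2))
        (fun a => (h1 _ _).closure_image _ (T.cont _)) (fun a b => by
          obtain ⟨k, hk1, hk2⟩ := exists_ge_ge a.1 b.1
          exact ⟨⟨k, a.2.1.trans hk1, a.2.2.trans hk1⟩, hmono i _ _ hk1, hmono i _ _ hk2⟩)
      have : C'' i = closure (T.p a.2.1 '' C' a.1 a.2.2) :=
        Subset.antisymm (iInter_subset _ a) (subset_iInter ha)
      rw [this]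
      exact (h1 _ _).closure_image _ (T.cont _)
    · obtain ⟨k, hk1, hk2⟩ := exists_ge_ge a.1 j
      refine hmono i a ⟨k, a.2.1.trans hk1, a.2.2.trans hk1⟩ hk1 ?_
      refine map_mem_closure (T.cont h) (mem_iInter.mp hx ⟨k, hk2, a.2.2.trans hk1⟩) ?_
      rintro _ ⟨y, hy, rfl⟩
      exact ⟨y, hy, (T.trans _ _ _).symm⟩
  have hle : C'' ≤ C := by
    intro i
    obtain ⟨a⟩ := hne i
    refine (iInter_subset _ a).trans (closure_minimal ?_ (hC.1 i).isClosed)
    rintro _ ⟨y, hy, rfl⟩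
    exact hC.2 _ _ _ (h2 _ _ hy)
  exact fun x hx => mem_iInter.mp (hmin C'' hsys hle i hx) ⟨j, h, hj⟩

include D hC hmin in
theorem subset_of_minimal (i₀ : J) (C' : ∀ j, i₀ ≤ j → Set (G j))
    (h1 : ∀ j h, CC (C' j h)) (h2 : ∀ j h, C' j h ⊆ C j)
    (h3 : ∀ i j hi hj (h : i ≤ j), MapsTo (T.p h) (C' j hj) (C' i hi))
    (j : J) (hj : i₀ ≤ j) : C j ⊆ C' j hj := by
  refine (T.subset_closure_of_minimal D hC hmin i₀ C' h1 h2 h3 j j le_rfl hj).trans
    (closure_minimal ?_ (h1 j hj).isClosed)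
  rintro _ ⟨y, hy, rfl⟩
  rwa [T.refl]

variable {c : ∀ j, G j} {K : ∀ j, Subgroup (G j)} (hK : ∀ j x, x ∈ C j ↔ (c j)⁻¹ * x ∈ K j)

omit [∀ j, IsTopologicalGroup (G j)] [IsDirectedOrder J] in
include hC hK in
theorem base_mem {i j : J} (h : i ≤ j) : (c i)⁻¹ * T.p h (c j) ∈ K i :=
  (hK i _).mp (hC.2 i j h ((hK j _).mpr (by simp)))

omit [∀ j, IsTopologicalGroup (G j)] [IsDirectedOrder J] in
include hC hK in
theorem map_mem {i j : J} (h : i ≤ j) {k : G j} (hk : k ∈ K j) : T.p h k ∈ K i := by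
  have h1 := (hK i _).mp (hC.2 i j h ((hK j (c j * k)).mpr (by simpa using hk)))
  have := (K i).mul_mem ((K i).inv_mem (T.base_mem hC hK h)) h1
  simpa [mul_assoc] using this

/-- The bonding maps restricted to the subgroups. -/
def res {i j : J} (h : i ≤ j) : K j →* K i :=
  ((T.p h).comp (K j).subtype).codRestrict (K i) fun k => T.map_mem hC hK h k.2

omit [∀ j, IsTopologicalGroup (G j)] [IsDirectedOrder J] in
theorem res_coe {i j : J} (h : i ≤ j) (k : K j) : (T.res hC hK h k : G i) = T.p h k := rfl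

omit [∀ j, IsTopologicalGroup (G j)] [IsDirectedOrder J] in
theorem continuous_res {i j : J} (h : i ≤ j) : Continuous (T.res hC hK h) :=
  ((T.cont h).comp continuous_subtype_val).subtype_mk _

include D hmin in
theorem denseRange_res {i j : J} (h : i ≤ j) : DenseRange (T.res hC hK h) := by
  intro k
  rw [IsInducing.subtypeVal.closure_eq_preimage_closure_image]
  have h1 := T.subset_closure_of_minimal D hC hmin i (fun j _ => C j) (fun j _ => hC.1 j)
    (fun _ _ => Subset.rfl) (fun i j _ _ h => hC.2 i j h) i j h h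
  have h2 : T.p h (c j) * k ∈ C i := by
    rw [hK, ← mul_assoc]
    exact (K i).mul_mem (T.base_mem hC hK h) k.2
  have := map_mem_closure (f := fun x => (T.p h (c j))⁻¹ * x)
    (t := Subtype.val '' range (T.res hC hK h)) (by fun_prop) (h1 h2) (by
      rintro _ ⟨y, hy, rfl⟩
      exact ⟨_, ⟨⟨(c j)⁻¹ * y, (hK j y).mp hy⟩, rfl⟩, by simp [res_coe]⟩)
  simp only [inv_mul_cancel_left] at this
  exact this

variable (hKc : ∀ j, IsClosed (K j : Set (G j)))

include D hmin hKc in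
theorem shrink_retract (i₀ : J) (M : Subgroup (K i₀)) (hM : IsClosed (M : Set (K i₀)))
    (h1 : ∀ j (h : i₀ ≤ j), IsPreconnected (M.comap (T.res hC hK h) : Set (K j)))
    (h2 : ∀ j (h : i₀ ≤ j) (k₀ : K i₀), ∃ k, k₀ * T.res hC hK h k ∈ M) : M = ⊤ := by
  let C' : ∀ j, i₀ ≤ j → Set (G j) := fun j h =>
    {x | x ∈ C j ∧ (c i₀)⁻¹ * T.p h x ∈ M.map (K i₀).subtype}
  have key := T.subset_of_minimal D hC hmin i₀ C' (fun j h => ?_) (fun j h x hx => hx.1)
    (fun i j hi hj h x hx => ⟨hC.2 i j h hx.1, by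
      rw [T.trans]
      exact hx.2⟩) i₀ le_rfl
  · rw [eq_top_iff]
    intro k _
    have h3 := (key ((hK i₀ (c i₀ * k)).mpr (by simp))).2
    rw [T.refl, inv_mul_cancel_left] at h3
    obtain ⟨m, hm, hmk⟩ := h3
    rwa [← Subtype.ext hmk]
  obtain ⟨k, hk⟩ := h2 j h ⟨_, T.base_mem hC hK h⟩
  refine ⟨c j * k, (M.comap (T.res hC hK h)).map (K j).subtype, ?_, ?_, fun x => ⟨?_, ?_⟩⟩
  · exact (hKc j).isClosedEmbedding_subtypeVal.isClosedMap _
      (hM.preimage (T.continuous_res hC hK h))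
  · exact (h1 j h).image _ continuous_subtype_val.continuousOn
  · rintro ⟨hx, m, hm, hmx⟩
    refine ⟨k⁻¹ * ⟨_, (hK j x).mp hx⟩, ?_, by simp [mul_assoc]⟩
    have := M.mul_mem (M.inv_mem hk) hm
    change T.res hC hK h _ ∈ M
    convert this using 1
    apply Subtype.ext
    have hmx' : (m : G i₀) = (c i₀)⁻¹ * T.p h x := hmx
    simp [res_coe, hmx', mul_assoc]
  · rintro ⟨m, hm, hmx⟩
    have hmx' : (m : G j) = (c j * k)⁻¹ * x := hmx
    have hx : x = c j * k * m := by simp [hmx', mul_assoc]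
    refine ⟨(hK j x).mpr ?_, _, M.mul_mem hk hm, ?_⟩
    · rw [hx, mul_assoc, inv_mul_cancel_left]
      exact (K j).mul_mem k.2 m.2
    · simp [hx, res_coe, mul_assoc]

include D hmin hKc in
theorem shrink_compact (i₀ : J) (M : ∀ j, i₀ ≤ j → Subgroup (K j))
    (hM : ∀ j h, IsClosed (M j h : Set (K j))) (hM' : ∀ j h, IsPreconnected (M j h : Set (K j)))
    (h1 : ∀ j h, ∃ Q : Set (K j), IsCompact Q ∧ ∀ x, ∃ q ∈ Q, q⁻¹ * x ∈ M j h)
    (h2 : ∀ i j hi hj (h : i ≤ j), ∀ x ∈ M j hj, T.res hC hK h x ∈ M i hi)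
    (j : J) (hj : i₀ ≤ j) : M j hj = ⊤ := by
  classical
  choose Q hQ hQM using h1
  let N : ∀ j, i₀ ≤ j → Subgroup (G j) := fun j h => (M j h).map (K j).subtype
  have hN : ∀ j h, IsClosed (N j h : Set (G j)) := fun j h =>
    (hKc j).isClosedEmbedding_subtypeVal.isClosedMap _ (hM j h)
  have hNp : ∀ i j hi hj (h : i ≤ j), ∀ x ∈ N j hj, T.p h x ∈ N i hi := by
    rintro i j hi hj h _ ⟨x, hx, rfl⟩
    exact ⟨_, h2 i j hi hj h x hx, rfl⟩
  have hcomp : IsCompact (Set.pi univ fun a : {j // i₀ ≤ j} =>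
      (fun q : K a.1 => c a.1 * q) '' Q a.1 a.2) :=
    isCompact_univ_pi fun a => (hQ a.1 a.2).image (by fun_prop)
  obtain ⟨x, hx1, hx2⟩ := hcomp.inter_iInter_nonempty
    (fun b : {b : {j // i₀ ≤ j} × {j // i₀ ≤ j} // b.1.1 ≤ b.2.1} =>
      {x : ∀ a : {j // i₀ ≤ j}, G a.1 | (x b.1.1)⁻¹ * T.p b.2 (x b.1.2) ∈ N _ b.1.1.2})
    (fun b => (hN _ _).preimage (by
      have := T.cont b.2
      fun_prop)) (fun u => by
      have : Nonempty J := ⟨i₀⟩
      obtain ⟨m, hm⟩ := (u.image fun b => b.1.2.1).exists_le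
      let y : ∀ j, G j := fun j => if h : j ≤ m then T.p h (c m) else c j
      have hy : ∀ j, (c j)⁻¹ * y j ∈ K j := fun j => by
        simp only [y]
        split_ifs with h
        · exact T.base_mem hC hK h
        · simp
      choose q hq hqM using fun a : {j // i₀ ≤ j} => hQM a.1 a.2 ⟨_, hy a.1⟩
      have hq' : ∀ a : {j // i₀ ≤ j}, (c a.1 * q a)⁻¹ * y a.1 ∈ N a.1 a.2 := fun a =>
        ⟨_, hqM a, by simp [mul_assoc]⟩
      refine ⟨fun a => c a.1 * q a, fun a _ => ⟨q a, hq a, rfl⟩, mem_iInter₂.mpr fun b hb => ?_⟩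
      have hb2 : b.1.2.1 ≤ m := hm _ (Finset.mem_image_of_mem _ hb)
      have e : T.p b.2 (y b.1.2.1) = y b.1.1.1 := by
        simp only [y, dif_pos hb2, dif_pos (b.2.trans hb2), T.trans]
      have := (N _ b.1.1.2).mul_mem (hq' b.1.1)
        ((N _ b.1.1.2).inv_mem (hNp _ _ _ _ b.2 _ (hq' b.1.2)))
      rw [map_mul, e] at this
      simpa [mul_assoc] using this)
  have hxC : ∀ a : {j // i₀ ≤ j}, (c a.1)⁻¹ * x a ∈ K a.1 := fun a => by
    obtain ⟨q, -, hq⟩ := hx1 a (mem_univ a)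
    rw [← hq]
    simp
  have key := T.subset_of_minimal D hC hmin i₀ (fun j h => {z | (x ⟨j, h⟩)⁻¹ * z ∈ N j h})
    (fun j h => ⟨x ⟨j, h⟩, N j h, hN j h, (hM' j h).image _ continuous_subtype_val.continuousOn,
      fun _ => Iff.rfl⟩)
    (fun j h z hz => by
      obtain ⟨m, -, hm⟩ := hz
      have hm' : (m : G j) = (x ⟨j, h⟩)⁻¹ * z := hm
      have := (K j).mul_mem (hxC ⟨j, h⟩) m.2
      rw [hK]
      simpa [hm', mul_assoc] using this)
    (fun i j hi hj h z hz => by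
      have h3 := mem_iInter.mp hx2 ⟨(⟨i, hi⟩, ⟨j, hj⟩), h⟩
      have := (N i hi).mul_mem h3 (hNp i j hi hj h _ hz)
      change _ ∈ N i hi
      simpa [mul_assoc] using this) j hj
  rw [eq_top_iff]
  intro k _
  have h3 : x ⟨j, hj⟩ * k ∈ C j := by
    rw [hK, ← mul_assoc]
    exact (K j).mul_mem (hxC ⟨j, hj⟩) k.2
  obtain ⟨m, hm, hmk⟩ := key h3
  rw [inv_mul_cancel_left] at hmk
  rwa [← Subtype.ext hmk]

end InvSys

end Pool.Agent.P.MP_7895ba_al
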